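import Pool.Agent.Helper905_SI.Cyc
import Pool.Agent.Helper87.CMC.MPI

/-!
# Fibrewise diffeomorphisms are isotopic to fibrewise complex linear ones
-/

set_option autoImplicit false

open scoped ContDiff ComplexConjugate Topology
open Set Filter

namespace Pool.Agent.Helper905_SI

/-- `(u, w) ↦ (u, Ψ (u, w))` is a diffeomorphism of `ℂℙ² ∖ {(0 : 0 : 1)}` onto itself which maps
every line through `(0 : 0 : 1)` to itself and preserves the orientation of these lines. -/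
structure IsFibreDiffeo (Ψ Θ : X → ℂ) : Prop where
  hom : IsHomog 1 Ψ
  smooth : ContDiffOn ℝ ∞ Ψ {p | p.1 ≠ 0}
  smooth_inv : ContDiffOn ℝ ∞ Θ {p | p.1 ≠ 0}
  left : ∀ p : X, p.1 ≠ 0 → Θ (p.1, Ψ p) = p.2
  right : ∀ p : X, p.1 ≠ 0 → Ψ (p.1, Θ p) = p.2
  pos : ∀ p : X, p.1 ≠ 0 → 0 < vertE (fderiv ℝ Ψ p)

/-- the fibrewise Alexander type family -/
noncomputable def alex (Φ : X → ℂ) (t : ℝ) (p : X) : ℂ :=
  ∫ τ in (0 : ℝ)..1, fderiv ℝ Φ (p.1, (τ * (1 - t)) • p.2) (0, p.2)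

lemma alex_smooth {Φ : X → ℂ} (h : ContDiffOn ℝ ∞ Φ {p | p.1 ≠ 0}) :
    ContDiffOn ℝ ∞ (fun q : ℝ × X => alex Φ q.1 q.2) {q | q.2.1 ≠ 0} := by
  refine Pool.Agent.Helper87.CMC.contDiffOn_paramInt01 (E := ℝ × X) (G := ℂ)
    (W := {z : ℝ × (ℝ × X) | z.2.2.1 ≠ 0}) (U := {q : ℝ × X | q.2.1 ≠ 0})
    ?_ isOpen_base' (fun y hy s _ => hy)
    (fun z => fderiv ℝ Φ (z.2.2.1, (z.1 * (1 - z.2.1)) • z.2.2.2) (0, z.2.2.2)) ?_
  · exact isOpen_base'.preimage continuous_snd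
  · have h1 : ContDiffOn ℝ ∞ (fderiv ℝ Φ) {p | p.1 ≠ 0} :=
      h.fderiv_of_isOpen isOpen_base (by simp)
    have h2 : ContDiffOn ℝ ∞ (fun z : ℝ × (ℝ × X) =>
        fderiv ℝ Φ (z.2.2.1, (z.1 * (1 - z.2.1)) • z.2.2.2)) {z | z.2.2.1 ≠ 0} :=
      h1.comp (f := fun z : ℝ × (ℝ × X) => ((z.2.2.1, (z.1 * (1 - z.2.1)) • z.2.2.2) : X))
        (by fun_prop) (fun z hz => hz)
    exact h2.clm_apply (by fun_prop)

lemma diffAt_of_smooth {Φ : X → ℂ} (h : ContDiffOn ℝ ∞ Φ {p | p.1 ≠ 0}) {p : X} (hp : p.1 ≠ 0) :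
    DifferentiableAt ℝ Φ p :=
  (h.contDiffAt (isOpen_base.mem_nhds hp)).differentiableAt (by simp)

lemma alex_ftc {Φ : X → ℂ} (h : ContDiffOn ℝ ∞ Φ {p | p.1 ≠ 0}) (t : ℝ) {p : X} (hp : p.1 ≠ 0) :
    ((1 - t : ℝ) : ℂ) * alex Φ t p = Φ (p.1, (1 - t) • p.2) - Φ (p.1, 0) := by
  have h1 : ∀ τ ∈ uIcc (0 : ℝ) 1, HasDerivAt (fun τ : ℝ => Φ (p.1, (τ * (1 - t)) • p.2))
      (fderiv ℝ Φ (p.1, (τ * (1 - t)) • p.2) (0, (1 - t) • p.2)) τ := by
    intro τ _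
    have h2 : HasDerivAt (fun τ : ℝ => ((p.1, (τ * (1 - t)) • p.2) : X)) (0, (1 - t) • p.2) τ := by
      apply (hasDerivAt_const τ p.1).prodMk
      have h3 : HasDerivAt (fun τ : ℝ => τ * (1 - t)) (1 - t) τ := by
        simpa using (hasDerivAt_id τ).mul_const (1 - t)
      exact h3.smul_const p.2
    exact (diffAt_of_smooth h (p := (p.1, (τ * (1 - t)) • p.2)) hp).hasFDerivAt.comp_hasDerivAt
      τ h2
  have hc : ContinuousOn (fun τ : ℝ => fderiv ℝ Φ (p.1, (τ * (1 - t)) • p.2)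
      (0, (1 - t) • p.2)) (uIcc 0 1) := by
    have h2 : ContinuousOn (fderiv ℝ Φ) {p | p.1 ≠ 0} :=
      h.continuousOn_fderiv_of_isOpen isOpen_base (by simp)
    exact (h2.comp (f := fun τ : ℝ => ((p.1, (τ * (1 - t)) • p.2) : X)) (by fun_prop)
      (fun _ _ => hp)).clm_apply continuousOn_const
  have h2 := intervalIntegral.integral_eq_sub_of_hasDerivAt h1 hc.intervalIntegrable
  rw [one_mul, zero_mul, zero_smul] at h2
  rw [← h2, alex, ← intervalIntegral.integral_const_mul]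
  apply intervalIntegral.integral_congr
  intro τ _
  simp only
  have h3 : ((0 : ℂ × ℂ), (1 - t) • p.2) = (1 - t) • ((0 : ℂ × ℂ), p.2) := by
    rw [Prod.smul_mk, smul_zero]
  rw [h3, map_smul]
  rfl

lemma alex_one {Φ : X → ℂ} (p : X) : alex Φ 1 p = fderiv ℝ Φ (p.1, 0) (0, p.2) := by
  unfold alex
  simp

lemma alex_continuous {Φ : X → ℂ} (h : ContDiffOn ℝ ∞ Φ {p | p.1 ≠ 0}) {p : X} (hp : p.1 ≠ 0) :
    Continuous fun t : ℝ => alex Φ t p := by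
  rw [← continuousOn_univ]
  exact (alex_smooth h).continuousOn.comp (f := fun t : ℝ => (t, p)) (by fun_prop)
    (fun _ _ => hp)

lemma alex_diff {Φ : X → ℂ} (h : ContDiffOn ℝ ∞ Φ {p | p.1 ≠ 0}) (t : ℝ) {p : X}
    (hp : p.1 ≠ 0) : DifferentiableAt ℝ (alex Φ t) p := by
  have h1 : ContDiffOn ℝ ∞ (alex Φ t) {p | p.1 ≠ 0} :=
    (alex_smooth h).comp (f := fun p : X => (t, p)) (by fun_prop) (fun _ hp => hp)
  exact diffAt_of_smooth h1 hp

lemma alex_fderiv {Φ : X → ℂ} (h : ContDiffOn ℝ ∞ Φ {p | p.1 ≠ 0}) (t : ℝ) {p : X}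
    (hp : p.1 ≠ 0) (v : ℂ) :
    fderiv ℝ (alex Φ t) p (0, v) = fderiv ℝ Φ (p.1, (1 - t) • p.2) (0, v) := by
  have hline : HasDerivAt (fun τ : ℝ => p + τ • ((0 : ℂ × ℂ), v)) (0, v) 0 := by
    have := ((hasDerivAt_id (0 : ℝ)).smul_const ((0 : ℂ × ℂ), v)).const_add p
    simpa using this
  have hA : HasDerivAt (fun τ : ℝ => alex Φ t (p + τ • ((0 : ℂ × ℂ), v)))
      (fderiv ℝ (alex Φ t) p (0, v)) 0 := by
    have h3 : HasFDerivAt (alex Φ t) (fderiv ℝ (alex Φ t) p)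
        (p + (0 : ℝ) • ((0 : ℂ × ℂ), v)) := by
      simpa using (alex_diff h t hp).hasFDerivAt
    exact h3.comp_hasDerivAt 0 hline
  have hpt : ∀ τ : ℝ, (p + τ • ((0 : ℂ × ℂ), v)) = (p.1, p.2 + τ • v) := by
    intro τ
    ext <;> simp
  by_cases ht : t = 1
  · subst ht
    have h4 : (fun τ : ℝ => alex Φ 1 (p + τ • ((0 : ℂ × ℂ), v))) =
        fun τ : ℝ => fderiv ℝ Φ (p.1, 0) (0, p.2) + τ • fderiv ℝ Φ (p.1, 0) (0, v) := by
      funext τ
      rw [alex_one, hpt, ← map_smul, ← map_add]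
      congr 1
      ext <;> simp
    rw [h4] at hA
    have h5 : HasDerivAt (fun τ : ℝ => fderiv ℝ Φ (p.1, 0) (0, p.2) +
        τ • fderiv ℝ Φ (p.1, 0) (0, v)) (fderiv ℝ Φ (p.1, 0) (0, v)) 0 := by
      have := ((hasDerivAt_id (0 : ℝ)).smul_const (fderiv ℝ Φ (p.1, 0) (0, v))).const_add
        (fderiv ℝ Φ (p.1, 0) (0, p.2))
      simpa using this
    rw [sub_self, zero_smul]
    exact hA.unique h5
  · have ht' : ((1 - t : ℝ) : ℂ) ≠ 0 := by
      have : (1 - t) ≠ 0 := sub_ne_zero.2 (Ne.symm ht)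
      exact_mod_cast this
    have h4 : HasDerivAt (fun τ : ℝ => ((1 - t : ℝ) : ℂ) * alex Φ t (p + τ • ((0 : ℂ × ℂ), v)))
        (((1 - t : ℝ) : ℂ) * fderiv ℝ (alex Φ t) p (0, v)) 0 := hA.const_mul _
    have h5 : (fun τ : ℝ => ((1 - t : ℝ) : ℂ) * alex Φ t (p + τ • ((0 : ℂ × ℂ), v))) =
        fun τ : ℝ => Φ (p.1, (1 - t) • (p.2 + τ • v)) - Φ (p.1, 0) := by
      funext τ
      rw [hpt, alex_ftc h t (p := (p.1, p.2 + τ • v)) hp]
    rw [h5] at h4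
    have h6 : HasDerivAt (fun τ : ℝ => ((p.1, (1 - t) • (p.2 + τ • v)) : X))
        (0, (1 - t) • v) 0 := by
      apply (hasDerivAt_const (0 : ℝ) p.1).prodMk
      have h7 : HasDerivAt (fun τ : ℝ => p.2 + τ • v) v 0 := by
        have := ((hasDerivAt_id (0 : ℝ)).smul_const v).const_add p.2
        simpa using this
      exact h7.const_smul (1 - t)
    have h7 : HasFDerivAt Φ (fderiv ℝ Φ (p.1, (1 - t) • p.2))
        (p.1, (1 - t) • (p.2 + (0 : ℝ) • v)) := by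
      simpa using (diffAt_of_smooth h (p := (p.1, (1 - t) • p.2)) hp).hasFDerivAt
    have h8 : HasDerivAt (fun τ : ℝ => Φ (p.1, (1 - t) • (p.2 + τ • v)) - Φ (p.1, 0))
        (fderiv ℝ Φ (p.1, (1 - t) • p.2) (0, (1 - t) • v)) 0 :=
      (h7.comp_hasDerivAt 0 h6).sub_const _
    have h9 := h4.unique h8
    have h10 : ((0 : ℂ × ℂ), (1 - t) • v) = (1 - t) • ((0 : ℂ × ℂ), v) := by
      rw [Prod.smul_mk, smul_zero]
    rw [h10, map_smul, Complex.real_smul] at h9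
    exact mul_left_cancel₀ ht' h9

lemma eq_of_eq_off_one {f g : ℝ → ℂ} (hf : Continuous f) (hg : Continuous g)
    (h : ∀ t : ℝ, t ≠ 1 → f t = g t) (t : ℝ) : f t = g t :=
  congrFun (hf.ext_on (dense_compl_singleton (1 : ℝ)) hg (fun t ht => h t ht)) t

/-- the Alexander type family of a fibrewise diffeomorphism which fixes the zero section -/
theorem alex_family {Ψ Θ : X → ℂ} (h : IsFibreDiffeo Ψ Θ) (h0 : ∀ u : ℂ × ℂ, u ≠ 0 → Ψ (u, 0) = 0) :
    FibreFamily (alex Ψ) (alex Θ) := by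
  have h0' : ∀ u : ℂ × ℂ, u ≠ 0 → Θ (u, 0) = 0 := by
    intro u hu
    have := h.left (u, 0) hu
    simpa [h0 u hu] using this
  have hΨ : ∀ t : ℝ, ∀ p : X, p.1 ≠ 0 →
      ((1 - t : ℝ) : ℂ) * alex Ψ t p = Ψ (p.1, (1 - t) • p.2) := by
    intro t p hp
    rw [alex_ftc h.smooth t hp, h0 _ hp, sub_zero]
  have hΘ : ∀ t : ℝ, ∀ p : X, p.1 ≠ 0 →
      ((1 - t : ℝ) : ℂ) * alex Θ t p = Θ (p.1, (1 - t) • p.2) := by
    intro t p hp
    rw [alex_ftc h.smooth_inv t hp, h0' _ hp, sub_zero]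
  have hne : ∀ t : ℝ, t ≠ 1 → ((1 - t : ℝ) : ℂ) ≠ 0 := by
    intro t ht
    have : (1 - t) ≠ 0 := sub_ne_zero.2 (Ne.symm ht)
    exact_mod_cast this
  have hcont2 : ∀ {Φ Φ' : X → ℂ}, ContDiffOn ℝ ∞ Φ {p | p.1 ≠ 0} →
      ContDiffOn ℝ ∞ Φ' {p | p.1 ≠ 0} → ∀ p : X, p.1 ≠ 0 →
      Continuous fun t : ℝ => alex Φ t (p.1, alex Φ' t p) := by
    intro Φ Φ' hΦ hΦ' p hp
    rw [← continuousOn_univ]
    refine (alex_smooth hΦ).continuousOn.comp (f := fun t : ℝ => (t, ((p.1, alex Φ' t p) : X)))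
      ?_ (fun _ _ => hp)
    exact (continuous_id.prodMk (continuous_const.prodMk
      (alex_continuous hΦ' hp))).continuousOn
  refine ⟨?_, alex_smooth h.smooth, (alex_smooth h.smooth_inv).continuousOn.mono
    (fun q hq => hq.2), ?_, ?_, ?_⟩
  · intro t c hc p hp
    have hcp : (c • p).1 ≠ 0 := by
      rw [Prod.smul_fst]
      exact smul_ne_zero hc hp
    refine eq_of_eq_off_one (f := fun t => alex Ψ t (c • p)) (g := fun t => c ^ 1 * alex Ψ t p)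
      (alex_continuous h.smooth hcp) (continuous_const.mul (alex_continuous h.smooth hp)) ?_ t
    intro t ht
    apply mul_left_cancel₀ (hne t ht)
    rw [hΨ t _ hcp, mul_left_comm, hΨ t _ hp]
    rw [← h.hom c hc (p.1, (1 - t) • p.2) hp]
    congr 1
    ext
    · rfl
    · rfl
    · simp only [Prod.smul_snd, Complex.real_smul, smul_eq_mul, Prod.smul_mk]
      ring
  · intro t _ p hp
    refine eq_of_eq_off_one (f := fun t => alex Θ t (p.1, alex Ψ t p)) (g := fun _ => p.2)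
      (hcont2 h.smooth_inv h.smooth p hp) continuous_const ?_ t
    intro t ht
    apply mul_left_cancel₀ (hne t ht)
    rw [hΘ t (p.1, alex Ψ t p) hp]
    simp only [Complex.real_smul]
    rw [hΨ t p hp]
    have := h.left (p.1, (1 - t) • p.2) hp
    simp only [Complex.real_smul] at this ⊢
    exact this
  · intro t _ p hp
    refine eq_of_eq_off_one (f := fun t => alex Ψ t (p.1, alex Θ t p)) (g := fun _ => p.2)
      (hcont2 h.smooth h.smooth_inv p hp) continuous_const ?_ t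
    intro t ht
    apply mul_left_cancel₀ (hne t ht)
    rw [hΨ t (p.1, alex Θ t p) hp]
    simp only [Complex.real_smul]
    rw [hΘ t p hp]
    have := h.right (p.1, (1 - t) • p.2) hp
    simp only [Complex.real_smul] at this ⊢
    exact this
  · intro t _ p hp
    have := h.pos (p.1, (1 - t) • p.2) hp
    unfold vertE at this ⊢
    rw [alex_fderiv h.smooth t hp, alex_fderiv h.smooth t hp]
    exact this

lemma alex_zero {Ψ Θ : X → ℂ} (h : IsFibreDiffeo Ψ Θ) (h0 : ∀ u : ℂ × ℂ, u ≠ 0 → Ψ (u, 0) = 0)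
    {p : X} (hp : p.1 ≠ 0) : alex Ψ 0 p = Ψ p := by
  have h1 := alex_ftc h.smooth 0 hp
  rw [h0 _ hp] at h1
  simpa using h1

end Pool.Agent.Helper905_SI
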