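import Mathlib

/-!
# Logarithms on the complex projective line
-/

set_option autoImplicit false

open scoped ContDiff ComplexConjugate Topology
open Set Filter

namespace Pool.Agent.Helper905_SI

/-- a continuous function with values in `2πiℤ` on a preconnected set is constant -/
lemma const_of_exp_eq_one {Y : Type} [TopologicalSpace Y] {s : Set Y} (hs : IsPreconnected s)
    {c : Y → ℂ} (hc : ContinuousOn c s) (h : ∀ y ∈ s, Complex.exp (c y) = 1) {x y : Y}
    (hx : x ∈ s) (hy : y ∈ s) : c x = c y := by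
  set n : Y → ℤ := fun y => round ((c y).im / (2 * Real.pi)) with hn
  have hpi : (2 * Real.pi) ≠ 0 := by positivity
  have hval : ∀ y ∈ s, c y = (n y : ℂ) * (2 * Real.pi * Complex.I) := by
    intro y hy
    obtain ⟨m, hm⟩ := Complex.exp_eq_one_iff.1 (h y hy)
    have h1 : (c y).im / (2 * Real.pi) = m := by
      rw [hm]
      simp
    have h2 : n y = m := by
      simp only [hn]
      rw [h1, round_intCast]
    rw [h2, hm]
  have hcont : ContinuousOn n s := by
    rw [Int.isClosedEmbedding_coe_real.isInducing.continuousOn_iff]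
    have h1 : ContinuousOn (fun y => (c y).im / (2 * Real.pi)) s :=
      (Complex.continuous_im.comp_continuousOn hc).div_const _
    refine h1.congr ?_
    intro y hy
    simp only [Function.comp_apply]
    have h2 := congrArg Complex.im (hval y hy)
    simp at h2
    rw [h2]
    field_simp
  have h1 := hs.constant hcont hx hy
  rw [hval x hx, hval y hy, h1]

/-- continuous logarithms on the plane -/
lemma exists_log {g : ℂ → ℂ} (hg : Continuous g) (h0 : ∀ z, g z ≠ 0) :
    ∃ a : ℂ → ℂ, Continuous a ∧ ∀ z, Complex.exp (a z) = g z := by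
  have hU : IsSimplyConnected (univ : Set ℂ) := by
    have h1 : SimplyConnectedSpace ℂ := inferInstance
    have h2 : SimplyConnectedSpace (univ : Set ℂ) :=
      ((Homeomorph.Set.univ ℂ).toHomotopyEquiv.simplyConnectedSpace_iff).2 h1
    exact h2
  obtain ⟨a, ha, h⟩ := Complex.exists_continuousOn_eqOn_exp_comp hU isOpen_univ
    (g := g) hg.continuousOn (by
      rintro ⟨z, -, hz⟩
      exact h0 z hz)
  exact ⟨a, continuousOn_univ.1 ha, fun z => h (mem_univ z)⟩

/-- logarithms in two charts of the projective line -/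
lemma winding {k : ℤ} {a b : ℂ → ℂ} (ha : Continuous a) (hb : Continuous b)
    (h : ∀ z : ℂ, z ≠ 0 → Complex.exp (a z) = z ^ k * Complex.exp (b z⁻¹)) :
    k = 0 ∧ ∃ c : ℂ, Complex.exp c = 1 ∧ ∀ z : ℂ, z ≠ 0 → a z = b z⁻¹ + c := by
  have hk : k = 0 := by
    set c : ℝ → ℂ := fun θ => a (Complex.exp (θ * Complex.I)) -
      b (Complex.exp (-(θ * Complex.I))) - k * (θ * Complex.I) with hc
    have hcc : Continuous c := by
      simp only [hc]
      fun_prop
    have h1 : ∀ θ : ℝ, Complex.exp (c θ) = 1 := by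
      intro θ
      simp only [hc]
      rw [Complex.exp_sub, Complex.exp_sub, h _ (Complex.exp_ne_zero _), ← Complex.exp_neg,
        Complex.exp_int_mul]
      have h2 : Complex.exp (b (Complex.exp (-(↑θ * Complex.I)))) ≠ 0 := Complex.exp_ne_zero _
      have h3 : Complex.exp (↑θ * Complex.I) ^ k ≠ 0 := zpow_ne_zero _ (Complex.exp_ne_zero _)
      field_simp
    have h2 := const_of_exp_eq_one isPreconnected_univ hcc.continuousOn
      (fun θ _ => h1 θ) (mem_univ (2 * Real.pi)) (mem_univ 0)
    simp only [hc] at h2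
    have e1 : Complex.exp (((2 * Real.pi : ℝ) : ℂ) * Complex.I) = 1 := by
      push_cast
      exact Complex.exp_two_pi_mul_I
    have e2 : Complex.exp (-(((2 * Real.pi : ℝ) : ℂ) * Complex.I)) = 1 := by
      rw [Complex.exp_neg, e1, inv_one]
    rw [e1, e2] at h2
    simp at h2
    exact h2
  subst hk
  refine ⟨rfl, a 1 - b 1, ?_, ?_⟩
  · have h1 := h 1 one_ne_zero
    rw [zpow_zero, one_mul, inv_one] at h1
    rw [Complex.exp_sub, h1, div_self (Complex.exp_ne_zero _)]
  · intro z hz
    have hconn : IsPreconnected ({0}ᶜ : Set ℂ) :=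
      (isConnected_compl_singleton_of_one_lt_rank (by simp) (0 : ℂ)).isPreconnected
    have hc : ContinuousOn (fun z : ℂ => a z - b z⁻¹) ({0}ᶜ : Set ℂ) := by
      apply ha.continuousOn.sub
      exact hb.comp_continuousOn (continuousOn_inv₀)
    have h1 := const_of_exp_eq_one hconn hc (fun z hz => by
      rw [Complex.exp_sub, h z hz, zpow_zero, one_mul, div_self (Complex.exp_ne_zero _)])
      (show z ∈ ({0}ᶜ : Set ℂ) from hz) (show (1 : ℂ) ∈ ({0}ᶜ : Set ℂ) from one_ne_zero)
    simp only [inv_one] at h1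
    linear_combination h1

/-- continuous logarithms of smooth functions are smooth -/
lemma smooth_of_exp {E : Type} [NormedAddCommGroup E] [NormedSpace ℝ E] {H g : E → ℂ} {U : Set E}
    (hU : IsOpen U) (hH : ContinuousOn H U) (hg : ContDiffOn ℝ ∞ g U)
    (h : ∀ u ∈ U, Complex.exp (H u) = g u) : ContDiffOn ℝ ∞ H U := by
  intro u₀ hu₀
  apply ContDiffAt.contDiffWithinAt
  have hg0 : g u₀ ≠ 0 := by
    rw [← h u₀ hu₀]
    exact Complex.exp_ne_zero _
  have h1 : ContDiffAt ℝ ∞ (fun u => g u / g u₀) u₀ :=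
    (hg.contDiffAt (hU.mem_nhds hu₀)).div_const _
  have h2 : ContDiffAt ℝ ∞ (fun u => Complex.log (g u / g u₀)) u₀ := by
    have h3 : ContDiffAt ℝ ∞ Complex.log (g u₀ / g u₀) := by
      rw [div_self hg0]
      exact (Complex.contDiffAt_log (by simp)).restrict_scalars ℝ
    exact h3.comp u₀ h1
  have h3 : ContDiffAt ℝ ∞ (fun u => H u₀ + Complex.log (g u / g u₀)) u₀ :=
    contDiffAt_const.add h2
  refine h3.congr_of_eventuallyEq ?_
  have h4 : ContinuousAt H u₀ := hH.continuousAt (hU.mem_nhds hu₀)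
  have h5 : ∀ᶠ u in 𝓝 u₀, ‖H u - H u₀‖ < Real.pi := by
    have h6 : ContinuousAt (fun u => ‖H u - H u₀‖) u₀ := (h4.sub continuousAt_const).norm
    apply h6.eventually_lt continuousAt_const
    simp [Real.pi_pos]
  filter_upwards [h5, hU.mem_nhds hu₀] with u hu hu'
  rw [← h u hu', ← h u₀ hu₀, ← Complex.exp_sub, Complex.log_exp]
  · ring
  · have := (Complex.abs_im_le_norm (H u - H u₀)).trans_lt hu
    exact (abs_lt.1 this).1
  · have := (Complex.abs_im_le_norm (H u - H u₀)).trans_lt hu
    exact (abs_lt.1 this).2.le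

end Pool.Agent.Helper905_SI
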