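import Pool.Agent.Helper905_SI.Select
import Pool.Agent.Helper905_SI.Winding

/-!
# Sections of `𝒪(d)` in the standard chart
-/

set_option autoImplicit false

open scoped ContDiff ComplexConjugate Topology
open Set Filter

namespace Pool.Agent.Helper905_SI

/-- smooth sections of `𝒪(d)` -/
structure IsSection (d : ℕ) (s : ℂ × ℂ → ℂ) : Prop where
  hom : ∀ c : ℂ, c ≠ 0 → ∀ u : ℂ × ℂ, u ≠ 0 → s (c • u) = c ^ d * s u
  smooth : ContDiffOn ℝ ∞ s {u | u ≠ 0}

lemma isOpen_ne0 : IsOpen {u : ℂ × ℂ | u ≠ 0} := isOpen_ne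

lemma IsSection.diffAt {d : ℕ} {s : ℂ × ℂ → ℂ} (hs : IsSection d s) {u : ℂ × ℂ} (hu : u ≠ 0) :
    DifferentiableAt ℝ s u :=
  (hs.smooth.contDiffAt (isOpen_ne0.mem_nhds hu)).differentiableAt (by simp)

lemma IsSection.radial {d : ℕ} {s : ℂ × ℂ → ℂ} (hs : IsSection d s) {u : ℂ × ℂ} (hu : u ≠ 0)
    (h0 : s u = 0) (c : ℂ) : fderiv ℝ s u (c • u) = 0 := by
  have h1 : HasDerivAt (fun t : ℝ => u + t • (c • u)) (c • u) 0 := by
    have := ((hasDerivAt_id (0 : ℝ)).smul_const (c • u)).const_add u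
    simpa using this
  have h2 : HasDerivAt (fun t : ℝ => s (u + t • (c • u))) (fderiv ℝ s u (c • u)) 0 := by
    have h3 : HasFDerivAt s (fderiv ℝ s u) (u + (0 : ℝ) • (c • u)) := by
      simpa using (hs.diffAt hu).hasFDerivAt
    exact h3.comp_hasDerivAt 0 h1
  have h4 : (fun t : ℝ => s (u + t • (c • u))) =ᶠ[𝓝 0] fun _ => (0 : ℂ) := by
    have h5 : ∀ᶠ t : ℝ in 𝓝 0, (1 + (t : ℂ) * c) ≠ 0 := by
      have : ContinuousAt (fun t : ℝ => 1 + (t : ℂ) * c) 0 := by fun_prop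
      apply this.eventually_ne
      simp
    filter_upwards [h5] with t ht
    have h6 : u + t • (c • u) = (1 + (t : ℂ) * c) • u := by
      rw [add_smul, one_smul, mul_smul]
      rfl
    rw [h6, hs.hom _ ht _ hu, h0, mul_zero]
  exact (h2.congr_of_eventuallyEq h4.symm).unique (hasDerivAt_const (0 : ℝ) (0 : ℂ))

lemma jac_rot (M : ℂ →L[ℝ] ℂ) (w : ℂ) :
    jac (M w) (M (Complex.I * w)) = Complex.normSq w * jac (M 1) (M Complex.I) := by
  rw [jac_lin_anti, lin_anti M w, lin_anti M (Complex.I * w)]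
  simp only [jac_eq, Complex.normSq_apply, map_mul, Complex.conj_I]
  simp
  ring

lemma IsSection.chart {d : ℕ} {s : ℂ × ℂ → ℂ} (hs : IsSection d s) :
    ContDiff ℝ ∞ (fun z : ℂ => s (1, z)) := by
  rw [← contDiffOn_univ]
  exact hs.smooth.comp (f := fun z : ℂ => ((1 : ℂ), z)) (by fun_prop) (fun z _ => by simp)

lemma IsSection.eq_chart {d : ℕ} {s : ℂ × ℂ → ℂ} (hs : IsSection d s) {x y : ℂ} (hx : x ≠ 0) :
    s (x, y) = x ^ d * s (1, y / x) := by
  rw [← hs.hom x hx (1, y / x) (by simp)]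
  congr 1
  ext
  · simp
  · simp only [Prod.smul_mk, smul_eq_mul]
    field_simp

/-- the energy of a section at a zero, in the chart -/
lemma IsSection.secE_chart {d : ℕ} {s : ℂ × ℂ → ℂ} (hs : IsSection d s) {x y : ℂ} (hx : x ≠ 0)
    (h0 : s (x, y) = 0) : secE (fderiv ℝ s (x, y)) =
      (1 + Complex.normSq (y / x)) * (Complex.normSq (x ^ d) * (Complex.normSq x⁻¹ *
        jac (fderiv ℝ (fun z : ℂ => s (1, z)) (y / x) 1)
          (fderiv ℝ (fun z : ℂ => s (1, z)) (y / x) Complex.I))) := by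
  have hu : ((x, y) : ℂ × ℂ) ≠ 0 := by
    intro h
    exact hx (congrArg Prod.fst h)
  set M := fderiv ℝ s (x, y) with hM
  set N := fderiv ℝ (fun z : ℂ => s (1, z)) (y / x) with hN
  have hfib : ∀ h : ℂ, M (0, h) = x ^ d * N (x⁻¹ * h) := by
    intro h
    have e1 : HasDerivAt (fun t : ℝ => (((x, y) : ℂ × ℂ)) + t • ((0 : ℂ), h)) (0, h) 0 := by
      have := ((hasDerivAt_id (0 : ℝ)).smul_const ((0 : ℂ), h)).const_add ((x, y) : ℂ × ℂ)
      simpa using this
    have e2 : HasDerivAt (fun t : ℝ => s ((x, y) + t • ((0 : ℂ), h))) (M (0, h)) 0 := by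
      have h3 : HasFDerivAt s M ((x, y) + (0 : ℝ) • ((0 : ℂ), h)) := by
        simpa using (hs.diffAt hu).hasFDerivAt
      exact h3.comp_hasDerivAt 0 e1
    have e3 : HasDerivAt (fun t : ℝ => y / x + t • (x⁻¹ * h)) (x⁻¹ * h) 0 := by
      have := ((hasDerivAt_id (0 : ℝ)).smul_const (x⁻¹ * h)).const_add (y / x)
      simpa using this
    have e4 : HasDerivAt (fun t : ℝ => x ^ d * (fun z : ℂ => s (1, z)) (y / x + t • (x⁻¹ * h)))
        (x ^ d * N (x⁻¹ * h)) 0 := by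
      have h3 : HasFDerivAt (fun z : ℂ => s (1, z)) N (y / x + (0 : ℝ) • (x⁻¹ * h)) := by
        simpa using (hs.chart.contDiffAt.differentiableAt (by simp)).hasFDerivAt
      exact (h3.comp_hasDerivAt 0 e3).const_mul _
    have e5 : (fun t : ℝ => s ((x, y) + t • ((0 : ℂ), h))) =
        fun t : ℝ => x ^ d * (fun z : ℂ => s (1, z)) (y / x + t • (x⁻¹ * h)) := by
      funext t
      have : ((x, y) : ℂ × ℂ) + t • ((0 : ℂ), h) = (x, y + t • h) := by
        ext <;> simp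
      rw [this, hs.eq_chart hx]
      simp only [Complex.real_smul]
      congr 3
      field_simp
    rw [e5] at e2
    exact e2.unique e4
  have hrad : ∀ c : ℂ, M (c, 0) = M (0, -(c * (y / x))) := by
    intro c
    have h1 := hs.radial hu h0 (c / x)
    have h2 : (c / x) • ((x, y) : ℂ × ℂ) = (c, 0) - (0, -(c * (y / x))) := by
      ext
      · simp
        field_simp
      · simp
        field_simp
    rw [h2, map_sub] at h1
    exact sub_eq_zero.1 h1
  unfold secE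
  have hv : jac (M (0, 1)) (M (0, Complex.I)) = Complex.normSq (x ^ d) * (Complex.normSq x⁻¹ *
      jac (N 1) (N Complex.I)) := by
    rw [hfib, hfib, jac_mul, mul_one, mul_comm x⁻¹ Complex.I, jac_rot]
  have hh : jac (M (1, 0)) (M (Complex.I, 0)) = Complex.normSq (y / x) *
      jac (M (0, 1)) (M (0, Complex.I)) := by
    rw [hrad, hrad, hfib, hfib, jac_mul]
    have e1 : x⁻¹ * -(Complex.I * (y / x)) = Complex.I * (x⁻¹ * -(1 * (y / x))) := by ring
    rw [e1, jac_rot, hv, Complex.normSq_mul, Complex.normSq_neg, one_mul]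
    ring
  rw [hh, hv]
  ring

lemma pos_mix {α β γ : ℂ} {t : ℝ} (ht : t ∈ Icc (0 : ℝ) 1)
    (h : ‖β‖ * ‖γ‖ < (α * conj γ).re) :
    0 < Complex.normSq ((1 - t) * α + t * γ) - (1 - t) ^ 2 * Complex.normSq β := by
  have h0 : γ ≠ 0 := by
    rintro rfl
    simp at h
  have hγ : 0 < ‖γ‖ := norm_pos_iff.2 h0
  have h1 : ((((1 : ℂ) - t) * α + t * γ) * conj γ).re = (1 - t) * (α * conj γ).re + t * ‖γ‖ ^ 2 := by
    have e : (((1 : ℂ) - t) * α + t * γ) * conj γ = ((1 - t : ℝ) : ℂ) * (α * conj γ) +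
        ((t * ‖γ‖ ^ 2 : ℝ) : ℂ) := by
      rw [← Complex.normSq_eq_norm_sq]
      push_cast
      rw [← Complex.mul_conj]
      ring
    rw [e, Complex.add_re, Complex.re_ofReal_mul, Complex.ofReal_re]
  have h2 : ((((1 : ℂ) - t) * α + t * γ) * conj γ).re ≤ ‖((1 : ℂ) - t) * α + t * γ‖ * ‖γ‖ := by
    refine (Complex.re_le_norm _).trans ?_
    rw [norm_mul, Complex.norm_conj]
  have h3 : (1 - t) * ‖β‖ * ‖γ‖ < ‖((1 : ℂ) - t) * α + t * γ‖ * ‖γ‖ := by
    rw [h1] at h2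
    rcases ht.1.eq_or_lt with h4 | h4
    · rw [← h4] at h2 ⊢
      linarith
    · have h5 : (1 - t) * (‖β‖ * ‖γ‖) ≤ (1 - t) * (α * conj γ).re :=
        mul_le_mul_of_nonneg_left h.le (by linarith [ht.2])
      have h6 : 0 < t * ‖γ‖ ^ 2 := by positivity
      linarith
  have h4 : (1 - t) * ‖β‖ < ‖((1 : ℂ) - t) * α + t * γ‖ := lt_of_mul_lt_mul_right h3 hγ.le
  have h5 : 0 ≤ (1 - t) * ‖β‖ := mul_nonneg (by linarith [ht.2]) (norm_nonneg _)
  rw [Complex.normSq_eq_norm_sq, Complex.normSq_eq_norm_sq]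
  nlinarith

end Pool.Agent.Helper905_SI
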