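import Pool.Agent.Helper905_SI.Squeeze

/-!
# Cyclic multisections
-/

set_option autoImplicit false

open scoped ContDiff ComplexConjugate Topology
open Set Filter

namespace Pool.Agent.Helper905_SI

/-- Families of fibrewise diffeomorphisms `w ↦ η t (u, w)`, with inverses `r ↦ Θ t (u, r)`. -/
structure FibreFamily (η Θ : ℝ → X → ℂ) : Prop where
  hom : ∀ t, IsHomog 1 (η t)
  smooth : ContDiffOn ℝ ∞ (fun q : ℝ × X => η q.1 q.2) {q | q.2.1 ≠ 0}
  cont : ContinuousOn (fun q : ℝ × X => Θ q.1 q.2) {q | q.1 ∈ Icc (0 : ℝ) 1 ∧ q.2.1 ≠ 0}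
  left : ∀ t ∈ Icc (0 : ℝ) 1, ∀ p : X, p.1 ≠ 0 → Θ t (p.1, η t p) = p.2
  right : ∀ t ∈ Icc (0 : ℝ) 1, ∀ p : X, p.1 ≠ 0 → η t (p.1, Θ t p) = p.2
  pos : ∀ t ∈ Icc (0 : ℝ) 1, ∀ p : X, p.1 ≠ 0 → 0 < vertE (fderiv ℝ (η t) p)

/-- `|∂S|² - |∂̄S|²` for `M = dS`. -/
noncomputable def secE (M : ℂ × ℂ →L[ℝ] ℂ) : ℝ :=
  jac (M (1, 0)) (M (Complex.I, 0)) + jac (M (0, 1)) (M (0, Complex.I))

/-- Families of sections of `𝒪(d)` with positive transverse zeros. -/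
structure SectionFamily (d : ℕ) (S : ℝ → ℂ × ℂ → ℂ) : Prop where
  hom : ∀ t, ∀ c : ℂ, c ≠ 0 → ∀ u : ℂ × ℂ, u ≠ 0 → S t (c • u) = c ^ d * S t u
  smooth : ContDiffOn ℝ ∞ (fun q : ℝ × (ℂ × ℂ) => S q.1 q.2) {q | q.2 ≠ 0}
  pos : ∀ t ∈ Icc (0 : ℝ) 1, ∀ u : ℂ × ℂ, u ≠ 0 → S t u = 0 → 0 < secE (fderiv ℝ (S t) u)

lemma jac_mul (c a b : ℂ) : jac (c * a) (c * b) = Complex.normSq c * jac a b := by
  simp only [jac_eq, Complex.normSq_apply, Complex.mul_re, Complex.mul_im]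
  ring

lemma jac_neg (a b : ℂ) : jac (-a) (-b) = jac a b := by
  simp only [jac_eq, Complex.neg_re, Complex.neg_im]
  ring

/-- two values with nonzero jacobian span `ℂ` -/
lemma surj_of_jac {M : X →L[ℝ] ℂ} {a b : X} (h : jac (M a) (M b) ≠ 0) :
    Function.Surjective M := by
  intro z
  rw [jac_eq] at h
  set D : ℝ := (M a).re * (M b).im - (M a).im * (M b).re with hD
  refine ⟨((z.re * (M b).im - z.im * (M b).re) / D) • a +
    ((z.im * (M a).re - z.re * (M a).im) / D) • b, ?_⟩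
  rw [map_add, map_smul, map_smul]
  apply Complex.ext
  · simp only [Complex.add_re, Complex.real_smul, Complex.re_ofReal_mul]
    field_simp
    rw [hD]
    ring
  · simp only [Complex.add_im, Complex.real_smul, Complex.im_ofReal_mul]
    field_simp
    rw [hD]
    ring

/-- the derivative of a cyclic equation -/
lemma fderiv_cyc {d : ℕ} {η : X → ℂ} {S : ℂ × ℂ → ℂ} {p : X} (h1 : DifferentiableAt ℝ η p)
    (h2 : DifferentiableAt ℝ S p.1) :
    fderiv ℝ (fun p : X => η p ^ d - S p.1) p =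
      ((d : ℂ) * η p ^ (d - 1)) • fderiv ℝ η p -
        (fderiv ℝ S p.1).comp (ContinuousLinearMap.fst ℝ (ℂ × ℂ) ℂ) := by
  have e1 : HasFDerivAt (fun p : X => η p ^ d) (((d : ℂ) * η p ^ (d - 1)) • fderiv ℝ η p) p := by
    have h3 := h1.hasFDerivAt.pow d
    rw [nsmul_eq_mul] at h3
    exact h3
  have e2 : HasFDerivAt (fun p : X => S p.1)
      ((fderiv ℝ S p.1).comp (ContinuousLinearMap.fst ℝ (ℂ × ℂ) ℂ)) p :=
    h2.hasFDerivAt.comp p hasFDerivAt_fst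
  exact (e1.sub e2).fderiv

lemma vertE_cyc (c : ℂ) (A : X →L[ℝ] ℂ) (B : ℂ × ℂ →L[ℝ] ℂ) :
    vertE (c • A - B.comp (ContinuousLinearMap.fst ℝ (ℂ × ℂ) ℂ)) =
      Complex.normSq c * vertE A := by
  unfold vertE
  rw [← jac_mul]
  congr 1
  · simp
  · simp

lemma baseE_cyc (A : X →L[ℝ] ℂ) (B : ℂ × ℂ →L[ℝ] ℂ) :
    baseE ((0 : ℂ) • A - B.comp (ContinuousLinearMap.fst ℝ (ℂ × ℂ) ℂ)) = secE B := by
  unfold baseE secE
  simp [jac_neg]

/-- boundedness of cyclic multisections -/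
lemma cyc_bound {d : ℕ} (hd : 1 ≤ d) {η Θ : ℝ → X → ℂ} {S : ℝ → ℂ × ℂ → ℂ}
    (hη : FibreFamily η Θ)
    (hom : ∀ t, ∀ c : ℂ, c ≠ 0 → ∀ u : ℂ × ℂ, u ≠ 0 → S t (c • u) = c ^ d * S t u)
    (hSs : ContDiffOn ℝ ∞ (fun q : ℝ × (ℂ × ℂ) => S q.1 q.2) {q | q.2 ≠ 0}) :
    ∃ R : ℝ, ∀ t ∈ Icc (0 : ℝ) 1, ∀ p : X, p.1 ≠ 0 → η t p ^ d - S t p.1 = 0 →
      Complex.normSq p.2 ≤ R * nb p := by
  have hK1 : IsCompact ({q : ℝ × (ℂ × ℂ) | q.1 ∈ Icc (0 : ℝ) 1} ∩
      {q | Complex.normSq q.2.1 + Complex.normSq q.2.2 = 1}) := by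
    apply Metric.isCompact_of_isClosed_isBounded
    · apply (isClosed_Icc.preimage continuous_fst).inter
      apply isClosed_eq _ continuous_const
      exact (Complex.continuous_normSq.comp (by fun_prop)).add
        (Complex.continuous_normSq.comp (by fun_prop))
    · rw [isBounded_iff_forall_norm_le]
      refine ⟨1, ?_⟩
      rintro ⟨t, x, y⟩ ⟨ht, hq⟩
      have ht' : 0 ≤ t ∧ t ≤ 1 := ht
      have hq' : Complex.normSq x + Complex.normSq y = 1 := hq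
      rw [Complex.normSq_eq_norm_sq, Complex.normSq_eq_norm_sq] at hq'
      rw [Prod.norm_def, Prod.norm_def]
      refine max_le ?_ (max_le ?_ ?_)
      · rw [Real.norm_eq_abs, abs_le]
        constructor <;> linarith [ht'.1, ht'.2]
      · nlinarith [norm_nonneg x, norm_nonneg y]
      · nlinarith [norm_nonneg x, norm_nonneg y]
  set K1 := {q : ℝ × (ℂ × ℂ) | q.1 ∈ Icc (0 : ℝ) 1} ∩
      {q | Complex.normSq q.2.1 + Complex.normSq q.2.2 = 1} with hK1def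
  have hne : ∀ q ∈ K1, q.2 ≠ 0 := by
    rintro ⟨t, u⟩ ⟨-, hq⟩ h0
    have h0' : u = 0 := h0
    subst h0'
    have hq' : Complex.normSq (0 : ℂ × ℂ).1 + Complex.normSq (0 : ℂ × ℂ).2 = 1 := hq
    simp at hq'
  obtain ⟨C, hC⟩ := hK1.exists_bound_of_continuousOn
    (hSs.continuousOn.mono (fun q hq => hne q hq))
  have hK2 : IsCompact (K1 ×ˢ Metric.closedBall (0 : ℂ) (max 1 C)) :=
    hK1.prod (isCompact_closedBall _ _)
  obtain ⟨R, hR⟩ := hK2.exists_bound_of_continuousOn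
    (f := fun q : (ℝ × (ℂ × ℂ)) × ℂ => Θ q.1.1 (q.1.2, q.2))
    (hη.cont.comp (f := fun q : (ℝ × (ℂ × ℂ)) × ℂ => (q.1.1, (q.1.2, q.2))) (by fun_prop)
      (fun q hq => ⟨hq.1.1, hne q.1 hq.1⟩))
  refine ⟨R ^ 2, ?_⟩
  intro t ht p hp h0
  -- normalised points
  have hnorm : ∀ q : X, nb q = 1 → η t q ^ d - S t q.1 = 0 → Complex.normSq q.2 ≤ R ^ 2 := by
    intro q hq hq0
    have hq1 : q.1 ≠ 0 := by
      intro h
      rw [nb_eq_zero.2 h] at hq
      exact zero_ne_one hq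
    have hqK : (t, q.1) ∈ K1 := ⟨ht, hq⟩
    have h1 : ‖S t q.1‖ ≤ C := hC (t, q.1) hqK
    have h2 : ‖η t q‖ ^ d ≤ C := by
      rw [← norm_pow, sub_eq_zero.1 hq0]
      exact h1
    have h3 : ‖η t q‖ ≤ max 1 C := by
      by_contra hcon
      rw [not_le, max_lt_iff] at hcon
      have h4 : ‖η t q‖ ≤ ‖η t q‖ ^ d := le_self_pow₀ hcon.1.le (by omega)
      linarith [hcon.2]
    have h5 := hR ((t, q.1), η t q) ⟨hqK, by simpa using h3⟩
    simp only at h5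
    rw [hη.left t ht q hq1] at h5
    rw [Complex.normSq_eq_norm_sq]
    exact pow_le_pow_left₀ (norm_nonneg _) h5 2
  set c : ℝ := (Real.sqrt (nb p))⁻¹ with hc
  have hc0 : 0 < c := inv_pos.2 (Real.sqrt_pos.2 (nb_pos hp))
  have hcn : nb (c • p) = 1 := by
    rw [nb_smul, hc, inv_pow, Real.sq_sqrt (nb_nonneg p), inv_mul_cancel₀ (nb_pos hp).ne']
  have hcc : (c : ℂ) ≠ 0 := by exact_mod_cast hc0.ne'
  have h1 := hnorm (c • p) hcn (by
    have e1 := hη.hom t c hcc p hp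
    have e2 := hom t c hcc p.1 hp
    have e3 : c • p = (c : ℂ) • p := rfl
    rw [e3, Prod.smul_fst, e1, e2, pow_one, mul_pow, ← mul_sub, h0, mul_zero])
  rw [Prod.smul_snd, Complex.real_smul, Complex.normSq_mul, Complex.normSq_ofReal, ← pow_two, hc,
    inv_pow, Real.sq_sqrt (nb_nonneg p), ← div_eq_inv_mul, div_le_iff₀ (nb_pos hp)] at h1
  exact h1

theorem cyc_good {d : ℕ} (hd : 2 ≤ d) {η Θ : ℝ → X → ℂ} {S : ℝ → ℂ × ℂ → ℂ}
    (hη : FibreFamily η Θ) (hS : SectionFamily d S) :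
    GoodFamily d (fun t p => η t p ^ d - S t p.1) := by
  have hdη : ∀ t, ∀ p : X, p.1 ≠ 0 → DifferentiableAt ℝ (η t) p := by
    intro t p hp
    have h1 : ContDiffOn ℝ ∞ (η t) {p | p.1 ≠ 0} :=
      hη.smooth.comp (f := fun p : X => (t, p)) (by fun_prop) (fun _ hp => hp)
    exact (h1.contDiffAt (isOpen_base.mem_nhds hp)).differentiableAt (by simp)
  have hdS : ∀ t, ∀ u : ℂ × ℂ, u ≠ 0 → DifferentiableAt ℝ (S t) u := by
    intro t u hu
    have h1 : ContDiffOn ℝ ∞ (S t) {u | u ≠ 0} :=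
      hS.smooth.comp (f := fun u : ℂ × ℂ => (t, u)) (by fun_prop) (fun _ hp => hp)
    exact (h1.contDiffAt (isOpen_ne.mem_nhds hu)).differentiableAt (by simp)
  have hfd : ∀ t, ∀ p : X, p.1 ≠ 0 → fderiv ℝ (fun p : X => η t p ^ d - S t p.1) p =
      ((d : ℂ) * η t p ^ (d - 1)) • fderiv ℝ (η t) p -
        (fderiv ℝ (S t) p.1).comp (ContinuousLinearMap.fst ℝ (ℂ × ℂ) ℂ) :=
    fun t p hp => fderiv_cyc (hdη t p hp) (hdS t _ hp)
  have hV : ∀ t, ∀ p : X, p.1 ≠ 0 → vertE (fderiv ℝ (fun p : X => η t p ^ d - S t p.1) p) =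
      Complex.normSq ((d : ℂ) * η t p ^ (d - 1)) * vertE (fderiv ℝ (η t) p) := by
    intro t p hp
    rw [hfd t p hp, vertE_cyc]
  have hB : ∀ t, ∀ p : X, p.1 ≠ 0 → η t p = 0 →
      baseE (fderiv ℝ (fun p : X => η t p ^ d - S t p.1) p) = secE (fderiv ℝ (S t) p.1) := by
    intro t p hp h0
    rw [hfd t p hp, h0, zero_pow (by omega), mul_zero, baseE_cyc]
  have hd0 : (d : ℂ) ≠ 0 := by
    have : d ≠ 0 := by omega
    exact_mod_cast this
  have hS0 : ∀ t, ∀ p : X, η t p ^ d - S t p.1 = 0 → η t p = 0 → S t p.1 = 0 := by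
    intro t p h h0
    rw [h0, zero_pow (by omega), zero_sub, neg_eq_zero] at h
    exact h
  have hbase : ∀ t ∈ Icc (0 : ℝ) 1, ∀ p : X, p.1 ≠ 0 → η t p ^ d - S t p.1 = 0 → η t p = 0 →
      0 < baseE (fderiv ℝ (fun p : X => η t p ^ d - S t p.1) p) := by
    intro t ht p hp h h0
    rw [hB t p hp h0]
    exact hS.pos t ht _ hp (hS0 t p h h0)
  have hvert : ∀ t ∈ Icc (0 : ℝ) 1, ∀ p : X, p.1 ≠ 0 → η t p ≠ 0 →
      0 < vertE (fderiv ℝ (fun p : X => η t p ^ d - S t p.1) p) := by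
    intro t ht p hp h0
    rw [hV t p hp]
    exact mul_pos (Complex.normSq_pos.2 (mul_ne_zero hd0 (pow_ne_zero _ h0))) (hη.pos t ht p hp)
  have hsurj : ∀ t ∈ Icc (0 : ℝ) 1, ∀ p : X, p.1 ≠ 0 → η t p ^ d - S t p.1 = 0 →
      Function.Surjective (fderiv ℝ (fun p : X => η t p ^ d - S t p.1) p) := by
    intro t ht p hp h
    by_cases h0 : η t p = 0
    · have h1 := hbase t ht p hp h h0
      unfold baseE at h1
      by_cases h2 : jac (fderiv ℝ (fun p : X => η t p ^ d - S t p.1) p ((1, 0), 0))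
          (fderiv ℝ (fun p : X => η t p ^ d - S t p.1) p ((Complex.I, 0), 0)) = 0
      · rw [h2, zero_add] at h1
        exact surj_of_jac h1.ne'
      · exact surj_of_jac h2
    · exact surj_of_jac (hvert t ht p hp h0).ne'
  refine ⟨?_, ?_, hsurj, ?_, ?_, ?_, ?_⟩
  · intro t c hc p hp
    have h1 := hη.hom t c hc p hp
    have h2 := hS.hom t c hc p.1 hp
    simp only [Prod.smul_fst]
    rw [h1, h2]
    ring
  · apply ContDiffOn.sub
    · exact hη.smooth.pow d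
    · exact hS.smooth.comp (f := fun q : ℝ × X => (q.1, q.2.1)) (by fun_prop) (fun _ hq => hq)
  · intro t ht p hp h
    by_cases h0 : η t p = 0
    · rw [hV t p hp, h0, zero_pow (by omega), mul_zero, map_zero, zero_mul]
    · exact (hvert t ht p hp h0).le
  · intro t ht p hp h hv
    by_cases h0 : η t p = 0
    · exact hbase t ht p hp h h0
    · exact absurd hv (hvert t ht p hp h0).ne'
  · intro t ht
    obtain ⟨r, hr⟩ := IsAlgClosed.exists_pow_nat_eq (S t (1, 0)) (by omega : 0 < d)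
    refine ⟨((1, 0), Θ t ((1, 0), r)), by simp, ?_⟩
    have h1 := hη.right t ht ((1, 0), r) (by simp)
    simp only at h1 ⊢
    rw [h1, hr, sub_self]
  · exact cyc_bound (by omega) hη hS.hom hS.smooth

end Pool.Agent.Helper905_SI
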