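import Mathlib

/-!
# Symplectic curves in the complex projective plane: definitions

Everything is written in homogeneous coordinates on `ℂ³ ∖ {0}`: a subset `C` of `ℂℙ²` is
replaced by the cone over it, and the Fubini–Study form by its pull-back to `ℂ³ ∖ {0}`.
-/

set_option autoImplicit false

open scoped ContDiff ComplexConjugate
open Set

namespace Pool.Agent.Helper905_SI

/-- `ℂ³` with its standard Hermitian inner product. -/
abbrev V : Type := EuclideanSpace ℂ (Fin 3)

/-- The complex projective plane. -/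
abbrev CP2 : Type := Projectivization ℂ V

/-- The cone over a subset `C` of the projective plane: the nonzero vectors whose class
lies in `C`. -/
def cone (C : Set CP2) : Set V := {v | ∃ h : v ≠ 0, Projectivization.mk ℂ v h ∈ C}

/-- The Fubini–Study form `(i/2) ∂∂̄ log |v|²`, pulled back to `ℂ³ ∖ {0}`. -/
noncomputable def fubiniStudy (v a b : V) : ℝ :=
  (((‖v‖ ^ 2 : ℝ) : ℂ) * inner ℂ a b - inner ℂ a v * inner ℂ v b).im / ‖v‖ ^ 4

/-- `f` is a local equation of `C`, as a symplectic surface, on the open set `U` of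
`ℂ³ ∖ {0}`: `f` is smooth on `U`, the cone over `C` is the zero set of `f` in `U`, at the
points `u` of the cone the differential `df_u : ℂ³ → ℂ` is onto (so that `C` is there a smooth
embedded real surface with tangent space `ker df_u / ℂ u`), and the Fubini–Study form is
nondegenerate on the tangent space of `C`. -/
structure IsSymplecticEquation (C : Set CP2) (U : Set V) (f : V → ℂ) : Prop where
  isOpen : IsOpen U
  zero_notMem : (0 : V) ∉ U
  smooth : ContDiffOn ℝ ∞ f U
  mem_cone_iff : ∀ u ∈ U, (u ∈ cone C ↔ f u = 0)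
  surjective : ∀ u ∈ U, u ∈ cone C → Function.Surjective (fderiv ℝ f u)
  nondegenerate : ∀ u ∈ U, u ∈ cone C → ∀ a : V, fderiv ℝ f u a = 0 →
    (∀ b : V, fderiv ℝ f u b = 0 → fubiniStudy u a b = 0) → ∃ c : ℂ, a = c • u

/-- Smooth symplectic curves in `ℂℙ²`: nonempty closed subsets which are smooth embedded real
surfaces on which the Fubini–Study form is nondegenerate. -/
structure IsSymplecticCurve (C : Set CP2) : Prop where
  nonempty : C.Nonempty
  isClosed : IsClosed (cone C ∪ {0})
  locally_eq : ∀ v ∈ cone C, ∃ (U : Set V) (f : V → ℂ), v ∈ U ∧ IsSymplecticEquation C U f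

/-- A smooth one-parameter family `𝒞 t`, `t ∈ [0, 1]`, of smooth symplectic curves: the total
space `{(t, x) : x ∈ 𝒞 t}` is closed, and near each of its points the curves `𝒞 t` are given
by an equation which depends smoothly on `t` and on the point. -/
structure IsSymplecticFamily (𝒞 : ℝ → Set CP2) : Prop where
  nonempty : ∀ t ∈ Icc (0 : ℝ) 1, (𝒞 t).Nonempty
  isClosed : IsClosed {p : ℝ × V | p.1 ∈ Icc (0 : ℝ) 1 ∧ p.2 ∈ cone (𝒞 p.1) ∪ {0}}
  locally_eq : ∀ t₀ ∈ Icc (0 : ℝ) 1, ∀ v ∈ cone (𝒞 t₀),
    ∃ (J : Set ℝ) (U : Set V) (f : ℝ × V → ℂ), IsOpen J ∧ t₀ ∈ J ∧ v ∈ U ∧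
      ContDiffOn ℝ ∞ f (J ×ˢ U) ∧
      ∀ t ∈ J ∩ Icc (0 : ℝ) 1, IsSymplecticEquation (𝒞 t) U (fun u => f (t, u))

/-- `C` and `C'` are the ends of a smooth family of smooth symplectic curves. -/
def SmoothlyJoined (C C' : Set CP2) : Prop :=
  ∃ 𝒞 : ℝ → Set CP2, IsSymplecticFamily 𝒞 ∧ 𝒞 0 = C ∧ 𝒞 1 = C'

/-- Symplectic isotopy: `C` and `C'` are joined by a path of smooth symplectic curves, put
together from finitely many smooth families. -/
def SymplecticallyIsotopic : Set CP2 → Set CP2 → Prop := Relation.TransGen SmoothlyJoined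

/-- Complex curves of degree `d`: zero sets of homogeneous polynomials of degree `d` in three
variables which define nonsingular curves. -/
def IsComplexCurve (d : ℕ) (C : Set CP2) : Prop :=
  ∃ P : MvPolynomial (Fin 3) ℂ, P.IsHomogeneous d ∧
    (∀ v : V, v ≠ 0 → MvPolynomial.eval (fun i => v i) P = 0 →
      ∃ i, MvPolynomial.eval (fun i => v i) (MvPolynomial.pderiv i P) ≠ 0) ∧
    cone C = {v | v ≠ 0 ∧ MvPolynomial.eval (fun i => v i) P = 0}

end Pool.Agent.Helper905_SI
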