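import Pool.Agent.Helper905_SI.LinAlg

/-!
# Curves and families of curves given by one equation away from the centre `(0 : 0 : 1)`
-/

set_option autoImplicit false

open scoped ContDiff ComplexConjugate Topology
open Set Filter

namespace Pool.Agent.Helper905_SI

/-- `ℂ² × ℂ`: the coordinates `((x, y), w)`. -/
abbrev X : Type := (ℂ × ℂ) × ℂ

/-- the coordinates of a vector -/
noncomputable def toX : V →L[ℝ] X :=
  ((((EuclideanSpace.proj (0 : Fin 3) : V →L[ℂ] ℂ).restrictScalars ℝ).prod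
    ((EuclideanSpace.proj (1 : Fin 3) : V →L[ℂ] ℂ).restrictScalars ℝ)).prod
    ((EuclideanSpace.proj (2 : Fin 3) : V →L[ℂ] ℂ).restrictScalars ℝ))

@[simp] lemma toX_apply (v : V) : toX v = ((v 0, v 1), v 2) := rfl

/-- the part of `energy` which comes from the first two coordinates -/
noncomputable def baseE (M : X →L[ℝ] ℂ) : ℝ :=
  jac (M ((1, 0), 0)) (M ((Complex.I, 0), 0)) + jac (M ((0, 1), 0)) (M ((0, Complex.I), 0))

/-- the part of `energy` which comes from the last coordinate -/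
noncomputable def vertE (M : X →L[ℝ] ℂ) : ℝ := jac (M (0, 1)) (M (0, Complex.I))

lemma energy_comp (M : X →L[ℝ] ℂ) : energy (M.comp toX) = baseE M + vertE M := by
  unfold energy baseE vertE
  simp [Fin.sum_univ_three, eV]
  rfl

/-- The set of points `[x : y : w]` of `ℂℙ²` with `(x, y) ≠ 0` and `F ((x, y), w) = 0`. -/
def curve (F : X → ℂ) : Set CP2 := {p | (toX p.rep).1 ≠ 0 ∧ F (toX p.rep) = 0}

/-- homogeneous functions of degree `d` on `{(x, y) ≠ 0}` -/
def IsHomog (d : ℕ) (F : X → ℂ) : Prop := ∀ c : ℂ, c ≠ 0 → ∀ p : X, p.1 ≠ 0 → F (c • p) = c ^ d * F p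

lemma toX_smul (c : ℂ) (v : V) : toX (c • v) = c • toX v := by
  simp

lemma toX_ne {v : V} (h : (toX v).1 ≠ 0) : v ≠ 0 := by
  rintro rfl
  apply h
  simp

lemma mem_cone_curve {d : ℕ} {F : X → ℂ} (hF : IsHomog d F) (v : V) :
    v ∈ cone (curve F) ↔ (toX v).1 ≠ 0 ∧ F (toX v) = 0 := by
  constructor
  · rintro ⟨h, h1, h2⟩
    obtain ⟨a, ha⟩ := Projectivization.exists_smul_eq_mk_rep ℂ v h
    have ha0 : (a : ℂ) ≠ 0 := a.ne_zero
    have hr : toX (Projectivization.mk ℂ v h).rep = (a : ℂ) • toX v := by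
      rw [← ha, ← toX_smul]; rfl
    rw [hr] at h1 h2
    have h1' : (toX v).1 ≠ 0 := by
      intro h3
      apply h1
      rw [Prod.smul_fst, h3, smul_zero]
    refine ⟨h1', ?_⟩
    rw [hF _ ha0 _ h1'] at h2
    exact (mul_eq_zero.1 h2).resolve_left (pow_ne_zero _ ha0)
  · rintro ⟨h1, h2⟩
    have hv := toX_ne h1
    refine ⟨hv, ?_⟩
    obtain ⟨a, ha⟩ := Projectivization.exists_smul_eq_mk_rep ℂ v hv
    have ha0 : (a : ℂ) ≠ 0 := a.ne_zero
    have hr : toX (Projectivization.mk ℂ v hv).rep = (a : ℂ) • toX v := by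
      rw [← ha, ← toX_smul]; rfl
    constructor
    · rw [hr, Prod.smul_fst]
      exact smul_ne_zero ha0 h1
    · rw [hr, hF _ ha0 _ h1, h2, mul_zero]

lemma isOpen_base : IsOpen {p : X | p.1 ≠ 0} := isOpen_ne.preimage continuous_fst

lemma isOpen_baseV : IsOpen {v : V | (toX v).1 ≠ 0} := isOpen_base.preimage toX.continuous

/-- the radial derivative vanishes at zeros -/
lemma fderiv_radial {d : ℕ} {F : X → ℂ} (hF : IsHomog d F) {p : X} (hp : p.1 ≠ 0) (h0 : F p = 0)
    (hd : DifferentiableAt ℝ F p) (c : ℂ) : fderiv ℝ F p (c • p) = 0 := by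
  have h1 : HasDerivAt (fun t : ℝ => p + t • (c • p)) (c • p) 0 := by
    have := ((hasDerivAt_id (0 : ℝ)).smul_const (c • p)).const_add p
    simpa using this
  have h2 : HasDerivAt (fun t : ℝ => F (p + t • (c • p))) (fderiv ℝ F p (c • p)) 0 := by
    have h3 : HasFDerivAt F (fderiv ℝ F p) (p + (0 : ℝ) • (c • p)) := by
      simpa using hd.hasFDerivAt
    exact h3.comp_hasDerivAt 0 h1
  have h4 : (fun t : ℝ => F (p + t • (c • p))) =ᶠ[𝓝 0] fun _ => (0 : ℂ) := by
    have h5 : ∀ᶠ t : ℝ in 𝓝 0, (1 + (t : ℂ) * c) ≠ 0 := by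
      have : ContinuousAt (fun t : ℝ => 1 + (t : ℂ) * c) 0 := by fun_prop
      apply this.eventually_ne
      simp
    filter_upwards [h5] with t ht
    have h6 : p + t • (c • p) = (1 + (t : ℂ) * c) • p := by
      rw [add_smul, one_smul, mul_smul]
      rfl
    rw [h6, hF _ ht _ hp, h0, mul_zero]
  have h7 := h2.congr_of_eventuallyEq h4.symm
  exact (h7.unique (hasDerivAt_const (0 : ℝ) (0 : ℂ)))

/-- the function on `ℂ³` -/
lemma fderiv_comp_toX {F : X → ℂ} {v : V} (hd : DifferentiableAt ℝ F (toX v)) :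
    fderiv ℝ (fun u : V => F (toX u)) v = (fderiv ℝ F (toX v)).comp toX := by
  have h1 := hd.hasFDerivAt.comp v toX.hasFDerivAt
  exact h1.fderiv

lemma toX_surjective : Function.Surjective toX := by
  intro p
  refine ⟨WithLp.toLp 2 ![p.1.1, p.1.2, p.2], ?_⟩
  simp

/-- A global equation is a local equation of a symplectic curve, if the energy is positive. -/
lemma isSymplecticEquation_of_energy {d : ℕ} {F : X → ℂ} (hF : IsHomog d F)
    (hsm : ContDiffOn ℝ ∞ F {p | p.1 ≠ 0})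
    (hsurj : ∀ p : X, p.1 ≠ 0 → F p = 0 → Function.Surjective (fderiv ℝ F p))
    (hE : ∀ p : X, p.1 ≠ 0 → F p = 0 → baseE (fderiv ℝ F p) + vertE (fderiv ℝ F p) ≠ 0) :
    IsSymplecticEquation (curve F) {v : V | (toX v).1 ≠ 0} (fun u => F (toX u)) := by
  have hdiff : ∀ p : X, p.1 ≠ 0 → DifferentiableAt ℝ F p := fun p hp =>
    (hsm.contDiffAt (isOpen_base.mem_nhds hp)).differentiableAt (by simp)
  refine ⟨isOpen_baseV, ?_, ?_, ?_, ?_, ?_⟩
  · intro h
    exact h (by simp)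
  · exact hsm.comp toX.contDiff.contDiffOn (fun v hv => hv)
  · intro u hu
    rw [mem_cone_curve hF]
    exact ⟨fun h => h.2, fun h => ⟨hu, h⟩⟩
  · intro u hu hc
    rw [mem_cone_curve hF] at hc
    rw [fderiv_comp_toX (hdiff _ hu)]
    exact (hsurj _ hu hc.2).comp toX_surjective
  · intro u hu hc
    rw [mem_cone_curve hF] at hc
    have h0 : u ≠ 0 := toX_ne hu
    have h1 := nondeg_of_energy u h0 (fderiv ℝ (fun u : V => F (toX u)) u) ?_ ?_
    · exact h1
    · intro c
      rw [fderiv_comp_toX (hdiff _ hu)]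
      change fderiv ℝ F (toX u) (toX (c • u)) = 0
      rw [toX_smul]
      exact fderiv_radial hF hu hc.2 (hdiff _ hu) c
    · rw [fderiv_comp_toX (hdiff _ hu), energy_comp]
      exact hE _ hu hc.2

/-- the squared norm of the first two coordinates -/
def nb (p : X) : ℝ := Complex.normSq p.1.1 + Complex.normSq p.1.2

lemma nb_nonneg (p : X) : 0 ≤ nb p := add_nonneg (Complex.normSq_nonneg _) (Complex.normSq_nonneg _)

lemma nb_eq_zero {p : X} : nb p = 0 ↔ p.1 = 0 := by
  constructor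
  · intro h
    have h1 := Complex.normSq_nonneg p.1.1
    have h2 := Complex.normSq_nonneg p.1.2
    unfold nb at h
    have h3 : Complex.normSq p.1.1 = 0 := by linarith
    have h4 : Complex.normSq p.1.2 = 0 := by linarith
    exact Prod.ext (Complex.normSq_eq_zero.1 h3) (Complex.normSq_eq_zero.1 h4)
  · intro h
    unfold nb
    rw [h]
    simp

lemma nb_pos {p : X} (h : p.1 ≠ 0) : 0 < nb p :=
  lt_of_le_of_ne (nb_nonneg p) (fun h' => h (nb_eq_zero.1 h'.symm))

lemma continuous_nb : Continuous nb := by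
  unfold nb
  exact (Complex.continuous_normSq.comp (by fun_prop)).add
    (Complex.continuous_normSq.comp (by fun_prop))

/-- The family lemma. -/
lemma joined_of_family {d : ℕ} (J : Set ℝ) (hJ : IsOpen J) (hIJ : Icc (0 : ℝ) 1 ⊆ J)
    (G : ℝ → X → ℂ) (hhom : ∀ t ∈ J, IsHomog d (G t))
    (hsm : ContDiffOn ℝ ∞ (fun q : ℝ × X => G q.1 q.2) {q | q.1 ∈ J ∧ q.2.1 ≠ 0})
    (hsurj : ∀ t ∈ Icc (0 : ℝ) 1, ∀ p : X, p.1 ≠ 0 → G t p = 0 →
      Function.Surjective (fderiv ℝ (G t) p))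
    (hE : ∀ t ∈ Icc (0 : ℝ) 1, ∀ p : X, p.1 ≠ 0 → G t p = 0 →
      baseE (fderiv ℝ (G t) p) + vertE (fderiv ℝ (G t) p) ≠ 0)
    (hne : ∀ t ∈ Icc (0 : ℝ) 1, ∃ p : X, p.1 ≠ 0 ∧ G t p = 0)
    (R : ℝ) (hR : ∀ t ∈ Icc (0 : ℝ) 1, ∀ p : X, p.1 ≠ 0 → G t p = 0 →
      Complex.normSq p.2 ≤ R * nb p) :
    SmoothlyJoined (curve (G 0)) (curve (G 1)) := by
  have hopen : IsOpen {q : ℝ × X | q.1 ∈ J ∧ q.2.1 ≠ 0} :=
    (hJ.preimage continuous_fst).inter (isOpen_base.preimage continuous_snd)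
  have hsm' : ∀ t ∈ J, ContDiffOn ℝ ∞ (G t) {p | p.1 ≠ 0} := by
    intro t ht
    exact hsm.comp (f := fun p : X => (t, p)) (by fun_prop) (fun p hp => ⟨ht, hp⟩)
  refine ⟨fun t => curve (G t), ⟨?_, ?_, ?_⟩, rfl, rfl⟩
  · intro t ht
    obtain ⟨p, hp, hp0⟩ := hne t ht
    obtain ⟨v, rfl⟩ := toX_surjective p
    have : v ∈ cone (curve (G t)) := (mem_cone_curve (hhom t (hIJ ht)) v).2 ⟨hp, hp0⟩
    obtain ⟨h, hh⟩ := this
    exact ⟨_, hh⟩
  · have hset : {p : ℝ × V | p.1 ∈ Icc (0 : ℝ) 1 ∧ p.2 ∈ cone (curve (G p.1)) ∪ {0}} =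
        {p : ℝ × V | p.1 ∈ Icc (0 : ℝ) 1} ∩ {p : ℝ × V | Complex.normSq (toX p.2).2 ≤
          R * nb (toX p.2)} ∩
        {p : ℝ × V | p.1 ∈ J ∧ (toX p.2).1 ≠ 0 ∧ G p.1 (toX p.2) ≠ 0}ᶜ := by
      ext ⟨t, v⟩
      simp only [mem_ofPred_eq, mem_inter_iff, mem_union, mem_singleton_iff, mem_compl_iff,
        not_and, not_not]
      constructor
      · rintro ⟨ht, h⟩
        rcases h with h | h
        · rw [mem_cone_curve (hhom t (hIJ ht))] at h
          exact ⟨⟨ht, hR t ht _ h.1 h.2⟩, fun _ _ => h.2⟩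
        · subst h
          refine ⟨⟨ht, ?_⟩, fun _ h1 => absurd (by simp) h1⟩
          simp [nb]
      · rintro ⟨⟨ht, h1⟩, h2⟩
        refine ⟨ht, ?_⟩
        by_cases h3 : (toX v).1 = 0
        · right
          rw [nb_eq_zero.2 h3, mul_zero] at h1
          have h4 : (toX v).2 = 0 := Complex.normSq_eq_zero.1
            (le_antisymm h1 (Complex.normSq_nonneg _))
          simp only [toX_apply, Prod.mk_eq_zero] at h3 h4
          ext j
          fin_cases j
          · exact h3.1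
          · exact h3.2
          · exact h4
        · left
          rw [mem_cone_curve (hhom t (hIJ ht))]
          exact ⟨h3, h2 (hIJ ht) h3⟩
    rw [hset]
    refine (((isClosed_Icc.preimage continuous_fst)).inter ?_).inter ?_
    · apply isClosed_le
      · exact Complex.continuous_normSq.comp (continuous_snd.comp
          (toX.continuous.comp continuous_snd))
      · exact continuous_const.mul (continuous_nb.comp (toX.continuous.comp continuous_snd))
    · rw [isClosed_compl_iff]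
      have h1 : IsOpen ({q : ℝ × X | q.1 ∈ J ∧ q.2.1 ≠ 0} ∩
          (fun q : ℝ × X => G q.1 q.2) ⁻¹' {0}ᶜ) :=
        hsm.continuousOn.isOpen_inter_preimage hopen isOpen_compl_singleton
      have h2 : Continuous (fun p : ℝ × V => (p.1, toX p.2)) :=
        continuous_fst.prodMk (toX.continuous.comp continuous_snd)
      convert h1.preimage h2 using 1
      ext ⟨t, v⟩
      simp [and_assoc]
  · intro t₀ ht₀ v hv
    refine ⟨J, {v : V | (toX v).1 ≠ 0}, fun q => G q.1 (toX q.2), hJ, hIJ ht₀, ?_, ?_, ?_⟩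
    · exact ((mem_cone_curve (hhom t₀ (hIJ ht₀)) v).1 hv).1
    · exact hsm.comp (f := fun q : ℝ × V => (q.1, toX q.2))
        (contDiff_fst.prodMk (toX.contDiff.comp contDiff_snd)).contDiffOn
        (fun q hq => ⟨hq.1, hq.2⟩)
    · intro t ht
      exact isSymplecticEquation_of_energy (hhom t ht.1) (hsm' t ht.1) (hsurj t ht.2) (hE t ht.2)

end Pool.Agent.Helper905_SI
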