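import Pool.Agent.Helper905_SI.Defs

/-!
# Linear algebra of the Fubini–Study form on a hypersurface
-/

set_option autoImplicit false

open scoped ContDiff ComplexConjugate
open Set

namespace Pool.Agent.Helper905_SI

/-- The signed area of the parallelogram spanned by two complex numbers. -/
def jac (a b : ℂ) : ℝ := (conj a * b).im

/-- The standard basis of `ℂ³`. -/
noncomputable def eV (i : Fin 3) : V := EuclideanSpace.single i (1 : ℂ)

/-- `|∂F|² - |∂̄F|²` for `L = dF`. -/
noncomputable def energy (L : V →L[ℝ] ℂ) : ℝ :=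
  ∑ i : Fin 3, jac (L (eV i)) (L (Complex.I • eV i))

/-- the Hamiltonian vector of a real linear form -/
noncomputable def ham (l : V →L[ℝ] ℝ) : V :=
  WithLp.toLp 2 (fun i => ((l (Complex.I • eV i) : ℝ) : ℂ) - Complex.I * ((l (eV i) : ℝ) : ℂ))

lemma vec_eq (b : V) : b = ∑ i : Fin 3, ((b i).re • eV i + (b i).im • (Complex.I • eV i)) := by
  ext j
  fin_cases j <;>
  simp [Fin.sum_univ_three, eV]

lemma inner_ham (l : V →L[ℝ] ℝ) (b : V) : (inner ℂ (ham l) b).im = l b := by
  conv_rhs => rw [vec_eq b]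
  simp only [map_sum, map_add, map_smul, smul_eq_mul]
  rw [PiLp.inner_apply]
  rw [Complex.im_sum]
  apply Finset.sum_congr rfl
  intro i _
  simp [ham]

/-- the real and imaginary parts of a complex valued form -/
noncomputable def reL (L : V →L[ℝ] ℂ) : V →L[ℝ] ℝ := Complex.reCLM.comp L
noncomputable def imL (L : V →L[ℝ] ℂ) : V →L[ℝ] ℝ := Complex.imCLM.comp L

@[simp] lemma reL_apply (L : V →L[ℝ] ℂ) (b : V) : reL L b = (L b).re := rfl
@[simp] lemma imL_apply (L : V →L[ℝ] ℂ) (b : V) : imL L b = (L b).im := rfl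

lemma energy_eq (L : V →L[ℝ] ℂ) : (inner ℂ (ham (reL L)) (ham (imL L))).im = energy L := by
  rw [PiLp.inner_apply, Complex.im_sum, energy]
  apply Finset.sum_congr rfl
  intro i _
  simp [ham, jac]
  ring

lemma im_inner_swap (a b : V) : (inner ℂ a b).im = -(inner ℂ b a).im := by
  rw [← inner_conj_symm a b, Complex.conj_im]

/-- `L` of the Hamiltonian vector of `Re L`. -/
lemma L_ham_re (L : V →L[ℝ] ℂ) : L (ham (reL L)) = -Complex.I * (energy L : ℂ) := by
  apply Complex.ext
  · have h1 : (inner ℂ (ham (reL L)) (ham (reL L))).im = (L (ham (reL L))).re := inner_ham _ _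
    rw [← h1]
    rw [← RCLike.im_eq_complex_im, inner_self_im]
    simp
  · have h1 : (inner ℂ (ham (imL L)) (ham (reL L))).im = (L (ham (reL L))).im := inner_ham _ _
    rw [← h1, im_inner_swap, energy_eq]
    simp

lemma L_ham_im (L : V →L[ℝ] ℂ) : L (ham (imL L)) = (energy L : ℂ) := by
  apply Complex.ext
  · have h1 : (inner ℂ (ham (reL L)) (ham (imL L))).im = (L (ham (imL L))).re := inner_ham _ _
    rw [← h1, energy_eq]
    simp
  · have h1 : (inner ℂ (ham (imL L)) (ham (imL L))).im = (L (ham (imL L))).im := inner_ham _ _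
    rw [← h1]
    rw [← RCLike.im_eq_complex_im, inner_self_im]
    simp

/-- Hamiltonian vectors of forms which vanish on a complex line are orthogonal to it. -/
lemma ham_orth (l : V →L[ℝ] ℝ) (v : V) (h : ∀ c : ℂ, l (c • v) = 0) :
    inner ℂ (ham l) v = 0 := by
  have h1 : ∀ c : ℂ, (c * inner ℂ (ham l) v).im = 0 := by
    intro c
    rw [← inner_smul_right, inner_ham, h c]
  have h2 := h1 1
  have h3 := h1 Complex.I
  apply Complex.ext
  · simpa using h3
  · simpa using h2

lemma fs_eq (v a b : V) (ha : inner ℂ a v = 0) :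
    fubiniStudy v a b = (inner ℂ a b).im * (‖v‖ ^ 2 / ‖v‖ ^ 4) := by
  unfold fubiniStudy
  rw [ha, zero_mul, sub_zero, Complex.im_ofReal_mul]
  ring

lemma fs_sub (v a b : V) (c : ℂ) :
    fubiniStudy v (a + c • v) b = fubiniStudy v a b := by
  unfold fubiniStudy
  congr 2
  rw [inner_add_left, inner_add_left, inner_smul_left, inner_smul_left, inner_self_eq_norm_sq_to_K]
  push_cast
  simp only [Complex.coe_algebraMap]
  ring

/-- nondegeneracy of the Fubini–Study form on the kernel of `L` -/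
def Nondeg (v : V) (L : V →L[ℝ] ℂ) : Prop :=
  ∀ a : V, L a = 0 → (∀ b : V, L b = 0 → fubiniStudy v a b = 0) → ∃ c : ℂ, a = c • v

lemma nondeg_of_energy (v : V) (hv : v ≠ 0) (L : V →L[ℝ] ℂ) (hL : ∀ c : ℂ, L (c • v) = 0)
    (hE : energy L ≠ 0) : Nondeg v L := by
  intro a ha hab
  have hnv : (‖v‖ : ℝ) ≠ 0 := norm_ne_zero_iff.2 hv
  set c : ℂ := inner ℂ v a / ((‖v‖ : ℂ) ^ 2) with hc
  set a' : V := a - c • v with ha'
  have hnv' : ((‖v‖ : ℂ) ^ 2) ≠ 0 := by
    have : (‖v‖ : ℂ) ≠ 0 := by exact_mod_cast hnv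
    exact pow_ne_zero 2 this
  have hva' : inner ℂ v a' = 0 := by
    rw [ha', inner_sub_right, inner_smul_right, inner_self_eq_norm_sq_to_K, hc]
    have : ((‖v‖ : ℂ) ^ 2) = ((algebraMap ℝ ℂ) ‖v‖) ^ 2 := rfl
    rw [← this, div_mul_cancel₀ _ hnv', sub_self]
  have ha'v : inner ℂ a' v = 0 := by
    rw [← inner_conj_symm, hva', map_zero]
  have hLa' : L a' = 0 := by rw [ha', map_sub, ha, hL c, sub_self]
  have hfs : ∀ b, L b = 0 → (inner ℂ a' b).im = 0 := by
    intro b hb
    have h1 : fubiniStudy v a' b = 0 := by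
      rw [← hab b hb, ← fs_sub v a' b c, ha', sub_add_cancel]
    rw [fs_eq v a' b ha'v] at h1
    have h2 : ‖v‖ ^ 2 / ‖v‖ ^ 4 ≠ 0 := div_ne_zero (pow_ne_zero _ hnv) (pow_ne_zero _ hnv)
    exact (mul_eq_zero.1 h1).resolve_right h2
  have key : ∀ b, (inner ℂ a' b).im = 0 := by
    intro b
    set E := energy L with hEdef
    set β : ℝ := (L b).re / E
    set α : ℝ := -(L b).im / E
    have h1 : L (b - α • ham (reL L) - β • ham (imL L)) = 0 := by
      rw [map_sub, map_sub, map_smul, map_smul, L_ham_re, L_ham_im, ← hEdef]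
      apply Complex.ext
      · simp [β]
        field_simp
        ring
      · simp [α]
        field_simp
        ring
    have h2 := hfs _ h1
    rw [inner_sub_right, inner_sub_right] at h2
    have h3 : (inner ℂ a' (α • ham (reL L)) : ℂ) = (α : ℂ) * inner ℂ a' (ham (reL L)) := by
      rw [← inner_smul_right]; rfl
    have h4 : (inner ℂ a' (β • ham (imL L)) : ℂ) = (β : ℂ) * inner ℂ a' (ham (imL L)) := by
      rw [← inner_smul_right]; rfl
    rw [h3, h4, Complex.sub_im, Complex.sub_im, Complex.im_ofReal_mul, Complex.im_ofReal_mul] at h2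
    have h5 : (inner ℂ a' (ham (reL L))).im = 0 := by
      rw [im_inner_swap, inner_ham, reL_apply, hLa']; simp
    have h6 : (inner ℂ a' (ham (imL L))).im = 0 := by
      rw [im_inner_swap, inner_ham, imL_apply, hLa']; simp
    rw [h5, h6] at h2
    linarith
  have h0 : a' = 0 := by
    have h1 := key (Complex.I • a')
    rw [inner_smul_right, inner_self_eq_norm_sq_to_K] at h1
    have h2 : ‖a'‖ ^ 2 = 0 := by
      have : (Complex.I * ((algebraMap ℝ ℂ) ‖a'‖) ^ 2).im = ‖a'‖ ^ 2 := by
        rw [Complex.coe_algebraMap, ← Complex.ofReal_pow, Complex.im_mul_ofReal]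
        simp
      rw [← this]; exact h1
    exact norm_eq_zero.1 (by simpa using h2)
  exact ⟨c, by rw [ha', sub_eq_zero] at h0; exact h0⟩

lemma energy_of_nondeg (v : V) (hv : v ≠ 0) (L : V →L[ℝ] ℂ) (hL : ∀ c : ℂ, L (c • v) = 0)
    (hs : Function.Surjective L) (hN : Nondeg v L) : energy L ≠ 0 := by
  intro hE
  have horth : inner ℂ (ham (reL L)) v = 0 := by
    apply ham_orth
    intro c
    rw [reL_apply, hL c]; rfl
  have h1 : L (ham (reL L)) = 0 := by rw [L_ham_re, hE]; simp
  obtain ⟨c, hc⟩ := hN _ h1 (by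
    intro b hb
    rw [fs_eq v _ b horth, inner_ham, reL_apply, hb]
    simp)
  have h2 : c = 0 ∨ v = 0 := by
    rw [hc, inner_smul_left, inner_self_eq_norm_sq_to_K] at horth
    have hnv' : ((algebraMap ℝ ℂ) ‖v‖) ^ 2 ≠ 0 := by
      have : ((algebraMap ℝ ℂ) ‖v‖) ≠ 0 := by
        simpa using hv
      exact pow_ne_zero 2 this
    rcases mul_eq_zero.1 horth with h | h
    · left; simpa using h
    · exact absurd h hnv'
  have h3 : ham (reL L) = 0 := by
    rw [hc]; rcases h2 with h | h <;> simp [h]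
  obtain ⟨b, hb⟩ := hs 1
  have h4 := inner_ham (reL L) b
  rw [h3, reL_apply, hb] at h4
  simp at h4

end Pool.Agent.Helper905_SI
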