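import Pool.Agent.Helper905_SI.Family

/-!
# Complex curves given by polynomials
-/

set_option autoImplicit false

open scoped ContDiff ComplexConjugate Topology
open Set Filter

namespace Pool.Agent.Helper905_SI

/-- the derivative of a polynomial function on `ℂ³` -/
lemma hasFDerivAt_eval (P : MvPolynomial (Fin 3) ℂ) (v : V) :
    ∃ L : V →L[ℂ] ℂ, HasFDerivAt (𝕜 := ℂ) (fun v : V => MvPolynomial.eval (fun i => v i) P) L v ∧
      ∀ a : V, L a = ∑ i : Fin 3, (MvPolynomial.eval (fun i => v i) (MvPolynomial.pderiv i P)) *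
        a i := by
  induction P using MvPolynomial.induction_on with
  | C a =>
    refine ⟨0, ?_, ?_⟩
    · simp only [MvPolynomial.eval_C]
      exact hasFDerivAt_const a v
    · intro u
      simp
  | add p q hp hq =>
    obtain ⟨L, h1, h2⟩ := hp
    obtain ⟨M, h3, h4⟩ := hq
    refine ⟨L + M, ?_, ?_⟩
    · simp only [map_add]
      exact h1.add h3
    · intro u
      rw [add_apply, h2, h4, ← Finset.sum_add_distrib]
      apply Finset.sum_congr rfl
      intro i _
      rw [map_add, map_add]
      ring
  | mul_X p n hp =>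
    obtain ⟨L, h1, h2⟩ := hp
    have hX : HasFDerivAt (𝕜 := ℂ) (fun v : V => v n)
        (EuclideanSpace.proj n : V →L[ℂ] ℂ) v :=
      (EuclideanSpace.proj n : V →L[ℂ] ℂ).hasFDerivAt
    obtain ⟨M, h3, h4⟩ : ∃ M : V →L[ℂ] ℂ, HasFDerivAt (𝕜 := ℂ)
        (fun v : V => MvPolynomial.eval (fun i => v i) p * v n) M v ∧
        ∀ u, M u = MvPolynomial.eval (fun i => v i) p * u n + v n * L u :=
      ⟨_, h1.mul hX, fun u => rfl⟩
    refine ⟨M, ?_, ?_⟩
    · simp only [map_mul, MvPolynomial.eval_X]
      exact h3
    · intro u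
      rw [h4]
      have e1 : (MvPolynomial.eval (fun i => v i) p * u n + v n * L u) =
          ∑ i : Fin 3, (MvPolynomial.eval (fun i => v i)
            (MvPolynomial.pderiv i (p * MvPolynomial.X n))) * u i := by
        rw [h2, Finset.mul_sum]
        have e2 : MvPolynomial.eval (fun i => v i) p * u n =
            ∑ i : Fin 3, if i = n then MvPolynomial.eval (fun i => v i) p * u i else 0 := by
          rw [Finset.sum_ite_eq' Finset.univ n]
          simp
        rw [e2, ← Finset.sum_add_distrib]
        apply Finset.sum_congr rfl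
        intro i _
        rw [MvPolynomial.pderiv_mul, map_add, map_mul, map_mul, MvPolynomial.eval_X,
          MvPolynomial.pderiv_X]
        by_cases h : i = n
        · subst h
          simp
          ring
        · simp [h, Ne.symm h]
          ring
      exact e1

/-- A curve given by an equation proportional to a homogeneous polynomial is complex. -/
theorem isComplexCurve_of_eval {d : ℕ} {F : X → ℂ} (hF : IsHomog d F)
    (hsm : ContDiffOn ℝ ∞ F {p | p.1 ≠ 0})
    (hsurj : ∀ p : X, p.1 ≠ 0 → F p = 0 → Function.Surjective (fderiv ℝ F p))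
    (P : MvPolynomial (Fin 3) ℂ) (hP : P.IsHomogeneous d) (k : ℂ) (hk : k ≠ 0)
    (hPF : ∀ v : V, (toX v).1 ≠ 0 → MvPolynomial.eval (fun i => v i) P = k * F (toX v))
    (hP0 : ∀ v : V, (toX v).1 = 0 → MvPolynomial.eval (fun i => v i) P = 0 → v = 0) :
    IsComplexCurve d (curve F) := by
  refine ⟨P, hP, ?_, ?_⟩
  · intro v hv h0
    have hb : (toX v).1 ≠ 0 := fun h => hv (hP0 v h h0)
    by_contra hcon
    push Not at hcon
    obtain ⟨L, h0', hL⟩ := hasFDerivAt_eval P v
    have h2 : L = 0 := by
      ext a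
      rw [hL]
      simp [hcon]
    rw [h2] at h0'
    have h1 := h0'.restrictScalars ℝ
    have hFz : F (toX v) = 0 := by
      rw [hPF v hb] at h0
      exact (mul_eq_zero.1 h0).resolve_left hk
    have hd : DifferentiableAt ℝ F (toX v) :=
      (hsm.contDiffAt (isOpen_base.mem_nhds hb)).differentiableAt (by simp)
    have h3 : HasFDerivAt (fun u : V => k * F (toX u))
        (k • (fderiv ℝ F (toX v)).comp toX) v :=
      (hd.hasFDerivAt.comp v toX.hasFDerivAt).const_mul k
    have h4 : HasFDerivAt (fun u : V => MvPolynomial.eval (fun i => u i) P)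
        (k • (fderiv ℝ F (toX v)).comp toX) v := by
      refine h3.congr_of_eventuallyEq ?_
      filter_upwards [isOpen_baseV.mem_nhds hb] with u hu
      exact hPF u hu
    have h5 := h4.unique h1
    obtain ⟨q, hq⟩ := hsurj (toX v) hb hFz 1
    obtain ⟨u, rfl⟩ := toX_surjective q
    have h6 := congrArg (fun L : V →L[ℝ] ℂ => L u) h5
    have h7 : k * (fderiv ℝ F (toX v)) (toX u) = 0 := h6
    rw [hq, mul_one] at h7
    exact hk h7
  · ext v
    rw [mem_cone_curve hF]
    constructor
    · rintro ⟨h1, h2⟩
      refine ⟨toX_ne h1, ?_⟩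
      rw [hPF v h1, h2, mul_zero]
    · rintro ⟨h1, h2⟩
      have hb : (toX v).1 ≠ 0 := fun h => h1 (hP0 v h h2)
      refine ⟨hb, ?_⟩
      rw [hPF v hb] at h2
      exact (mul_eq_zero.1 h2).resolve_left hk

end Pool.Agent.Helper905_SI
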