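import Pool.Agent.Helper905_SI.SecPath

/-!
# The path from a section with positive zeros to a product of linear forms
-/

set_option autoImplicit false

open scoped ContDiff ComplexConjugate Topology
open Set Filter

namespace Pool.Agent.Helper905_SI

/-- the shear `(x, y) ↦ (x + c y, y)` -/
noncomputable def shear (c : ℂ) : ℂ × ℂ →L[ℝ] ℂ × ℂ :=
  (((ContinuousLinearMap.fst ℂ ℂ ℂ) + c • (ContinuousLinearMap.snd ℂ ℂ ℂ)).prod
    (ContinuousLinearMap.snd ℂ ℂ ℂ)).restrictScalars ℝ

@[simp] lemma shear_apply (c : ℂ) (u : ℂ × ℂ) : shear c u = (u.1 + c * u.2, u.2) := rfl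

lemma shear_smul (c z : ℂ) (u : ℂ × ℂ) : shear c (z • u) = z • shear c u := by
  ext
  · simp
    ring
  · simp

lemma shear_ne {c : ℂ} {u : ℂ × ℂ} (hu : u ≠ 0) : shear c u ≠ 0 := by
  intro h
  rw [shear_apply, Prod.mk_eq_zero] at h
  apply hu
  ext
  · have h1 := h.1
    rw [h.2, mul_zero, add_zero] at h1
    exact h1
  · exact h.2

lemma shear_neg (c : ℂ) (u : ℂ × ℂ) : shear c (shear (-c) u) = u := by
  ext
  · simp
  · simp

lemma secE_comp_shear {M : ℂ × ℂ →L[ℝ] ℂ} {v : ℂ × ℂ} (hv : v ≠ 0) (hM : ∀ c : ℂ, M (c • v) = 0)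
    (hpos : 0 < secE M) (x₀ : ℂ) : 0 < secE (M.comp (shear x₀)) := by
  have e1 : (M.comp (shear x₀)) (1, 0) = M (1, 0) := by simp
  have e2 : (M.comp (shear x₀)) (Complex.I, 0) = M (Complex.I, 0) := by simp
  have e3 : (M.comp (shear x₀)) (0, 1) = M (x₀, 1) := by simp
  have e4 : (M.comp (shear x₀)) (0, Complex.I) = M (Complex.I * x₀, Complex.I) := by
    simp [mul_comm]
  have hgoal : secE (M.comp (shear x₀)) = jac (M (1, 0)) (M (Complex.I, 0)) +
      jac (M (x₀, 1)) (M (Complex.I * x₀, Complex.I)) := by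
    unfold secE
    rw [e1, e2, e3, e4]
  rw [hgoal]
  unfold secE at hpos
  by_cases h1 : v.1 = 0
  · have h2 : v.2 ≠ 0 := fun h2 => hv (Prod.ext h1 h2)
    have h3 : ∀ c : ℂ, M (0, c) = 0 := by
      intro c
      have := hM (c / v.2)
      have h4 : (c / v.2) • v = (0, c) := by
        ext
        · simp [h1]
        · simp only [Prod.smul_snd, smul_eq_mul]
          field_simp
      rwa [h4] at this
    set N : ℂ →L[ℝ] ℂ := M.comp (ContinuousLinearMap.inl ℝ ℂ ℂ) with hN
    have h4 : ∀ a b : ℂ, M (a, b) = N a := by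
      intro a b
      have : ((a, b) : ℂ × ℂ) = (a, 0) + (0, b) := by simp
      rw [this, map_add, h3, add_zero]
      rfl
    rw [h4, h4, h4, h4, jac_rot] 
    rw [h4, h4, h4, h4] at hpos
    have h5 : jac (N 0) (N 0) = 0 := by rw [map_zero, jac_eq]; simp
    rw [h5, add_zero] at hpos
    have h6 := Complex.normSq_nonneg x₀
    nlinarith
  · set q : ℂ := v.2 / v.1 with hq
    set N : ℂ →L[ℝ] ℂ := M.comp (ContinuousLinearMap.inr ℝ ℂ ℂ) with hN
    have h4 : ∀ a b : ℂ, M (a, b) = N (b - a * q) := by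
      intro a b
      have h5 := hM (a / v.1)
      have h6 : (a / v.1) • v = (a, b) - (0, b - a * q) := by
        ext
        · simp
          field_simp
        · simp [hq]
          field_simp
      rw [h6, map_sub] at h5
      exact sub_eq_zero.1 h5
    rw [h4, h4, h4, h4] at hpos ⊢
    have h7 : jac (N (0 - 1 * q)) (N (0 - Complex.I * q)) =
        Complex.normSq q * jac (N 1) (N Complex.I) := by
      have : (0 : ℂ) - Complex.I * q = Complex.I * (0 - 1 * q) := by ring
      rw [this, jac_rot]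
      congr 1
      simp
    have h8 : jac (N (1 - 0 * q)) (N (Complex.I - 0 * q)) = jac (N 1) (N Complex.I) := by
      simp
    have h9 : jac (N (1 - x₀ * q)) (N (Complex.I - Complex.I * x₀ * q)) =
        Complex.normSq (1 - x₀ * q) * jac (N 1) (N Complex.I) := by
      have : Complex.I - Complex.I * x₀ * q = Complex.I * (1 - x₀ * q) := by ring
      rw [this, jac_rot]
    rw [h7, h8] at hpos
    rw [h7, h9]
    have h10 : 0 < (Complex.normSq q + 1) * jac (N 1) (N Complex.I) := by linarith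
    have h11 : 0 < jac (N 1) (N Complex.I) :=
      (mul_pos_iff_of_pos_left (by linarith [Complex.normSq_nonneg q])).1 h10
    have h12 : 0 < Complex.normSq q + Complex.normSq (1 - x₀ * q) := by
      by_cases h13 : q = 0
      · rw [h13]; simp
      · have := Complex.normSq_pos.2 h13
        linarith [Complex.normSq_nonneg (1 - x₀ * q)]
    rw [← add_mul]
    exact mul_pos h12 h11

lemma IsSection.comp_shear {d : ℕ} {s : ℂ × ℂ → ℂ} (hs : IsSection d s) (c : ℂ) :
    IsSection d (fun u => s (shear c u)) := by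
  refine ⟨?_, ?_⟩
  · intro z hz u hu
    rw [shear_smul]
    exact hs.hom z hz _ (shear_ne hu)
  · exact hs.smooth.comp (shear c).contDiff.contDiffOn (fun u hu => shear_ne hu)

lemma fderiv_comp_shear {d : ℕ} {s : ℂ × ℂ → ℂ} (hs : IsSection d s) (c : ℂ) {u : ℂ × ℂ}
    (hu : u ≠ 0) : fderiv ℝ (fun u => s (shear c u)) u =
      (fderiv ℝ s (shear c u)).comp (shear c) :=
  ((hs.diffAt (shear_ne hu)).hasFDerivAt.comp u (shear c).hasFDerivAt).fderiv

/-- **Sections with positive zeros.**  A smooth section of `𝒪(d)` all of whose zeros are positive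
is joined by a path of such sections to a product of linear forms. -/
theorem exists_path {d : ℕ} {s : ℂ × ℂ → ℂ} (hs : IsSection d s)
    (hpos : ∀ u : ℂ × ℂ, u ≠ 0 → s u = 0 → 0 < secE (fderiv ℝ s u)) :
    ∃ S : ℝ → ℂ × ℂ → ℂ, SectionFamily d S ∧ (∀ u : ℂ × ℂ, u ≠ 0 → S 0 u = s u) ∧
      ∃ (Z : Finset ℂ) (c : ℂ), Z.card = d ∧
        ∀ u : ℂ × ℂ, u ≠ 0 → S 1 u = ∏ a ∈ Z, (u.2 - a * (u.1 - c * u.2)) := by
  -- a point where `s` does not vanish
  have hx₀ : ∃ x₀ : ℂ, s (x₀, 1) ≠ 0 := by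
    by_contra hcon
    push Not at hcon
    have h1 := hpos (0, 1) (by simp) (hcon 0)
    have h2 : ∀ v : ℂ, fderiv ℝ s (0, 1) (v, 0) = 0 := by
      intro v
      have e1 : HasDerivAt (fun t : ℝ => (((0, 1) : ℂ × ℂ)) + t • (v, (0 : ℂ))) (v, 0) 0 := by
        have := ((hasDerivAt_id (0 : ℝ)).smul_const (v, (0 : ℂ))).const_add ((0, 1) : ℂ × ℂ)
        simpa using this
      have e2 : HasDerivAt (fun t : ℝ => s ((0, 1) + t • (v, (0 : ℂ))))
          (fderiv ℝ s (0, 1) (v, 0)) 0 := by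
        have h3 : HasFDerivAt s (fderiv ℝ s (0, 1)) ((0, 1) + (0 : ℝ) • (v, (0 : ℂ))) := by
          simpa using (hs.diffAt (u := (0, 1)) (by simp)).hasFDerivAt
        exact h3.comp_hasDerivAt 0 e1
      have e3 : (fun t : ℝ => s ((0, 1) + t • (v, (0 : ℂ)))) = fun _ => 0 := by
        funext t
        have : ((0, 1) : ℂ × ℂ) + t • (v, (0 : ℂ)) = (t • v, 1) := by
          ext <;> simp
        rw [this]
        exact hcon _
      rw [e3] at e2
      exact e2.unique (hasDerivAt_const (0 : ℝ) (0 : ℂ))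
    have h3 : ∀ v : ℂ, fderiv ℝ s (0, 1) (0, v) = 0 := by
      intro v
      have := hs.radial (u := (0, 1)) (by simp) (hcon 0) v
      simpa using this
    unfold secE at h1
    rw [h2, h2, h3, h3, jac_eq] at h1
    simp at h1
  obtain ⟨x₀, hx₀⟩ := hx₀
  have hs' := hs.comp_shear x₀
  have hpos' : ∀ u : ℂ × ℂ, u ≠ 0 → s (shear x₀ u) = 0 →
      0 < secE (fderiv ℝ (fun u => s (shear x₀ u)) u) := by
    intro u hu h0
    rw [fderiv_comp_shear hs x₀ hu]
    exact secE_comp_shear (shear_ne hu) (hs.radial (shear_ne hu) h0)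
      (hpos _ (shear_ne hu) h0) x₀
  obtain ⟨S, hS, hS0, Z, hZ, hS1⟩ := exists_path_aux hs' hpos' (by simpa using hx₀)
  have hSsec : ∀ t, IsSection d (S t) := fun t =>
    ⟨hS.hom t, hS.smooth.comp (f := fun u : ℂ × ℂ => (t, u)) (by fun_prop) (fun _ hu => hu)⟩
  refine ⟨fun t u => S t (shear (-x₀) u), ⟨?_, ?_, ?_⟩, ?_, Z, x₀, hZ, ?_⟩
  · intro t
    exact ((hSsec t).comp_shear (-x₀)).hom
  · refine hS.smooth.comp (f := fun q : ℝ × (ℂ × ℂ) => (q.1, shear (-x₀) q.2)) ?_ ?_
    · exact (contDiff_fst.prodMk ((shear (-x₀)).contDiff.comp contDiff_snd)).contDiffOn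
    · intro q hq
      exact shear_ne hq
  · intro t ht u hu h0
    rw [fderiv_comp_shear (hSsec t) (-x₀) hu]
    exact secE_comp_shear (shear_ne hu) ((hSsec t).radial (shear_ne hu) h0)
      (hS.pos t ht _ (shear_ne hu) h0) (-x₀)
  · intro u hu
    simp only
    rw [hS0 _ (shear_ne hu), shear_neg]
  · intro u hu
    simp only
    rw [hS1 _ (shear_ne hu)]
    apply Finset.prod_congr rfl
    intro a _
    simp only [shear_apply]
    ring

end Pool.Agent.Helper905_SI
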