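import Pool.Agent.Helper905_SI.Stages
import Pool.Agent.Helper905_SI.Shear
import Pool.Agent.Helper905_SI.Poly

/-!
# Cyclic symplectic curves are isotopic to complex curves
-/

set_option autoImplicit false

open scoped ContDiff ComplexConjugate Topology
open Set Filter

namespace Pool.Agent.Helper905_SI

lemma curve_squeeze_congr {F F' : X → ℂ} (μ : ℝ) (h : ∀ p : X, p.1 ≠ 0 → (F p = 0 ↔ F' p = 0)) :
    curve (squeeze μ F) = curve (squeeze μ F') := by
  ext p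
  constructor
  · rintro ⟨h1, h2⟩
    exact ⟨h1, (h (sq μ (toX p.rep)) h1).1 h2⟩
  · rintro ⟨h1, h2⟩
    exact ⟨h1, (h (sq μ (toX p.rep)) h1).2 h2⟩

/-- the constant family -/
lemma constant_family {Ψ Θ : X → ℂ} (h : IsFibreDiffeo Ψ Θ) :
    FibreFamily (fun _ => Ψ) (fun _ => Θ) :=
  ⟨fun _ => h.hom, h.smooth.comp (f := fun q : ℝ × X => q.2) (by fun_prop) (fun _ hq => hq),
    h.smooth_inv.continuousOn.comp (f := fun q : ℝ × X => q.2) (by fun_prop)
      (fun _ hq => hq.2),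
    fun _ _ => h.left, fun _ _ => h.right, fun _ _ => h.pos⟩

lemma snd_diffeo : IsFibreDiffeo (fun p : X => p.2) (fun p : X => p.2) := by
  refine ⟨?_, by fun_prop, by fun_prop, fun p _ => rfl, fun p _ => rfl, ?_⟩
  · intro c _ p _
    simp
  · intro p _
    have h1 : fderiv ℝ (fun p : X => p.2) p = ContinuousLinearMap.snd ℝ (ℂ × ℂ) ℂ :=
      (ContinuousLinearMap.snd ℝ (ℂ × ℂ) ℂ).fderiv
    rw [h1]
    unfold vertE
    simp [jac_eq]

/-- a constant family of sections -/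
lemma constant_sections {d : ℕ} {s : ℂ × ℂ → ℂ} (hs : IsSection d s)
    (hpos : ∀ u : ℂ × ℂ, u ≠ 0 → s u = 0 → 0 < secE (fderiv ℝ s u)) :
    SectionFamily d (fun _ => s) :=
  ⟨fun _ => hs.hom, hs.smooth.comp (f := fun q : ℝ × (ℂ × ℂ) => q.2) (by fun_prop)
    (fun _ hq => hq), fun _ _ => hpos⟩

/-- **Main theorem.**  Let `(u, w) ↦ (u, Ψ (u, w))` be an orientation preserving fibrewise
diffeomorphism, let `s` be a smooth section of `𝒪(d)` which vanishes transversely.  If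
`{Ψ ^ d = s}` is a smooth symplectic curve, then it is symplectically isotopic to a complex curve
of degree `d`. -/
theorem cyclic_isotopic {d : ℕ} (hd : 2 ≤ d) {Ψ Θ : X → ℂ} (hΨ : IsFibreDiffeo Ψ Θ)
    {s : ℂ × ℂ → ℂ} (hs : IsSection d s)
    (htr : ∀ u : ℂ × ℂ, u ≠ 0 → s u = 0 → Function.Surjective (fderiv ℝ s u))
    (hC : IsSymplecticCurve (curve fun p => Ψ p ^ d - s p.1)) :
    ∃ C' : Set CP2, IsComplexCurve d C' ∧
      SymplecticallyIsotopic (curve fun p => Ψ p ^ d - s p.1) C' := by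
  have hd0 : (d : ℂ) ≠ 0 := by
    have : d ≠ 0 := by omega
    exact_mod_cast this
  set F₀ : X → ℂ := fun p => Ψ p ^ d - s p.1 with hF₀
  have hhom : IsHomog d F₀ := by
    intro c hc p hp
    have h1 := hΨ.hom c hc p hp
    have h2 := hs.hom c hc p.1 hp
    simp only [hF₀, Prod.smul_fst]
    rw [h1, h2]
    ring
  have hsm : ContDiffOn ℝ ∞ F₀ {p | p.1 ≠ 0} :=
    (hΨ.smooth.pow d).sub (hs.smooth.comp (f := fun p : X => p.1) (by fun_prop) (fun _ hp => hp))
  have hfd : ∀ p : X, p.1 ≠ 0 → fderiv ℝ F₀ p =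
      ((d : ℂ) * Ψ p ^ (d - 1)) • fderiv ℝ Ψ p -
        (fderiv ℝ s p.1).comp (ContinuousLinearMap.fst ℝ (ℂ × ℂ) ℂ) :=
    fun p hp => fderiv_cyc (diffAt_of_smooth hΨ.smooth hp) (hs.diffAt hp)
  have hV : ∀ p : X, p.1 ≠ 0 → vertE (fderiv ℝ F₀ p) =
      Complex.normSq ((d : ℂ) * Ψ p ^ (d - 1)) * vertE (fderiv ℝ Ψ p) := by
    intro p hp
    rw [hfd p hp, vertE_cyc]
  have hzero : ∀ p : X, F₀ p = 0 → Ψ p = 0 → s p.1 = 0 := by
    intro p h h0
    simp only [hF₀] at h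
    rw [h0, zero_pow (by omega), zero_sub, neg_eq_zero] at h
    exact h
  have hsurj : ∀ p : X, p.1 ≠ 0 → F₀ p = 0 → Function.Surjective (fderiv ℝ F₀ p) := by
    intro p hp h
    by_cases h0 : Ψ p = 0
    · rw [hfd p hp, h0, zero_pow (by omega), mul_zero]
      intro z
      obtain ⟨v, hv⟩ := htr p.1 hp (hzero p h h0) (-z)
      refine ⟨(v, 0), ?_⟩
      simp [hv]
    · apply surj_of_jac (a := (0, 1)) (b := (0, Complex.I))
      have h1 : 0 < vertE (fderiv ℝ F₀ p) := by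
        rw [hV p hp]
        exact mul_pos (Complex.normSq_pos.2 (mul_ne_zero hd0 (pow_ne_zero _ h0))) (hΨ.pos p hp)
      exact h1.ne'
  have hEne := fun p hp h0 => energy_ne_zero hhom hsm hsurj hC p hp h0
  have hVnn : ∀ p : X, p.1 ≠ 0 → F₀ p = 0 → 0 ≤ vertE (fderiv ℝ F₀ p) := by
    intro p hp _
    rw [hV p hp]
    exact mul_nonneg (Complex.normSq_nonneg _) (hΨ.pos p hp).le
  obtain ⟨R, hR⟩ := cyc_bound (by omega : 1 ≤ d) (constant_family hΨ) (fun _ => hs.hom)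
    (hs.smooth.comp (f := fun q : ℝ × (ℂ × ℂ) => q.2) (by fun_prop) (fun _ hq => hq))
  have hR0 : ∀ p : X, p.1 ≠ 0 → F₀ p = 0 → Complex.normSq p.2 ≤ R * nb p :=
    hR 0 ⟨le_refl _, zero_le_one⟩
  have hEpos := energy_pos hhom hsm hsurj hEne hVnn R hR0
  -- the zeros of `s` are positive
  have hpos : ∀ u : ℂ × ℂ, u ≠ 0 → s u = 0 → 0 < secE (fderiv ℝ s u) := by
    intro u hu h0
    have h1 := hΨ.right (u, 0) hu
    simp only at h1
    have h2 : F₀ (u, Θ (u, 0)) = 0 := by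
      simp only [hF₀]
      rw [h1, h0, zero_pow (by omega), sub_zero]
    have h3 := hEpos (u, Θ (u, 0)) hu h2
    rw [hV _ hu, h1, zero_pow (by omega), mul_zero, map_zero, zero_mul, add_zero, hfd _ hu, h1,
      zero_pow (by omega), mul_zero, baseE_cyc] at h3
    exact h3
  have hsF := constant_sections hs hpos
  -- the stages
  have hΨ1 := translate_diffeo hΨ
  have hΨ10 : ∀ u : ℂ × ℂ, u ≠ 0 → (fun p : X => Ψ p - Ψ (p.1, 0)) (u, 0) = 0 := by
    intro u _
    simp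
  set Ψ₁ : X → ℂ := fun p => Ψ p - Ψ (p.1, 0) with hΨ₁
  have g1 := cyc_good hd (translate_family hΨ) hsF
  have g2 := cyc_good hd (alex_family hΨ1 hΨ10) hsF
  have g3 := cyc_good hd (linear_family hΨ1 hΨ10) hsF
  -- the last section
  have hα0 : ∀ u : ℂ × ℂ, u ≠ 0 → alphaF Ψ₁ u ≠ 0 := by
    intro u hu h0
    have h1 := alpha_beta_pos hΨ1 hu
    rw [h0, map_zero] at h1
    exact absurd h1 (not_lt.2 (Complex.normSq_nonneg _))
  set s₁ : ℂ × ℂ → ℂ := fun u => (alphaF Ψ₁ u ^ d)⁻¹ * s u with hs₁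
  have hinv : ContDiffOn ℝ ∞ (fun u => (alphaF Ψ₁ u ^ d)⁻¹) {u | u ≠ 0} :=
    ((alphaF_smooth hΨ1.smooth).pow d).inv (fun u hu => pow_ne_zero _ (hα0 u hu))
  have hs₁s : IsSection d s₁ := by
    refine ⟨?_, ?_⟩
    · intro c hc u hu
      simp only [hs₁]
      rw [(alphaF_hom hΨ1 hΨ10 c hc u hu).1, hs.hom c hc u hu]
      ring
    · exact hinv.mul hs.smooth
  have hs₁pos : ∀ u : ℂ × ℂ, u ≠ 0 → s₁ u = 0 → 0 < secE (fderiv ℝ s₁ u) := by
    intro u hu h0
    have hne : (alphaF Ψ₁ u ^ d)⁻¹ ≠ 0 := inv_ne_zero (pow_ne_zero _ (hα0 u hu))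
    have h1 : s u = 0 := by
      simp only [hs₁] at h0
      exact (mul_eq_zero.1 h0).resolve_left hne
    have h2 : HasFDerivAt (fun u => (alphaF Ψ₁ u ^ d)⁻¹)
        (fderiv ℝ (fun u => (alphaF Ψ₁ u ^ d)⁻¹) u) u :=
      ((hinv.contDiffAt (isOpen_ne0.mem_nhds hu)).differentiableAt (by simp)).hasFDerivAt
    have h3 := (h2.mul (hs.diffAt hu).hasFDerivAt)
    have h4 : ∀ v, fderiv ℝ s₁ u v = (alphaF Ψ₁ u ^ d)⁻¹ * fderiv ℝ s u v := by
      intro v
      rw [show fderiv ℝ s₁ u = _ from h3.fderiv]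
      simp [h1]
    have h5 : secE (fderiv ℝ s₁ u) =
        Complex.normSq (alphaF Ψ₁ u ^ d)⁻¹ * secE (fderiv ℝ s u) := by
      unfold secE
      rw [mul_add, ← jac_mul, ← jac_mul, h4, h4, h4, h4]
    rw [h5]
    exact mul_pos (Complex.normSq_pos.2 hne) (hpos u hu h1)
  obtain ⟨S, hS, hS0, Z, c, hZ, hS1⟩ := exists_path hs₁s hs₁pos
  have g4 := cyc_good hd (constant_family snd_diffeo) hS
  obtain ⟨μ₁, hμ₁, J1⟩ := g1.joined
  obtain ⟨μ₂, hμ₂, J2⟩ := g2.joined
  obtain ⟨μ₃, hμ₃, J3⟩ := g3.joined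
  obtain ⟨μ₄, hμ₄, J4⟩ := g4.joined
  set μ : ℝ := min (min (min μ₁ μ₂) (min μ₃ μ₄)) 1 with hμdef
  have hμ : 0 < μ := lt_min (lt_min (lt_min hμ₁ hμ₂) (lt_min hμ₃ hμ₄)) one_pos
  have hμ1 : μ ≤ 1 := min_le_right _ _
  have hle1 : μ ≤ μ₁ := (min_le_left _ _).trans ((min_le_left _ _).trans (min_le_left _ _))
  have hle2 : μ ≤ μ₂ := (min_le_left _ _).trans ((min_le_left _ _).trans (min_le_right _ _))
  have hle3 : μ ≤ μ₃ := (min_le_left _ _).trans ((min_le_right _ _).trans (min_le_left _ _))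
  have hle4 : μ ≤ μ₄ := (min_le_left _ _).trans ((min_le_right _ _).trans (min_le_right _ _))
  have k0 := joined_squeeze hhom hsm hsurj hEpos hVnn (by
    obtain ⟨r, hr⟩ := IsAlgClosed.exists_pow_nat_eq (s (1, 0)) (by omega : 0 < d)
    refine ⟨((1, 0), Θ ((1, 0), r)), by simp, ?_⟩
    have h1 := hΨ.right ((1, 0), r) (by simp)
    simp only [hF₀] at h1 ⊢
    rw [h1, hr, sub_self]) R hR0 μ hμ hμ1
  have k1 := J1 μ hμ hle1
  have k2 := J2 μ hμ hle2
  have k3 := J3 μ hμ hle3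
  have k4 := J4 μ hμ hle4
  have c1 : curve (squeeze μ fun p : X => (Ψ p - ((0 : ℝ) : ℂ) * Ψ (p.1, 0)) ^ d - s p.1) =
      curve (squeeze μ F₀) := by
    apply curve_squeeze_congr
    intro p _
    simp [hF₀]
  have c2 : curve (squeeze μ fun p : X => (Ψ p - ((1 : ℝ) : ℂ) * Ψ (p.1, 0)) ^ d - s p.1) =
      curve (squeeze μ fun p : X => alex Ψ₁ 0 p ^ d - s p.1) := by
    apply curve_squeeze_congr
    intro p hp
    rw [alex_zero hΨ1 hΨ10 hp]
    simp [hΨ₁]
  have c3 : curve (squeeze μ fun p : X => alex Ψ₁ 1 p ^ d - s p.1) =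
      curve (squeeze μ fun p : X => (alphaF Ψ₁ p.1 * p.2 + (1 - ((0 : ℝ) : ℂ)) *
        (betaF Ψ₁ p.1 * conj p.2)) ^ d - s p.1) := by
    apply curve_squeeze_congr
    intro p hp
    rw [alex_one_eq]
    simp
  have c4 : curve (squeeze μ fun p : X => (alphaF Ψ₁ p.1 * p.2 + (1 - ((1 : ℝ) : ℂ)) *
        (betaF Ψ₁ p.1 * conj p.2)) ^ d - s p.1) =
      curve (squeeze μ fun p : X => p.2 ^ d - S 0 p.1) := by
    apply curve_squeeze_congr
    intro p hp
    rw [hS0 _ hp]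
    simp only [hs₁, Complex.ofReal_one, sub_self, zero_mul, add_zero]
    have h1 : alphaF Ψ₁ p.1 ^ d ≠ 0 := pow_ne_zero _ (hα0 p.1 hp)
    rw [mul_pow]
    constructor
    · intro h
      have h2 : s p.1 = alphaF Ψ₁ p.1 ^ d * p.2 ^ d := by linear_combination -h
      rw [h2]
      field_simp
      ring
    · intro h
      have h2 : p.2 ^ d = (alphaF Ψ₁ p.1 ^ d)⁻¹ * s p.1 := by linear_combination h
      rw [h2]
      field_simp
      ring
  rw [c1] at k1
  rw [c2] at k1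
  rw [c3] at k2
  rw [c4] at k3
  -- the complex curve
  set F₁ : X → ℂ := fun p => p.2 ^ d - S 1 p.1 with hF₁
  have hF₁hom : IsHomog d F₁ := g4.hom 1
  have hF₁sm : ContDiffOn ℝ ∞ F₁ {p | p.1 ≠ 0} := g4.smooth_at 1
  have hF₁surj : ∀ p : X, p.1 ≠ 0 → F₁ p = 0 → Function.Surjective (fderiv ℝ F₁ p) :=
    g4.surj 1 ⟨zero_le_one, le_refl _⟩
  refine ⟨curve (squeeze μ F₁), ?_, ?_⟩
  · have hμc : (μ : ℂ) ≠ 0 := by exact_mod_cast hμ.ne'
    set P : MvPolynomial (Fin 3) ℂ := MvPolynomial.X 2 ^ d - MvPolynomial.C ((μ : ℂ) ^ d) *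
      ∏ a ∈ Z, (MvPolynomial.X 1 - MvPolynomial.C a *
        (MvPolynomial.X 0 - MvPolynomial.C c * MvPolynomial.X 1)) with hP
    have hPeval : ∀ v : V, MvPolynomial.eval (fun i => v i) P =
        v 2 ^ d - (μ : ℂ) ^ d * ∏ a ∈ Z, (v 1 - a * (v 0 - c * v 1)) := by
      intro v
      simp only [hP, map_sub, map_mul, map_pow, MvPolynomial.eval_X, MvPolynomial.eval_C,
        map_prod]
    refine isComplexCurve_of_eval (hF₁hom.squeeze μ) ?_ ?_ P ?_ ((μ : ℂ) ^ d)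
      (pow_ne_zero _ hμc) ?_ ?_
    · exact hF₁sm.comp (sq μ).contDiff.contDiffOn (fun p hp => hp)
    · intro p hp h0
      rw [fderiv_squeeze (diffAt_of_smooth hF₁sm (p := sq μ p) hp)]
      exact (hF₁surj (sq μ p) hp h0).comp (sq_surjective hμ.ne')
    · rw [hP]
      apply MvPolynomial.IsHomogeneous.sub
      · simpa using (MvPolynomial.isHomogeneous_X ℂ (2 : Fin 3)).pow d
      · have h1 : (∏ a ∈ Z, (MvPolynomial.X 1 - MvPolynomial.C a *
            (MvPolynomial.X 0 - MvPolynomial.C c * MvPolynomial.X 1)) :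
              MvPolynomial (Fin 3) ℂ).IsHomogeneous (∑ _a ∈ Z, 1) := by
          apply MvPolynomial.IsHomogeneous.prod
          intro a _
          apply MvPolynomial.IsHomogeneous.sub (MvPolynomial.isHomogeneous_X ℂ _)
          have h2 : (MvPolynomial.X 0 - MvPolynomial.C c * MvPolynomial.X 1 :
              MvPolynomial (Fin 3) ℂ).IsHomogeneous 1 := by
            apply MvPolynomial.IsHomogeneous.sub (MvPolynomial.isHomogeneous_X ℂ _)
            simpa using (MvPolynomial.isHomogeneous_C (Fin 3) c).mul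
              (MvPolynomial.isHomogeneous_X ℂ (1 : Fin 3))
          simpa using (MvPolynomial.isHomogeneous_C (Fin 3) a).mul h2
        have h3 := (MvPolynomial.isHomogeneous_C (Fin 3) ((μ : ℂ) ^ d)).mul h1
        simpa [hZ] using h3
    · intro v hv
      rw [hPeval]
      simp only [squeeze, hF₁]
      rw [hS1 (sq μ (toX v)).1 hv]
      simp only [sq_apply, toX_apply, Complex.real_smul, mul_pow, Complex.ofReal_inv]
      rw [mul_sub, ← mul_assoc, ← mul_pow, mul_inv_cancel₀ hμc, one_pow, one_mul]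
    · intro v hv h0
      rw [hPeval] at h0
      have hv' : v 0 = 0 ∧ v 1 = 0 := by
        simpa using hv
      rw [hv'.1, hv'.2] at h0
      have h1 : ∏ a ∈ Z, ((0 : ℂ) - a * (0 - c * 0)) = 0 := by
        have hne : Z.Nonempty := by
          rw [← Finset.card_pos, hZ]
          omega
        obtain ⟨a, ha⟩ := hne
        exact Finset.prod_eq_zero ha (by ring)
      rw [h1, mul_zero, sub_zero] at h0
      have h2 : v 2 = 0 := pow_eq_zero_iff (by omega : d ≠ 0) |>.1 h0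
      ext j
      fin_cases j
      · exact hv'.1
      · exact hv'.2
      · exact h2
  · exact ((((Relation.TransGen.single k0).tail k1).tail k2).tail k3).tail k4

end Pool.Agent.Helper905_SI
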