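import Pool.Agent.Helper905_SI.Main

/-!
# Fibre preserving diffeomorphisms preserve the orientation of the fibres
-/

set_option autoImplicit false

open scoped ContDiff ComplexConjugate Topology
open Set Filter

namespace Pool.Agent.Helper905_SI

lemma continuousOn_vertE {Ψ : X → ℂ} (h : ContDiffOn ℝ ∞ Ψ {p | p.1 ≠ 0}) :
    ContinuousOn (fun p => vertE (fderiv ℝ Ψ p)) {p | p.1 ≠ 0} :=
  continuous_vertE.comp_continuousOn (h.continuousOn_fderiv_of_isOpen isOpen_base (by simp))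

/-- the fibre derivative is injective -/
lemma vertE_ne_zero {Ψ Θ : X → ℂ} (h : ContDiffOn ℝ ∞ Ψ {p | p.1 ≠ 0})
    (h' : ContDiffOn ℝ ∞ Θ {p | p.1 ≠ 0}) (hl : ∀ p : X, p.1 ≠ 0 → Θ (p.1, Ψ p) = p.2)
    {p : X} (hp : p.1 ≠ 0) : vertE (fderiv ℝ Ψ p) ≠ 0 := by
  have hinj : ∀ v : ℂ, fderiv ℝ Ψ p (0, v) = 0 → v = 0 := by
    intro v hv
    have hline : HasDerivAt (fun τ : ℝ => p + τ • ((0 : ℂ × ℂ), v)) (0, v) 0 := by
      have := ((hasDerivAt_id (0 : ℝ)).smul_const ((0 : ℂ × ℂ), v)).const_add p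
      simpa using this
    have hA : HasDerivAt (fun τ : ℝ => Ψ (p + τ • ((0 : ℂ × ℂ), v)))
        (fderiv ℝ Ψ p (0, v)) 0 := by
      have h3 : HasFDerivAt Ψ (fderiv ℝ Ψ p) (p + (0 : ℝ) • ((0 : ℂ × ℂ), v)) := by
        simpa using (diffAt_of_smooth h hp).hasFDerivAt
      exact h3.comp_hasDerivAt 0 hline
    have hB : HasDerivAt (fun τ : ℝ => ((p.1, Ψ (p + τ • ((0 : ℂ × ℂ), v))) : X))
        (0, fderiv ℝ Ψ p (0, v)) 0 := (hasDerivAt_const (0 : ℝ) p.1).prodMk hA
    have hC : HasDerivAt (fun τ : ℝ => Θ (p.1, Ψ (p + τ • ((0 : ℂ × ℂ), v))))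
        (fderiv ℝ Θ (p.1, Ψ p) (0, fderiv ℝ Ψ p (0, v))) 0 := by
      have h3 : HasFDerivAt Θ (fderiv ℝ Θ (p.1, Ψ p))
          (p.1, Ψ (p + (0 : ℝ) • ((0 : ℂ × ℂ), v))) := by
        have := (diffAt_of_smooth h' (p := (p.1, Ψ p)) hp).hasFDerivAt
        simpa using this
      exact h3.comp_hasDerivAt 0 hB
    have hD : (fun τ : ℝ => Θ (p.1, Ψ (p + τ • ((0 : ℂ × ℂ), v)))) =
        fun τ : ℝ => p.2 + τ • v := by
      funext τ
      have h1 : (p + τ • ((0 : ℂ × ℂ), v)).1 = p.1 := by simp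
      have h2 := hl (p + τ • ((0 : ℂ × ℂ), v)) (by rw [h1]; exact hp)
      rw [h1] at h2
      rw [h2]
      simp
    rw [hD] at hC
    have hE : HasDerivAt (fun τ : ℝ => p.2 + τ • v) v 0 := by
      have := ((hasDerivAt_id (0 : ℝ)).smul_const v).const_add p.2
      simpa using this
    have h4 := hC.unique hE
    have h5 : ((0 : ℂ × ℂ), (0 : ℂ)) = (0 : X) := rfl
    rw [hv, h5, map_zero] at h4
    exact h4.symm
  intro h0
  unfold vertE at h0
  set a := fderiv ℝ Ψ p (0, 1) with ha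
  set b := fderiv ℝ Ψ p (0, Complex.I) with hb
  have hlin : ∀ r t : ℝ, fderiv ℝ Ψ p (0, (r : ℂ) - t * Complex.I) = r * a - t * b := by
    intro r t
    have e : ((0 : ℂ × ℂ), (r : ℂ) - t * Complex.I) =
        r • ((0 : ℂ × ℂ), (1 : ℂ)) - t • ((0 : ℂ × ℂ), Complex.I) := by
      ext <;> simp
    rw [e, map_sub, map_smul, map_smul, ← ha, ← hb, Complex.real_smul, Complex.real_smul]
  rw [jac_eq] at h0
  have e1 : fderiv ℝ Ψ p (0, (b.re : ℂ) - a.re * Complex.I) = 0 := by
    rw [hlin]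
    apply Complex.ext
    · simp; ring
    · simp; linarith
  have e2 : fderiv ℝ Ψ p (0, (b.im : ℂ) - a.im * Complex.I) = 0 := by
    rw [hlin]
    apply Complex.ext
    · simp; linarith
    · simp; ring
  have e3 := hinj _ e1
  have e4 := hinj _ e2
  have e5 : a = 0 := by
    apply Complex.ext
    · have := congrArg Complex.im e3
      simpa using this
    · have := congrArg Complex.im e4
      simpa using this
  exact one_ne_zero (hinj 1 e5)

lemma beta_hom {Ψ : X → ℂ} (hh : IsHomog 1 Ψ) (h : ContDiffOn ℝ ∞ Ψ {p | p.1 ≠ 0})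
    (c : ℂ) (hc : c ≠ 0) (u : ℂ × ℂ) (hu : u ≠ 0) :
    betaF Ψ (c • u) * conj c = c * betaF Ψ u := by
  have hkey : ∀ v : ℂ, fderiv ℝ Ψ (c • u, 0) (0, c * v) = c * fderiv ℝ Ψ (u, 0) (0, v) := by
    intro v
    have hA : HasDerivAt (fun τ : ℝ => Ψ (c • u, τ • (c * v)))
        (fderiv ℝ Ψ (c • u, 0) (0, c * v)) 0 := by
      have h1 : HasDerivAt (fun τ : ℝ => ((c • u, τ • (c * v)) : X)) (0, c * v) 0 := by
        apply (hasDerivAt_const (0 : ℝ) (c • u)).prodMk
        have := ((hasDerivAt_id (0 : ℝ)).smul_const (c * v))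
        simpa using this
      have h3 : HasFDerivAt Ψ (fderiv ℝ Ψ (c • u, 0)) (c • u, (0 : ℝ) • (c * v)) := by
        have := (diffAt_of_smooth h (p := (c • u, 0)) (smul_ne_zero hc hu)).hasFDerivAt
        simpa using this
      exact h3.comp_hasDerivAt 0 h1
    have hB : HasDerivAt (fun τ : ℝ => c * Ψ (u, τ • v))
        (c * fderiv ℝ Ψ (u, 0) (0, v)) 0 := by
      have h1 : HasDerivAt (fun τ : ℝ => ((u, τ • v) : X)) (0, v) 0 := by
        apply (hasDerivAt_const (0 : ℝ) u).prodMk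
        have := ((hasDerivAt_id (0 : ℝ)).smul_const v)
        simpa using this
      have h3 : HasFDerivAt Ψ (fderiv ℝ Ψ (u, 0)) (u, (0 : ℝ) • v) := by
        have := (diffAt_of_smooth h (p := (u, 0)) hu).hasFDerivAt
        simpa using this
      exact (h3.comp_hasDerivAt 0 h1).const_mul c
    have hC : (fun τ : ℝ => Ψ (c • u, τ • (c * v))) = fun τ : ℝ => c * Ψ (u, τ • v) := by
      funext τ
      have h1 := hh c hc (u, τ • v) hu
      rw [pow_one] at h1
      rw [← h1]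
      congr 1
      ext
      · rfl
      · rfl
      · simp only [Prod.smul_mk, smul_eq_mul, Complex.real_smul]
        ring
    rw [hC] at hA
    exact hA.unique hB
  have k1 := hkey 1
  have k2 := hkey Complex.I
  rw [fibre_expand, fibre_expand (fderiv ℝ Ψ (u, 0)) 1] at k1
  rw [fibre_expand, fibre_expand (fderiv ℝ Ψ (u, 0)) Complex.I] at k2
  have k3 : (fderiv ℝ Ψ (c • u, 0) (0, 1) - Complex.I * fderiv ℝ Ψ (c • u, 0) (0, Complex.I)) / 2 *
      c - betaF Ψ (c • u) * conj c = c * (alphaF Ψ u - betaF Ψ u) := by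
    apply mul_right_cancel₀ Complex.I_ne_zero
    unfold alphaF betaF
    simp only [map_mul, Complex.conj_I] at k2
    linear_combination k2
  unfold alphaF betaF at *
  simp only [map_one, mul_one] at k1
  linear_combination (k1 - k3) / 2

/-- **Orientation.** -/
theorem orientation {Ψ Θ : X → ℂ} (hh : IsHomog 1 Ψ) (h : ContDiffOn ℝ ∞ Ψ {p | p.1 ≠ 0})
    (h' : ContDiffOn ℝ ∞ Θ {p | p.1 ≠ 0}) (hl : ∀ p : X, p.1 ≠ 0 → Θ (p.1, Ψ p) = p.2) :
    ∀ p : X, p.1 ≠ 0 → 0 < vertE (fderiv ℝ Ψ p) := by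
  have hconn : IsPreconnected {p : X | p.1 ≠ 0} := by
    have h1 : IsPreconnected ({0}ᶜ : Set (ℂ × ℂ)) := by
      apply IsConnected.isPreconnected
      apply isConnected_compl_singleton_of_one_lt_rank
      rw [← Module.finrank_eq_rank]
      simp [Complex.finrank_real_complex]
    have h2 := h1.prod (isPreconnected_univ (α := ℂ))
    convert h2 using 1
    ext p
    simp
  have hne : ∀ p : X, p.1 ≠ 0 → vertE (fderiv ℝ Ψ p) ≠ 0 := fun p hp => vertE_ne_zero h h' hl hp
  by_contra hcon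
  push Not at hcon
  obtain ⟨p₀, hp₀, hle⟩ := hcon
  have hneg : ∀ p : X, p.1 ≠ 0 → vertE (fderiv ℝ Ψ p) < 0 := by
    intro p hp
    by_contra hcon2
    have hpos := not_lt.1 hcon2
    obtain ⟨q, hq, hq0⟩ := hconn.intermediate_value (f := fun p => vertE (fderiv ℝ Ψ p)) hp₀ hp
      (continuousOn_vertE h) ⟨hle, hpos⟩
    exact hne q hq hq0
  have hβ : ∀ u : ℂ × ℂ, u ≠ 0 → betaF Ψ u ≠ 0 := by
    intro u hu h0
    have h1 := hneg (u, 0) hu
    have h2 : vertE (fderiv ℝ Ψ (u, 0)) =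
        Complex.normSq (alphaF Ψ u) - Complex.normSq (betaF Ψ u) := by
      unfold vertE alphaF betaF
      simp only [jac_eq, Complex.normSq_apply]
      simp
      ring
    rw [h2, h0, map_zero, sub_zero] at h1
    exact absurd h1 (not_lt.2 (Complex.normSq_nonneg _))
  -- a nowhere vanishing homogeneous function of degree `2`
  set B : ℂ × ℂ → ℂ := fun u => betaF Ψ u *
    ((Complex.normSq u.1 + Complex.normSq u.2 : ℝ) : ℂ) with hB
  have hBne : ∀ u : ℂ × ℂ, u ≠ 0 → B u ≠ 0 := by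
    intro u hu
    have h1 : 0 < Complex.normSq u.1 + Complex.normSq u.2 := nb_pos (p := (u, 0)) hu
    exact mul_ne_zero (hβ u hu) (by exact_mod_cast h1.ne')
  have hBhom : ∀ c : ℂ, c ≠ 0 → ∀ u : ℂ × ℂ, u ≠ 0 → B (c • u) = c ^ 2 * B u := by
    intro c hc u hu
    simp only [hB, Prod.smul_fst, Prod.smul_snd, smul_eq_mul, Complex.normSq_mul]
    have h1 := beta_hom hh h c hc u hu
    push_cast
    rw [← Complex.mul_conj c]
    linear_combination (c * ((Complex.normSq u.1 : ℂ) + (Complex.normSq u.2 : ℂ))) * h1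
  have hBc : ContinuousOn B {u | u ≠ 0} := by
    apply (betaF_smooth h).continuousOn.mul
    apply Continuous.continuousOn
    apply Complex.continuous_ofReal.comp
    exact (Complex.continuous_normSq.comp continuous_fst).add
      (Complex.continuous_normSq.comp continuous_snd)
  have hc1 : Continuous fun z : ℂ => B (1, z) := by
    rw [← continuousOn_univ]
    exact hBc.comp (f := fun z : ℂ => ((1 : ℂ), z)) (by fun_prop) (fun z _ => by simp)
  have hc2 : Continuous fun z : ℂ => B (z, 1) := by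
    rw [← continuousOn_univ]
    exact hBc.comp (f := fun z : ℂ => (z, (1 : ℂ))) (by fun_prop) (fun z _ => by simp)
  obtain ⟨a, hac, ha⟩ := exists_log hc1 (fun z => hBne _ (by simp))
  obtain ⟨b, hbc, hb⟩ := exists_log hc2 (fun z => hBne _ (by simp))
  have hab : ∀ z : ℂ, z ≠ 0 → Complex.exp (a z) = z ^ (2 : ℤ) * Complex.exp (b z⁻¹) := by
    intro z hz
    rw [ha, hb]
    have h1 := hBhom z hz (z⁻¹, 1) (by simp)
    have h4 : z • ((z⁻¹, 1) : ℂ × ℂ) = (1, z) := by
      ext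
      · simp [mul_inv_cancel₀ hz]
      · simp
    rw [h4] at h1
    rw [h1]
    norm_cast
  have := (winding hac hbc hab).1
  norm_num at this

end Pool.Agent.Helper905_SI
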