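import Pool.Agent.Helper905_SI.Family

/-!
# Positivity: the energy is positive along a symplectic curve
-/

set_option autoImplicit false

open scoped ContDiff ComplexConjugate Topology
open Set Filter

namespace Pool.Agent.Helper905_SI

section transfer

variable {E : Type*} [NormedAddCommGroup E] [NormedSpace ℝ E] [CompleteSpace E]

/-- A real function which is constant on the zero set of `F` near `v` has derivative factoring
through that of `F`. -/
lemma deriv_factor_real {F : E → ℂ} {F' : E →L[ℝ] ℂ} {v : E} (hF : HasStrictFDerivAt F F' v)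
    (hs : Function.Surjective F') {g : E → ℝ} {g' : E →L[ℝ] ℝ} (hg : HasStrictFDerivAt g g' v)
    (h : IsLocalExtrOn g {x | F x = F v} v) :
    ∃ Λ : Module.Dual ℝ ℂ, ∀ x, g' x = Λ (F' x) := by
  obtain ⟨Λ, Λ₀, hne, hx⟩ := h.exists_linear_map_of_hasStrictFDerivAt hF hg
  have h0 : Λ₀ ≠ 0 := by
    intro h0
    apply hne
    rw [h0]
    have : Λ = 0 := by
      ext z
      obtain ⟨x, hx'⟩ := hs z
      have := hx x
      rw [h0, zero_smul, add_zero, hx'] at this
      simpa using this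
    rw [this]
    rfl
  refine ⟨-(Λ₀⁻¹) • Λ, fun x => ?_⟩
  have := hx x
  simp only [smul_eq_mul] at this
  rw [LinearMap.smul_apply, smul_eq_mul]
  field_simp
  linarith

lemma ker_le {F : E → ℂ} {F' : E →L[ℝ] ℂ} {v : E} (hF : HasStrictFDerivAt F F' v)
    (hs : Function.Surjective F') {g : E → ℂ} {g' : E →L[ℝ] ℂ} (hg : HasStrictFDerivAt g g' v)
    (hFv : F v = 0) (h : ∀ᶠ x in 𝓝 v, F x = 0 → g x = 0) :
    ∀ x, F' x = 0 → g' x = 0 := by
  have hgv : g v = 0 := h.self_of_nhds hFv
  have hext : ∀ l : ℂ →L[ℝ] ℝ, IsLocalExtrOn (fun x => l (g x)) {x | F x = F v} v := by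
    intro l
    left
    change ∀ᶠ x in 𝓝[{x | F x = F v}] v, l (g v) ≤ l (g x)
    rw [eventually_nhdsWithin_iff]
    filter_upwards [h] with x hx hx'
    have hx'' : F x = F v := hx'
    rw [hFv] at hx''
    rw [hx hx'', hgv]
  intro x hx
  apply Complex.ext
  · obtain ⟨Λ, hΛ⟩ := deriv_factor_real hF hs ((Complex.reCLM.hasStrictFDerivAt).comp v hg)
      (hext Complex.reCLM)
    have := hΛ x
    rw [hx, map_zero] at this
    simpa using this
  · obtain ⟨Λ, hΛ⟩ := deriv_factor_real hF hs ((Complex.imCLM.hasStrictFDerivAt).comp v hg)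
      (hext Complex.imCLM)
    have := hΛ x
    rw [hx, map_zero] at this
    simpa using this

end transfer

/-- Along a symplectic curve given by a homogeneous equation `F` which vanishes transversally,
the energy of `F` does not vanish. -/
lemma energy_ne_zero {d : ℕ} {F : X → ℂ} (hF : IsHomog d F)
    (hsm : ContDiffOn ℝ ∞ F {p | p.1 ≠ 0})
    (hsurj : ∀ p : X, p.1 ≠ 0 → F p = 0 → Function.Surjective (fderiv ℝ F p))
    (hC : IsSymplecticCurve (curve F)) (p : X) (hp : p.1 ≠ 0) (h0 : F p = 0) :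
    baseE (fderiv ℝ F p) + vertE (fderiv ℝ F p) ≠ 0 := by
  obtain ⟨v, rfl⟩ := toX_surjective p
  have hv : v ∈ cone (curve F) := (mem_cone_curve hF v).2 ⟨hp, h0⟩
  have hv0 : v ≠ 0 := toX_ne hp
  have hdF : ContDiffAt ℝ ∞ F (toX v) := hsm.contDiffAt (isOpen_base.mem_nhds hp)
  set G : V → ℂ := fun u => F (toX u) with hG
  have hdG : ContDiffAt ℝ ∞ G v := hdF.comp v toX.contDiff.contDiffAt
  have hfG : fderiv ℝ G v = (fderiv ℝ F (toX v)).comp toX :=
    fderiv_comp_toX (hdF.differentiableAt (by simp))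
  have hGs : Function.Surjective (fderiv ℝ G v) := by
    rw [hfG]
    exact (hsurj _ hp h0).comp toX_surjective
  have hGst : HasStrictFDerivAt G (fderiv ℝ G v) v := hdG.hasStrictFDerivAt (by simp)
  obtain ⟨U, f, hvU, hU⟩ := hC.locally_eq v hv
  have hUn : U ∈ 𝓝 v := hU.isOpen.mem_nhds hvU
  have hdf : ContDiffAt ℝ ∞ f v := hU.smooth.contDiffAt hUn
  have hfst : HasStrictFDerivAt f (fderiv ℝ f v) v := hdf.hasStrictFDerivAt (by simp)
  have hfs := hU.surjective v hvU hv
  have hbn : {u : V | (toX u).1 ≠ 0} ∈ 𝓝 v := isOpen_baseV.mem_nhds hp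
  have hfv : f v = 0 := (hU.mem_cone_iff v hvU).1 hv
  have hiff : ∀ᶠ u in 𝓝 v, (f u = 0 ↔ G u = 0) := by
    filter_upwards [hUn, hbn] with u hu hu'
    rw [← hU.mem_cone_iff u hu, mem_cone_curve hF]
    exact ⟨fun h => h.2, fun h => ⟨hu', h⟩⟩
  have hk1 := ker_le hfst hfs hGst hfv (hiff.mono fun u hu h => hu.1 h)
  have hk2 := ker_le hGst hGs hfst h0 (hiff.mono fun u hu h => hu.2 h)
  have hN : Nondeg v (fderiv ℝ G v) := by
    intro a ha hab
    exact hU.nondegenerate v hvU hv a (hk2 a ha) (fun b hb => hab b (hk1 b hb))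
  have hE := energy_of_nondeg v hv0 (fderiv ℝ G v) ?_ hGs hN
  · rw [hfG, energy_comp] at hE
    exact hE
  · intro c
    rw [hfG]
    change fderiv ℝ F (toX v) (toX (c • v)) = 0
    rw [toX_smul]
    exact fderiv_radial hF hp h0 (hdF.differentiableAt (by simp)) c

lemma jac_eq (a b : ℂ) : jac a b = a.re * b.im - a.im * b.re := by
  simp [jac]
  ring

lemma continuous_baseE : Continuous baseE := by
  unfold baseE jac
  fun_prop

lemma continuous_vertE : Continuous vertE := by
  unfold vertE jac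
  fun_prop

/-- scaling by a positive real number -/
lemma fderiv_scale {d : ℕ} {F : X → ℂ} (hF : IsHomog d F)
    (hsm : ContDiffOn ℝ ∞ F {p | p.1 ≠ 0}) {p : X} (hp : p.1 ≠ 0) {c : ℝ} (hc : 0 < c) :
    fderiv ℝ F (c • p) = (c ^ d / c) • fderiv ℝ F p := by
  have hcp : (c • p).1 ≠ 0 := by
    rw [Prod.smul_fst]
    exact smul_ne_zero hc.ne' hp
  have h1 : DifferentiableAt ℝ F p := (hsm.contDiffAt (isOpen_base.mem_nhds hp)).differentiableAt
    (by simp)
  have h2 : DifferentiableAt ℝ F (c • p) :=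
    (hsm.contDiffAt (isOpen_base.mem_nhds hcp)).differentiableAt (by simp)
  have h3 : HasFDerivAt (fun q : X => F (c • q))
      ((fderiv ℝ F (c • p)).comp (c • ContinuousLinearMap.id ℝ X)) p :=
    h2.hasFDerivAt.comp p ((hasFDerivAt_id p).const_smul c)
  have h4 : HasFDerivAt (fun q : X => (c ^ d : ℝ) • F q) ((c ^ d : ℝ) • fderiv ℝ F p) p :=
    h1.hasFDerivAt.const_smul (c ^ d : ℝ)
  have h5 : (fun q : X => F (c • q)) =ᶠ[𝓝 p] fun q => (c ^ d : ℝ) • F q := by
    filter_upwards [isOpen_base.mem_nhds hp] with q hq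
    have := hF (c : ℂ) (by exact_mod_cast hc.ne') q hq
    rw [show c • q = (c : ℂ) • q from rfl, this]
    simp
  have h6 := (h4.congr_of_eventuallyEq h5).unique h3
  apply ContinuousLinearMap.ext
  intro a
  have h7 := DFunLike.congr_fun h6 a
  simp only [smul_apply, ContinuousLinearMap.comp_apply,
    ContinuousLinearMap.id_apply, map_smul] at h7 ⊢
  rw [div_eq_inv_mul, mul_smul, h7, smul_smul, inv_mul_cancel₀ hc.ne', one_smul]

lemma baseE_smul (r : ℝ) (M : X →L[ℝ] ℂ) : baseE (r • M) = r ^ 2 * baseE M := by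
  simp only [baseE, jac_eq, smul_apply, Complex.real_smul,
    Complex.re_ofReal_mul, Complex.im_ofReal_mul]
  ring

lemma vertE_smul (r : ℝ) (M : X →L[ℝ] ℂ) : vertE (r • M) = r ^ 2 * vertE M := by
  simp only [vertE, jac_eq, smul_apply, Complex.real_smul,
    Complex.re_ofReal_mul, Complex.im_ofReal_mul]
  ring

lemma nb_smul (c : ℝ) (p : X) : nb (c • p) = c ^ 2 * nb p := by
  simp [nb, Complex.normSq_mul]
  ring

/-- values of a real linear map in terms of the standard basis -/
lemma M_expand (M : X →L[ℝ] ℂ) (x y w : ℂ) :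
    M ((x, y), w) = x.re • M ((1, 0), 0) + x.im • M ((Complex.I, 0), 0) +
      (y.re • M ((0, 1), 0) + y.im • M ((0, Complex.I), 0)) +
      (w.re • M (0, 1) + w.im • M (0, Complex.I)) := by
  rw [← map_smul, ← map_smul, ← map_smul, ← map_smul, ← map_smul, ← map_smul, ← map_add,
    ← map_add, ← map_add, ← map_add, ← map_add]
  congr 1
  ext
  · simp
  · simp
  · simp

lemma jac_of_ker {Λ : Module.Dual ℝ ℂ} (hΛ : Λ ≠ 0) {a b : ℂ} (ha : Λ a = 0) (hb : Λ b = 0) :
    jac a b = 0 := by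
  have hexp : ∀ z : ℂ, Λ z = z.re * Λ 1 + z.im * Λ Complex.I := by
    intro z
    conv_lhs => rw [show z = z.re • (1 : ℂ) + z.im • Complex.I by simp [Complex.re_add_im]]
    rw [map_add, map_smul, map_smul, smul_eq_mul, smul_eq_mul]
  rw [hexp] at ha hb
  rw [jac_eq]
  by_cases h1 : Λ 1 = 0
  · have h2 : Λ Complex.I ≠ 0 := by
      intro h2
      apply hΛ
      ext z
      rw [hexp, h1, h2]
      simp
    rw [h1, mul_zero, zero_add] at ha hb
    rw [(mul_eq_zero.1 ha).resolve_right h2, (mul_eq_zero.1 hb).resolve_right h2]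
    ring
  · have h3 : (a.re * b.im - a.im * b.re) * Λ 1 = 0 := by
      linear_combination b.im * ha - a.im * hb
    exact (mul_eq_zero.1 h3).resolve_right h1

/-- the function `|w|² / (|x|² + |y|²)` -/
noncomputable def phi (p : X) : ℝ := Complex.normSq p.2 / nb p

lemma nb_contDiff : ContDiff ℝ ∞ nb := by
  unfold nb
  simp only [Complex.normSq_apply]
  have h1 : ContDiff ℝ ∞ (fun p : X => p.1.1.re) := Complex.reCLM.contDiff.comp (by fun_prop)
  have h2 : ContDiff ℝ ∞ (fun p : X => p.1.1.im) := Complex.imCLM.contDiff.comp (by fun_prop)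
  have h3 : ContDiff ℝ ∞ (fun p : X => p.1.2.re) := Complex.reCLM.contDiff.comp (by fun_prop)
  have h4 : ContDiff ℝ ∞ (fun p : X => p.1.2.im) := Complex.imCLM.contDiff.comp (by fun_prop)
  exact ((h1.mul h1).add (h2.mul h2)).add ((h3.mul h3).add (h4.mul h4))

lemma normSq_snd_contDiff : ContDiff ℝ ∞ (fun p : X => Complex.normSq p.2) := by
  simp only [Complex.normSq_apply]
  have h1 : ContDiff ℝ ∞ (fun p : X => p.2.re) := Complex.reCLM.contDiff.comp (by fun_prop)
  have h2 : ContDiff ℝ ∞ (fun p : X => p.2.im) := Complex.imCLM.contDiff.comp (by fun_prop)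
  exact (h1.mul h1).add (h2.mul h2)

lemma phi_contDiffAt {p : X} (hp : p.1 ≠ 0) : ContDiffAt ℝ ∞ phi p :=
  normSq_snd_contDiff.contDiffAt.div nb_contDiff.contDiffAt (nb_pos hp).ne'

/-- derivative of `phi` along a line on which `phi` has a known form -/
lemma fderiv_phi {p : X} (hp : p.1 ≠ 0) (a : X) {m : ℝ}
    (h : HasDerivAt (fun t : ℝ => phi (p + t • a)) m 0) : fderiv ℝ phi p a = m := by
  have h1 : HasDerivAt (fun t : ℝ => p + t • a) a 0 := by
    have := ((hasDerivAt_id (0 : ℝ)).smul_const a).const_add p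
    simpa using this
  have h2 : HasDerivAt (fun t : ℝ => phi (p + t • a)) (fderiv ℝ phi p a) 0 := by
    have h3 : HasFDerivAt phi (fderiv ℝ phi p) (p + (0 : ℝ) • a) := by
      simpa using ((phi_contDiffAt hp).differentiableAt (by simp)).hasFDerivAt
    exact h3.comp_hasDerivAt 0 h1
  exact h2.unique h

lemma deriv_aux (k : ℝ) : HasDerivAt (fun t : ℝ => k / (1 + t ^ 2)) 0 0 := by
  have h1 : HasDerivAt (fun t : ℝ => 1 + t ^ 2) 0 0 := by
    have := ((hasDerivAt_id (0 : ℝ)).pow 2).const_add 1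
    simpa using this
  have h2 : HasDerivAt (fun t : ℝ => k / (1 + t ^ 2))
      ((0 * (1 + (0 : ℝ) ^ 2) - k * 0) / (1 + (0 : ℝ) ^ 2) ^ 2) 0 :=
    (hasDerivAt_const (0 : ℝ) k).div h1 (by norm_num)
  convert h2 using 1
  simp

/-- the unitary invariance of `baseE` -/
lemma baseE_unitary (M : X →L[ℝ] ℂ) (x y : ℂ) :
    (Complex.normSq x + Complex.normSq y) * baseE M =
      jac (M ((x, y), 0)) (M ((Complex.I * x, Complex.I * y), 0)) +
      jac (M ((-conj y, conj x), 0)) (M ((-(Complex.I * conj y), Complex.I * conj x), 0)) := by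
  rw [M_expand M x y 0, M_expand M (Complex.I * x) (Complex.I * y) 0,
    M_expand M (-conj y) (conj x) 0, M_expand M (-(Complex.I * conj y)) (Complex.I * conj x) 0]
  simp only [baseE, jac_eq, Complex.normSq_apply]
  simp
  ring

lemma vertE_scale (M : X →L[ℝ] ℂ) (w : ℂ) :
    jac (M (0, w)) (M (0, Complex.I * w)) = Complex.normSq w * vertE M := by
  rw [show ((0 : ℂ × ℂ), w) = ((0, 0), w) from rfl,
    show ((0 : ℂ × ℂ), Complex.I * w) = ((0, 0), Complex.I * w) from rfl,
    M_expand M 0 0 w, M_expand M 0 0 (Complex.I * w)]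
  simp only [vertE, jac_eq, Complex.normSq_apply]
  simp
  ring

/-- **Positivity.**  If the vertical part of the energy is nonnegative, then the energy is
positive along a compact curve on which it does not vanish. -/
lemma energy_pos {d : ℕ} {F : X → ℂ} (hF : IsHomog d F)
    (hsm : ContDiffOn ℝ ∞ F {p | p.1 ≠ 0})
    (hsurj : ∀ p : X, p.1 ≠ 0 → F p = 0 → Function.Surjective (fderiv ℝ F p))
    (hE : ∀ p : X, p.1 ≠ 0 → F p = 0 → baseE (fderiv ℝ F p) + vertE (fderiv ℝ F p) ≠ 0)
    (hV : ∀ p : X, p.1 ≠ 0 → F p = 0 → 0 ≤ vertE (fderiv ℝ F p))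
    (R : ℝ) (hR : ∀ p : X, p.1 ≠ 0 → F p = 0 → Complex.normSq p.2 ≤ R * nb p)
    (p : X) (hp : p.1 ≠ 0) (h0 : F p = 0) :
    0 < baseE (fderiv ℝ F p) + vertE (fderiv ℝ F p) := by
  by_contra hcon
  set En : X → ℝ := fun q => baseE (fderiv ℝ F q) + vertE (fderiv ℝ F q) with hEn
  have hcF : ContinuousOn F {p | p.1 ≠ 0} := hsm.continuousOn
  have hcE : ContinuousOn En {p | p.1 ≠ 0} := by
    have h1 : ContinuousOn (fderiv ℝ F) {p | p.1 ≠ 0} :=
      hsm.continuousOn_fderiv_of_isOpen isOpen_base (by simp)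
    exact (continuous_baseE.comp_continuousOn h1).add (continuous_vertE.comp_continuousOn h1)
  have hscale : ∀ (c : ℝ), 0 < c → ∀ q : X, q.1 ≠ 0 → En (c • q) = (c ^ d / c) ^ 2 * En q := by
    intro c hc q hq
    simp only [hEn]
    rw [fderiv_scale hF hsm hq hc, baseE_smul, vertE_smul]
    ring
  have hFscale : ∀ (c : ℝ), 0 < c → ∀ q : X, q.1 ≠ 0 → F q = 0 → F (c • q) = 0 := by
    intro c hc q hq hq0
    rw [show c • q = (c : ℂ) • q from rfl, hF _ (by exact_mod_cast hc.ne') q hq, hq0, mul_zero]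
  have hnormalize : ∀ q : X, q.1 ≠ 0 → nb ((Real.sqrt (nb q))⁻¹ • q) = 1 := by
    intro q hq
    rw [nb_smul, inv_pow, Real.sq_sqrt (nb_nonneg q), inv_mul_cancel₀ (nb_pos hq).ne']
  -- the compact set
  set K : Set X := {q | nb q = 1} ∩ F ⁻¹' {0} ∩ En ⁻¹' (Iic 0) with hK
  have hsub : {q : X | nb q = 1} ⊆ {q | q.1 ≠ 0} := by
    intro q hq hq0
    rw [mem_ofPred_eq, nb_eq_zero.2 hq0] at hq
    exact zero_ne_one hq
  have hcl1 : IsClosed {q : X | nb q = 1} := isClosed_eq continuous_nb continuous_const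
  have hKcl : IsClosed K := by
    have h1 : IsClosed ({q : X | nb q = 1} ∩ F ⁻¹' {0}) :=
      (hcF.mono hsub).preimage_isClosed_of_isClosed hcl1 isClosed_singleton
    exact (hcE.mono (inter_subset_left.trans hsub)).preimage_isClosed_of_isClosed h1 isClosed_Iic
  have hKb : Bornology.IsBounded K := by
    rw [isBounded_iff_forall_norm_le]
    refine ⟨1 + |R|, ?_⟩
    rintro q ⟨⟨hq1, hq2⟩, -⟩
    have hq1' : nb q = 1 := hq1
    have hr := hR q (hsub hq1) hq2
    rw [hq1', mul_one] at hr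
    have ha : ‖q.1.1‖ ^ 2 ≤ 1 := by
      rw [← hq1', nb, ← Complex.normSq_eq_norm_sq]
      linarith [Complex.normSq_nonneg q.1.2]
    have hb : ‖q.1.2‖ ^ 2 ≤ 1 := by
      rw [← hq1', nb, ← Complex.normSq_eq_norm_sq]
      linarith [Complex.normSq_nonneg q.1.1]
    have hc : ‖q.2‖ ^ 2 ≤ |R| := by
      rw [← Complex.normSq_eq_norm_sq]
      exact hr.trans (le_abs_self R)
    have h1 : ‖q.1.1‖ ≤ 1 := by nlinarith [norm_nonneg q.1.1]
    have h2 : ‖q.1.2‖ ≤ 1 := by nlinarith [norm_nonneg q.1.2]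
    have h3 : ‖q.2‖ ≤ 1 + |R| := by nlinarith [norm_nonneg q.2, abs_nonneg R]
    rw [Prod.norm_def, Prod.norm_def]
    have := abs_nonneg R
    exact max_le (max_le (by linarith) (by linarith)) h3
  have hKc : IsCompact K := Metric.isCompact_of_isClosed_isBounded hKcl hKb
  have hmemK : ∀ q : X, q.1 ≠ 0 → F q = 0 → En q ≤ 0 → (Real.sqrt (nb q))⁻¹ • q ∈ K := by
    intro q hq hq0 hqE
    have hc : 0 < (Real.sqrt (nb q))⁻¹ := inv_pos.2 (Real.sqrt_pos.2 (nb_pos hq))
    refine ⟨⟨hnormalize q hq, hFscale _ hc q hq hq0⟩, ?_⟩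
    change En _ ≤ 0
    rw [hscale _ hc q hq]
    exact mul_nonpos_of_nonneg_of_nonpos (sq_nonneg _) hqE
  have hKne : K.Nonempty := ⟨_, hmemK p hp h0 (not_lt.1 hcon)⟩
  obtain ⟨p₀, hp₀K, hmax⟩ := hKc.exists_isMaxOn hKne
    (f := fun q : X => Complex.normSq q.2)
    (Complex.continuous_normSq.comp continuous_snd).continuousOn
  have hnb : nb p₀ = 1 := hp₀K.1.1
  have hp₀ : p₀.1 ≠ 0 := hsub hp₀K.1.1
  have hF0 : F p₀ = 0 := hp₀K.1.2
  have hE0 : En p₀ < 0 := lt_of_le_of_ne hp₀K.2 (hE p₀ hp₀ hF0)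
  have hdF : ContDiffAt ℝ ∞ F p₀ := hsm.contDiffAt (isOpen_base.mem_nhds hp₀)
  have hFst : HasStrictFDerivAt F (fderiv ℝ F p₀) p₀ := hdF.hasStrictFDerivAt (by simp)
  have hs0 := hsurj p₀ hp₀ hF0
  have hphi0 : phi p₀ = Complex.normSq p₀.2 := by rw [phi, hnb, div_one]
  have hnear : ∀ᶠ q in 𝓝 p₀, F q = 0 → phi q ≤ phi p₀ := by
    have h1 : ∀ᶠ q in 𝓝 p₀, En q < 0 :=
      (hcE.continuousAt (isOpen_base.mem_nhds hp₀)).eventually_lt continuousAt_const hE0
    filter_upwards [h1, isOpen_base.mem_nhds hp₀] with q hq1 hq2 hq3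
    have h2 := hmax (hmemK q hq2 hq3 hq1.le)
    have h3 : Complex.normSq ((Real.sqrt (nb q))⁻¹ • q).2 = phi q := by
      rw [Prod.smul_snd, Complex.real_smul, Complex.normSq_mul, Complex.normSq_ofReal, phi,
        ← sq, inv_pow, Real.sq_sqrt (nb_nonneg q)]
      ring
    rw [hphi0, ← h3]
    exact h2
  have hextr : IsLocalExtrOn phi {x | F x = F p₀} p₀ := by
    right
    change ∀ᶠ x in 𝓝[{x | F x = F p₀}] p₀, phi x ≤ phi p₀
    rw [eventually_nhdsWithin_iff]
    filter_upwards [hnear] with x hx hx'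
    have hx'' : F x = F p₀ := hx'
    exact hx (hx''.trans hF0)
  obtain ⟨Λ, hΛ⟩ := deriv_factor_real hFst hs0
    ((phi_contDiffAt hp₀).hasStrictFDerivAt (by simp)) hextr
  set M := fderiv ℝ F p₀ with hM
  obtain ⟨⟨x, y⟩, w⟩ := p₀
  have hnb' : Complex.normSq x + Complex.normSq y = 1 := hnb
  have hnbx : x.re * x.re + x.im * x.im + (y.re * y.re + y.im * y.im) = 1 := by
    rw [← Complex.normSq_apply, ← Complex.normSq_apply]; exact hnb'
  -- derivatives of `phi`
  have hd1 : fderiv ℝ phi ((x, y), w) ((-conj y, conj x), 0) = 0 := by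
    apply fderiv_phi hp₀
    have h1 : (fun t : ℝ => phi (((x, y), w) + t • ((-conj y, conj x), 0))) =
        fun t : ℝ => Complex.normSq w / (1 + t ^ 2) := by
      funext t
      unfold phi nb
      congr 1
      · simp
      · simp only [Prod.smul_mk, Prod.mk_add_mk, Complex.normSq_apply, Complex.real_smul]
        simp
        linear_combination (1 + t ^ 2) * hnbx
    rw [h1]
    exact deriv_aux _
  have hd2 : fderiv ℝ phi ((x, y), w) ((-(Complex.I * conj y), Complex.I * conj x), 0) = 0 := by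
    apply fderiv_phi hp₀
    have h1 : (fun t : ℝ => phi (((x, y), w) +
        t • ((-(Complex.I * conj y), Complex.I * conj x), 0))) =
        fun t : ℝ => Complex.normSq w / (1 + t ^ 2) := by
      funext t
      unfold phi nb
      congr 1
      · simp
      · simp only [Prod.smul_mk, Prod.mk_add_mk, Complex.normSq_apply, Complex.real_smul]
        simp
        linear_combination (1 + t ^ 2) * hnbx
    rw [h1]
    exact deriv_aux _
  have hrad : ∀ c : ℂ, M (c • ((x, y), w)) = 0 := fun c =>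
    fderiv_radial hF hp₀ hF0 (hdF.differentiableAt (by simp)) c
  have hsplit : ∀ c : ℂ, M ((c * x, c * y), 0) = - M (0, c * w) := by
    intro c
    have h1 := hrad c
    have h2 : c • ((x, y), w) = ((c * x, c * y), (0 : ℂ)) + ((0 : ℂ × ℂ), c * w) := by
      ext <;> simp
    rw [h2, map_add] at h1
    exact eq_neg_of_add_eq_zero_left h1
  have hformula : baseE M = Complex.normSq w * vertE M +
      jac (M ((-conj y, conj x), 0)) (M ((-(Complex.I * conj y), Complex.I * conj x), 0)) := by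
    have h1 := baseE_unitary M x y
    rw [hnb', one_mul] at h1
    rw [h1]
    congr 1
    have h2 := hsplit 1
    have h3 := hsplit Complex.I
    simp only [one_mul] at h2
    rw [h2, h3, ← vertE_scale]
    simp [jac_eq]
  have hVn := hV ((x, y), w) hp₀ hF0
  by_cases hΛ0 : Λ = 0
  · -- then `w = 0`
    have hw : w = 0 := by
      have h1 : fderiv ℝ phi ((x, y), w) (0, w) = 2 * Complex.normSq w := by
        apply fderiv_phi hp₀
        have h1 : (fun t : ℝ => phi (((x, y), w) + t • ((0 : ℂ × ℂ), w))) =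
            fun t : ℝ => Complex.normSq w * (1 + t) ^ 2 := by
          funext t
          unfold phi nb
          simp only [Prod.smul_mk, Prod.mk_add_mk, Complex.normSq_apply, Complex.real_smul]
          simp
          rw [hnbx]
          ring
        rw [h1]
        have h2 : HasDerivAt (fun t : ℝ => (1 + t) ^ 2) 2 0 := by
          have h3 : HasDerivAt (fun t : ℝ => (1 + t) ^ 2) (((2 : ℕ) : ℝ) * (1 + id (0 : ℝ)) ^ (2 - 1) * 1) 0 :=
            ((hasDerivAt_id (0 : ℝ)).const_add 1).pow 2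
          convert h3 using 1
          simp
        have h3 := h2.const_mul (Complex.normSq w)
        rw [mul_comm]
        exact h3
      rw [hΛ, hΛ0] at h1
      simp at h1
      exact h1
    subst hw
    have hz : ∀ᶠ q in 𝓝 (((x, y), 0) : X), F q = 0 → q.2 = 0 := by
      filter_upwards [hnear, isOpen_base.mem_nhds hp₀] with q hq hqb hq0
      have h1 := hq hq0
      rw [hphi0] at h1
      simp only [map_zero] at h1
      unfold phi at h1
      have h2 : Complex.normSq q.2 ≤ 0 := by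
        rcases le_or_gt (Complex.normSq q.2) 0 with h | h
        · exact h
        · exact absurd h1 (not_le.2 (div_pos h (nb_pos hqb)))
      exact Complex.normSq_eq_zero.1 (le_antisymm h2 (Complex.normSq_nonneg _))
    have hk := ker_le hFst hs0 (hasStrictFDerivAt_snd (𝕜 := ℝ) (E := ℂ × ℂ) (F := ℂ)) hF0 hz
    -- dimension count
    have hker : LinearMap.ker (M : X →ₗ[ℝ] ℂ) =
        LinearMap.ker (ContinuousLinearMap.snd ℝ (ℂ × ℂ) ℂ : X →ₗ[ℝ] ℂ) := by
      apply Submodule.eq_of_le_of_finrank_eq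
      · intro q hq
        exact hk q hq
      · have h1 := LinearMap.finrank_range_add_finrank_ker (M : X →ₗ[ℝ] ℂ)
        have h2 := LinearMap.finrank_range_add_finrank_ker
          (ContinuousLinearMap.snd ℝ (ℂ × ℂ) ℂ : X →ₗ[ℝ] ℂ)
        rw [LinearMap.range_eq_top.2 hs0] at h1
        rw [LinearMap.range_eq_top.2 (show Function.Surjective
          (ContinuousLinearMap.snd ℝ (ℂ × ℂ) ℂ : X →ₗ[ℝ] ℂ) from
            fun z => ⟨(0, z), rfl⟩)] at h2
        exact Nat.add_left_cancel (h1.trans h2.symm)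
    have hM0 : ∀ a : ℂ × ℂ, M (a, 0) = 0 := by
      intro a
      have : ((a, 0) : X) ∈ LinearMap.ker (M : X →ₗ[ℝ] ℂ) := by
        rw [hker]
        simp
      exact this
    have hb0 : baseE M = 0 := by
      unfold baseE
      rw [hM0, hM0, hM0, hM0]
      simp [jac_eq]
    have : 0 ≤ En ((x, y), 0) := by
      change 0 ≤ baseE M + vertE M
      rw [hb0, zero_add]
      exact hVn
    linarith
  · have hj : jac (M ((-conj y, conj x), 0))
        (M ((-(Complex.I * conj y), Complex.I * conj x), 0)) = 0 := by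
      apply jac_of_ker hΛ0
      · rw [← hΛ, hd1]
      · rw [← hΛ, hd2]
    have : 0 ≤ En ((x, y), w) := by
      change 0 ≤ baseE M + vertE M
      rw [hformula, hj, add_zero]
      exact add_nonneg (mul_nonneg (Complex.normSq_nonneg _) hVn) hVn
    linarith

end Pool.Agent.Helper905_SI
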