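import Pool.Agent.Helper905_SI.Chart

/-!
# Sections of `𝒪(d)` with positive zeros are isotopic to holomorphic ones
-/

set_option autoImplicit false

open scoped ContDiff ComplexConjugate Topology
open Set Filter

namespace Pool.Agent.Helper905_SI

/-- the zeros of a section with positive zeros which does not vanish at infinity -/
lemma finite_zeros {d : ℕ} {s : ℂ × ℂ → ℂ} (hs : IsSection d s)
    (hpos : ∀ u : ℂ × ℂ, u ≠ 0 → s u = 0 → 0 < secE (fderiv ℝ s u)) (h01 : s (0, 1) ≠ 0) :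
    (∃ R : ℝ, 0 < R ∧ ∀ z : ℂ, R ≤ ‖z‖ → s (1, z) ≠ 0) ∧ {z : ℂ | s (1, z) = 0}.Finite ∧
      ∀ z : ℂ, s (1, z) = 0 → 0 < jac (fderiv ℝ (fun z : ℂ => s (1, z)) z 1)
        (fderiv ℝ (fun z : ℂ => s (1, z)) z Complex.I) := by
  have hR : ∃ R : ℝ, 0 < R ∧ ∀ z : ℂ, R ≤ ‖z‖ → s (1, z) ≠ 0 := by
    have hc : ContinuousAt (fun x : ℂ => s (x, 1)) 0 := by
      have h1 : ContinuousAt s (0, 1) := hs.smooth.continuousOn.continuousAt
        (isOpen_ne0.mem_nhds (by simp))
      exact h1.comp (f := fun x : ℂ => (x, (1 : ℂ))) (by fun_prop)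
    have h2 := hc.eventually_ne h01
    obtain ⟨δ, hδ, hball⟩ := Metric.eventually_nhds_iff.1 h2
    refine ⟨2 / δ, by positivity, fun z hz h0 => ?_⟩
    have hz0 : 0 < ‖z‖ := lt_of_lt_of_le (by positivity) hz
    have hz1 : z ≠ 0 := norm_pos_iff.1 hz0
    have h3 := hs.hom z hz1 (z⁻¹, 1) (by simp)
    have h4 : z • ((z⁻¹, 1) : ℂ × ℂ) = (1, z) := by
      ext
      · simp [mul_inv_cancel₀ hz1]
      · simp
    rw [h4, h0] at h3
    have h5 : s (z⁻¹, 1) ≠ 0 := by
      apply hball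
      rw [dist_zero_right, norm_inv, inv_lt_comm₀ hz0 hδ]
      have h6 : 2 / δ ≤ ‖z‖ := hz
      have h7 : δ⁻¹ < 2 / δ := by
        rw [div_eq_mul_inv]
        have : 0 < δ⁻¹ := by positivity
        linarith
      linarith
    exact (mul_ne_zero (pow_ne_zero _ hz1) h5) h3.symm
  have hjac : ∀ z : ℂ, s (1, z) = 0 → 0 < jac (fderiv ℝ (fun z : ℂ => s (1, z)) z 1)
        (fderiv ℝ (fun z : ℂ => s (1, z)) z Complex.I) := by
    intro z hz
    have h1 := hpos (1, z) (by simp) hz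
    rw [hs.secE_chart one_ne_zero hz] at h1
    simp only [div_one, one_pow, map_one, inv_one, one_mul] at h1
    have h2 : 0 < 1 + Complex.normSq z := by
      have := Complex.normSq_nonneg z
      linarith
    exact (mul_pos_iff_of_pos_left h2).1 h1
  refine ⟨hR, ?_, hjac⟩
  obtain ⟨R, hR0, hR⟩ := hR
  by_contra hinf
  have hinf' : {z : ℂ | s (1, z) = 0}.Infinite := hinf
  have hcl : IsClosed {z : ℂ | s (1, z) = 0} := isClosed_eq hs.chart.continuous continuous_const
  have hcomp : IsCompact {z : ℂ | s (1, z) = 0} := by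
    refine (isCompact_closedBall (0 : ℂ) R).of_isClosed_subset hcl ?_
    intro z hz
    rw [mem_closedBall_zero_iff]
    by_contra hcon
    exact hR z (not_le.1 hcon).le hz
  obtain ⟨z, hz, hne⟩ := exists_nhds_ne_inf_principal_neBot hcomp hinf'
  have h1 := hjac z hz
  set M := fderiv ℝ (fun z : ℂ => s (1, z)) z with hM
  have hanti : ∃ C, AntilipschitzWith C M := by
    have hinj : Function.Injective M := by
      rw [injective_iff_map_eq_zero]
      intro w hw
      have h2 := jac_rot M w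
      rw [hw, jac_eq] at h2
      simp only [Complex.zero_re, Complex.zero_im, zero_mul, sub_zero] at h2
      have h3 := (mul_eq_zero.1 h2.symm).resolve_right h1.ne'
      exact Complex.normSq_eq_zero.1 h3
    have h4 := LinearMap.exists_antilipschitzWith (M : ℂ →ₗ[ℝ] ℂ) (LinearMap.ker_eq_bot.2 hinj)
    obtain ⟨K, -, hK⟩ := h4
    exact ⟨K, hK⟩
  have h2 := (hs.chart.contDiffAt.differentiableAt (by simp)).hasFDerivAt.eventually_ne
    (x := z) (c := (0 : ℂ)) hanti
  have h3 : ∀ᶠ y in 𝓝[≠] z ⊓ 𝓟 {z : ℂ | s (1, z) = 0}, False := by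
    have h4 : ∀ᶠ y in 𝓝[≠] z ⊓ 𝓟 {z : ℂ | s (1, z) = 0}, s (1, y) ≠ 0 :=
      h2.filter_mono inf_le_left
    have h5 : ∀ᶠ y in 𝓝[≠] z ⊓ 𝓟 {z : ℂ | s (1, z) = 0}, s (1, y) = 0 :=
      (eventually_principal.2 (fun y hy => hy)).filter_mono inf_le_right
    filter_upwards [h4, h5] with y a b using a b
  exact hne.ne (Filter.eventually_false_iff_eq_bot.1 h3)

/-- The path to a product of linear forms, for a section which does not vanish at `(0, 1)`. -/
theorem exists_path_aux {d : ℕ} {s : ℂ × ℂ → ℂ} (hs : IsSection d s)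
    (hpos : ∀ u : ℂ × ℂ, u ≠ 0 → s u = 0 → 0 < secE (fderiv ℝ s u)) (h01 : s (0, 1) ≠ 0) :
    ∃ S : ℝ → ℂ × ℂ → ℂ, SectionFamily d S ∧ (∀ u : ℂ × ℂ, u ≠ 0 → S 0 u = s u) ∧
      ∃ Z : Finset ℂ, Z.card = d ∧ ∀ u : ℂ × ℂ, u ≠ 0 → S 1 u = ∏ a ∈ Z, (u.2 - a * u.1) := by
  obtain ⟨⟨R₀, hR₀, hRz⟩, hfin, hjac⟩ := finite_zeros hs hpos h01
  set σ : ℂ → ℂ := fun z => s (1, z) with hσ
  set Z : Finset ℂ := hfin.toFinset with hZdef
  have hZ : ∀ z, σ z = 0 ↔ z ∈ Z := by
    intro z
    rw [hZdef, Set.Finite.mem_toFinset]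
    rfl
  have hZR : ∀ z ∈ Z, ‖z‖ < R₀ := by
    intro z hz
    by_contra hcon
    exact hRz z (not_lt.1 hcon) ((hZ z).2 hz)
  obtain ⟨f, hfs, hf1, hf2, hf3⟩ := exists_select hs.chart Z hZ (fun z hz => hjac z ((hZ z).2 hz))
    R₀ hZR
  have hf0 : ∀ z, f z ≠ 0 := by
    intro z hz
    by_cases h : z ∈ Z
    · have := hf3 z h
      rw [hz] at this
      simp at this
    · have := hf2 z h
      rw [hz] at this
      simp at this
  have hPne : ∀ z, z ∉ Z → ∏ a ∈ Z, (z - a) ≠ 0 := by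
    intro z hz
    rw [Finset.prod_ne_zero_iff]
    intro a ha h
    apply hz
    rw [sub_eq_zero.1 h]
    exact ha
  set Ph : ℂ × ℂ → ℂ := fun u => ∏ a ∈ Z, (u.2 - a * u.1) with hPh
  set G : ℂ × ℂ → ℂ := fun u => if u.1 = 0 then s u / u.2 ^ Z.card
    else u.1 ^ d * (u.1 ^ Z.card)⁻¹ * f (u.2 / u.1) with hG
  have hPhx : ∀ u : ℂ × ℂ, u.1 ≠ 0 → Ph u = u.1 ^ Z.card * ∏ a ∈ Z, (u.2 / u.1 - a) := by
    intro u hu
    simp only [hPh]
    rw [← Finset.prod_const, ← Finset.prod_mul_distrib]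
    apply Finset.prod_congr rfl
    intro a _
    field_simp
  have hPh0 : ∀ u : ℂ × ℂ, u.1 = 0 → Ph u = u.2 ^ Z.card := by
    intro u hu
    simp only [hPh]
    rw [← Finset.prod_const]
    apply Finset.prod_congr rfl
    intro a _
    rw [hu]
    ring
  -- the two descriptions of `G`
  set W : Set (ℂ × ℂ) := {u | R₀ * ‖u.1‖ < ‖u.2‖} with hW
  have hWo : IsOpen W := isOpen_lt (by fun_prop) (by fun_prop)
  have hWne : ∀ u ∈ W, u.2 ≠ 0 := by
    intro u hu h0
    have hu' : R₀ * ‖u.1‖ < ‖u.2‖ := hu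
    rw [h0, norm_zero] at hu'
    have := mul_nonneg hR₀.le (norm_nonneg u.1)
    linarith
  have hPhW : ∀ u ∈ W, Ph u ≠ 0 := by
    intro u hu
    simp only [hPh]
    rw [Finset.prod_ne_zero_iff]
    intro a ha h
    have hu' : R₀ * ‖u.1‖ < ‖u.2‖ := hu
    have h1 : ‖u.2‖ = ‖a‖ * ‖u.1‖ := by
      rw [sub_eq_zero.1 h, norm_mul]
    have h2 := hZR a ha
    have h3 : ‖a‖ * ‖u.1‖ ≤ R₀ * ‖u.1‖ := mul_le_mul_of_nonneg_right h2.le (norm_nonneg _)
    linarith
  have hGW : ∀ u ∈ W, G u = s u / Ph u := by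
    intro u hu
    by_cases h : u.1 = 0
    · simp only [hG, if_pos h]
      rw [hPh0 u h]
    · simp only [hG, if_neg h]
      have hu' : R₀ * ‖u.1‖ < ‖u.2‖ := hu
      have h1 : R₀ ≤ ‖u.2 / u.1‖ := by
        rw [norm_div, le_div_iff₀ (norm_pos_iff.2 h)]
        exact hu'.le
      have h2 : s u = u.1 ^ d * s (1, u.2 / u.1) := hs.eq_chart (x := u.1) (y := u.2) h
      rw [hf1 _ h1, hPhx u h, h2]
      have h3 : ∏ a ∈ Z, (u.2 / u.1 - a) ≠ 0 := by
        have := hPhW u hu
        rw [hPhx u h] at this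
        exact right_ne_zero_of_mul this
      have h4 : u.1 ^ Z.card ≠ 0 := pow_ne_zero _ h
      field_simp
  have hcover : ∀ u : ℂ × ℂ, u ≠ 0 → u.1 ≠ 0 ∨ u ∈ W := by
    intro u hu
    by_cases h : u.1 = 0
    · right
      have h2 : u.2 ≠ 0 := fun h2 => hu (Prod.ext h h2)
      change R₀ * ‖u.1‖ < ‖u.2‖
      rw [h, norm_zero, mul_zero]
      exact norm_pos_iff.2 h2
    · exact Or.inl h
  have hs0y : ∀ u : ℂ × ℂ, u ≠ 0 → u.1 = 0 → s u ≠ 0 := by
    intro u hu h
    have h2 : u.2 ≠ 0 := fun h2 => hu (Prod.ext h h2)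
    have h3 := hs.hom u.2 h2 (0, 1) (by simp)
    have h4 : u.2 • ((0, 1) : ℂ × ℂ) = u := by
      ext
      · simp [h]
      · simp
    rw [h4] at h3
    rw [h3]
    exact mul_ne_zero (pow_ne_zero _ h2) h01
  have hGne : ∀ u : ℂ × ℂ, u ≠ 0 → G u ≠ 0 := by
    intro u hu
    by_cases h : u.1 = 0
    · simp only [hG, if_pos h]
      have h2 : u.2 ≠ 0 := fun h2 => hu (Prod.ext h h2)
      exact div_ne_zero (hs0y u hu h) (pow_ne_zero _ h2)
    · simp only [hG, if_neg h]
      exact mul_ne_zero (mul_ne_zero (pow_ne_zero _ h) (inv_ne_zero (pow_ne_zero _ h))) (hf0 _)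
  have hGhom : ∀ c : ℂ, c ≠ 0 → ∀ u : ℂ × ℂ, u ≠ 0 → G (c • u) = c ^ d * (c ^ Z.card)⁻¹ * G u := by
    intro c hc u hu
    by_cases h : u.1 = 0
    · have h' : (c • u).1 = 0 := by simp [h]
      simp only [hG, if_pos h, if_pos h']
      rw [hs.hom c hc u hu]
      simp only [Prod.smul_snd, smul_eq_mul, mul_pow]
      have h2 : u.2 ≠ 0 := fun h2 => hu (Prod.ext h h2)
      have h3 : u.2 ^ Z.card ≠ 0 := pow_ne_zero _ h2
      have h4 : c ^ Z.card ≠ 0 := pow_ne_zero _ hc
      field_simp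
    · have h' : (c • u).1 ≠ 0 := by
        simp only [Prod.smul_fst, smul_eq_mul]
        exact mul_ne_zero hc h
      simp only [hG, if_neg h, if_neg h']
      simp only [Prod.smul_fst, Prod.smul_snd, smul_eq_mul, mul_pow]
      rw [mul_div_mul_left _ _ hc, mul_inv]
      ring
  have hGsm : ContDiffOn ℝ ∞ G {u | u ≠ 0} := by
    intro u hu
    apply ContDiffAt.contDiffWithinAt
    rcases hcover u hu with h | h
    · have hopen : IsOpen {u : ℂ × ℂ | u.1 ≠ 0} := isOpen_ne.preimage continuous_fst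
      have h1 : ContDiffOn ℝ ∞ (fun u : ℂ × ℂ => u.1 ^ d * (u.1 ^ Z.card)⁻¹ * f (u.2 / u.1))
          {u | u.1 ≠ 0} := by
        have hfst : ContDiffOn ℝ ∞ (fun u : ℂ × ℂ => u.1) {u | u.1 ≠ 0} := by fun_prop
        have hsnd : ContDiffOn ℝ ∞ (fun u : ℂ × ℂ => u.2) {u | u.1 ≠ 0} := by fun_prop
        have hdiv : ContDiffOn ℝ ∞ (fun u : ℂ × ℂ => u.2 / u.1) {u | u.1 ≠ 0} := by
          simp only [div_eq_mul_inv]
          exact hsnd.mul (hfst.inv (fun u hu => hu))
        exact ((hfst.pow d).mul ((hfst.pow _).inv (fun u hu => pow_ne_zero _ hu))).mul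
          (hfs.comp_contDiffOn hdiv)
      refine (h1.contDiffAt (hopen.mem_nhds h)).congr_of_eventuallyEq ?_
      filter_upwards [hopen.mem_nhds h] with v hv
      simp only [hG]
      rw [if_neg hv]
    · have h1 : ContDiffAt ℝ ∞ (fun u => s u * (Ph u)⁻¹) u := by
        apply ContDiffAt.mul (hs.smooth.contDiffAt (isOpen_ne0.mem_nhds hu))
        apply ContDiffAt.inv _ (hPhW u h)
        apply ContDiff.contDiffAt
        simp only [hPh]
        exact contDiff_prod (fun a _ => contDiff_snd.sub (contDiff_const.mul contDiff_fst))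
      refine h1.congr_of_eventuallyEq ?_
      filter_upwards [hWo.mem_nhds h] with v hv
      rw [hGW v hv, div_eq_mul_inv]
  -- logarithms
  have hGc1 : Continuous fun z : ℂ => G (1, z) := by
    rw [← continuousOn_univ]
    exact hGsm.continuousOn.comp (f := fun z : ℂ => ((1 : ℂ), z)) (by fun_prop)
      (fun z _ => by simp)
  have hGc2 : Continuous fun z : ℂ => G (z, 1) := by
    rw [← continuousOn_univ]
    exact hGsm.continuousOn.comp (f := fun z : ℂ => (z, (1 : ℂ))) (by fun_prop)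
      (fun z _ => by simp)
  obtain ⟨a, hac, ha⟩ := exists_log hGc1 (fun z => hGne _ (by simp))
  obtain ⟨b, hbc, hb⟩ := exists_log hGc2 (fun z => hGne _ (by simp))
  have hab : ∀ z : ℂ, z ≠ 0 → Complex.exp (a z) =
      z ^ ((d : ℤ) - (Z.card : ℤ)) * Complex.exp (b z⁻¹) := by
    intro z hz
    rw [ha, hb]
    have h1 := hGhom z hz (z⁻¹, 1) (by simp)
    have h4 : z • ((z⁻¹, 1) : ℂ × ℂ) = (1, z) := by
      ext
      · simp [mul_inv_cancel₀ hz]
      · simp
    rw [h4] at h1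
    rw [h1, zpow_sub₀ hz, zpow_natCast, zpow_natCast, div_eq_mul_inv]
  obtain ⟨hk, c, hc, hcc⟩ := winding hac hbc hab
  have hcard : Z.card = d := by omega
  have hGhom' : ∀ c : ℂ, c ≠ 0 → ∀ u : ℂ × ℂ, u ≠ 0 → G (c • u) = G u := by
    intro c hc u hu
    rw [hGhom c hc u hu, hcard, mul_inv_cancel₀ (pow_ne_zero _ hc), one_mul]
  -- the logarithm of `G`
  set H : ℂ × ℂ → ℂ := fun u => if u.1 = 0 then b 0 + c else a (u.2 / u.1) with hH
  have hH2 : ∀ u : ℂ × ℂ, u.2 ≠ 0 → H u = b (u.1 / u.2) + c := by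
    intro u hu
    by_cases h : u.1 = 0
    · simp only [hH, if_pos h]
      rw [h, zero_div]
    · simp only [hH, if_neg h]
      rw [hcc _ (div_ne_zero hu h), inv_div]
  have hHexp : ∀ u : ℂ × ℂ, u ≠ 0 → Complex.exp (H u) = G u := by
    intro u hu
    by_cases h : u.1 = 0
    · have h2 : u.2 ≠ 0 := fun h2 => hu (Prod.ext h h2)
      simp only [hH, if_pos h]
      rw [Complex.exp_add, hc, mul_one, hb]
      have h3 := hGhom' u.2 h2 (0, 1) (by simp)
      have h4 : u.2 • ((0, 1) : ℂ × ℂ) = u := by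
        ext
        · simp [h]
        · simp
      rw [h4] at h3
      exact h3.symm
    · simp only [hH, if_neg h]
      rw [ha]
      have h3 := hGhom' u.1 h (1, u.2 / u.1) (by simp)
      have h4 : u.1 • ((1, u.2 / u.1) : ℂ × ℂ) = u := by
        ext
        · simp
        · simp only [Prod.smul_mk, smul_eq_mul]
          field_simp
      rw [h4] at h3
      exact h3.symm
  have hHcont : ContinuousOn H {u | u ≠ 0} := by
    intro u hu
    apply ContinuousAt.continuousWithinAt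
    by_cases h : u.1 = 0
    · have h2 : u.2 ≠ 0 := fun h2 => hu (Prod.ext h h2)
      have hopen : IsOpen {u : ℂ × ℂ | u.2 ≠ 0} := isOpen_ne.preimage continuous_snd
      have h3 : ContinuousAt (fun u : ℂ × ℂ => b (u.1 / u.2) + c) u := by
        apply ContinuousAt.add _ continuousAt_const
        exact hbc.continuousAt.comp (continuousAt_fst.div continuousAt_snd h2)
      refine h3.congr ?_
      filter_upwards [hopen.mem_nhds h2] with v hv
      exact (hH2 v hv).symm
    · have hopen : IsOpen {u : ℂ × ℂ | u.1 ≠ 0} := isOpen_ne.preimage continuous_fst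
      have h3 : ContinuousAt (fun u : ℂ × ℂ => a (u.2 / u.1)) u :=
        hac.continuousAt.comp (continuousAt_snd.div continuousAt_fst h)
      refine h3.congr ?_
      filter_upwards [hopen.mem_nhds h] with v hv
      simp only [hH]
      rw [if_neg hv]
  have hHsm : ContDiffOn ℝ ∞ H {u | u ≠ 0} := smooth_of_exp isOpen_ne0 hHcont hGsm hHexp
  have hHhom : ∀ c : ℂ, c ≠ 0 → ∀ u : ℂ × ℂ, u ≠ 0 → H (c • u) = H u := by
    intro c hc u hu
    by_cases h : u.1 = 0
    · have h' : (c • u).1 = 0 := by simp [h]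
      simp only [hH, if_pos h, if_pos h']
    · have h' : (c • u).1 ≠ 0 := by
        simp only [Prod.smul_fst, smul_eq_mul]
        exact mul_ne_zero hc h
      simp only [hH, if_neg h, if_neg h']
      simp only [Prod.smul_fst, Prod.smul_snd, smul_eq_mul]
      rw [mul_div_mul_left _ _ hc]
  -- the section `Q = Ph * G`
  have hPhhom : ∀ c : ℂ, ∀ u : ℂ × ℂ, Ph (c • u) = c ^ d * Ph u := by
    intro c u
    simp only [hPh]
    rw [← hcard, ← Finset.prod_const, ← Finset.prod_mul_distrib]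
    apply Finset.prod_congr rfl
    intro a _
    simp only [Prod.smul_fst, Prod.smul_snd, smul_eq_mul]
    ring
  have hPhsm : ContDiff ℝ ∞ Ph := by
    simp only [hPh]
    exact contDiff_prod (fun a _ => contDiff_snd.sub (contDiff_const.mul contDiff_fst))
  set S : ℝ → ℂ × ℂ → ℂ := fun t u => ((1 - (t : ℂ)) * s u + t * (Ph u * G u)) *
    Complex.exp (-(t * H u)) with hS
  have hShom : ∀ t, ∀ c : ℂ, c ≠ 0 → ∀ u : ℂ × ℂ, u ≠ 0 → S t (c • u) = c ^ d * S t u := by
    intro t c hc u hu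
    simp only [hS]
    rw [hs.hom c hc u hu, hPhhom, hGhom' c hc u hu, hHhom c hc u hu]
    ring
  have hSsm : ContDiffOn ℝ ∞ (fun q : ℝ × (ℂ × ℂ) => S q.1 q.2) {q | q.2 ≠ 0} := by
    have ht : ContDiffOn ℝ ∞ (fun q : ℝ × (ℂ × ℂ) => (q.1 : ℂ)) {q | q.2 ≠ 0} :=
      (Complex.ofRealCLM.contDiff.comp contDiff_fst).contDiffOn
    have hlift : ∀ g : ℂ × ℂ → ℂ, ContDiffOn ℝ ∞ g {u | u ≠ 0} →
        ContDiffOn ℝ ∞ (fun q : ℝ × (ℂ × ℂ) => g q.2) {q | q.2 ≠ 0} := fun g hg =>
      hg.comp (f := fun q : ℝ × (ℂ × ℂ) => q.2) (by fun_prop) (fun _ hq => hq)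
    simp only [hS]
    exact (((contDiffOn_const.sub ht).mul (hlift _ hs.smooth)).add
      (ht.mul ((hlift _ hPhsm.contDiffOn).mul (hlift _ hGsm)))).mul
      ((ht.mul (hlift _ hHsm)).neg.cexp)
  have hSsec : ∀ t, IsSection d (S t) := fun t =>
    ⟨hShom t, hSsm.comp (f := fun u : ℂ × ℂ => (t, u)) (by fun_prop) (fun _ hu => hu)⟩
  refine ⟨S, ⟨hShom, hSsm, ?_⟩, ?_, Z, hcard, ?_⟩
  · intro t ht u hu h0
    have h1 : (1 - (t : ℂ)) * s u + t * (Ph u * G u) = 0 := by
      simp only [hS] at h0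
      exact (mul_eq_zero.1 h0).resolve_right (Complex.exp_ne_zero _)
    have hux : u.1 ≠ 0 := by
      intro h
      have hW' : u ∈ W := (hcover u hu).resolve_left (not_not.2 h)
      rw [hGW u hW', mul_div_cancel₀ _ (hPhW u hW')] at h1
      have h2 : s u = 0 := by linear_combination h1
      exact hs0y u hu h h2
    obtain ⟨x, y⟩ := u
    have hx : x ≠ 0 := hux
    set z : ℂ := y / x with hz
    have hsxy : s (x, y) = x ^ d * σ z := hs.eq_chart hx
    have hQxy : Ph (x, y) * G (x, y) = x ^ d * ((∏ a ∈ Z, (z - a)) * f z) := by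
      rw [hPhx (x, y) hx]
      simp only [hG, if_neg hx]
      have h4 : x ^ Z.card ≠ 0 := pow_ne_zero _ hx
      change (x ^ Z.card * ∏ a ∈ Z, (z - a)) * (x ^ d * (x ^ Z.card)⁻¹ * f z) = _
      generalize ∏ a ∈ Z, (z - a) = Pz
      generalize f z = fz
      field_simp
    have h2 : (1 - (t : ℂ)) * σ z + t * ((∏ a ∈ Z, (z - a)) * f z) = 0 := by
      rw [hsxy, hQxy] at h1
      have h3 : x ^ d * ((1 - (t : ℂ)) * σ z + t * ((∏ a ∈ Z, (z - a)) * f z)) = 0 := by
        linear_combination h1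
      exact (mul_eq_zero.1 h3).resolve_left (pow_ne_zero _ hx)
    have hzZ : z ∈ Z := by
      by_contra hzZ
      have h3 := hf2 z hzZ
      have h4 : 0 < Complex.normSq (σ z) := Complex.normSq_pos.2 (fun h => hzZ ((hZ z).1 h))
      have h5 : (σ z * conj ((1 - (t : ℂ)) * σ z + t * ((∏ a ∈ Z, (z - a)) * f z))).re = 0 := by
        rw [h2, map_zero, mul_zero, Complex.zero_re]
      have h6 : σ z * conj ((1 - (t : ℂ)) * σ z + t * ((∏ a ∈ Z, (z - a)) * f z)) =
          ((1 - t : ℝ) : ℂ) * ((Complex.normSq (σ z) : ℝ) : ℂ) +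
          ((t : ℝ) : ℂ) * (σ z * conj ((∏ a ∈ Z, (z - a)) * f z)) := by
        rw [← Complex.mul_conj]
        simp only [map_add, map_mul, map_sub, map_one, Complex.conj_ofReal]
        push_cast
        ring
      rw [h6, Complex.add_re, Complex.re_ofReal_mul, Complex.re_ofReal_mul, Complex.ofReal_re] at h5
      have h7 : 0 ≤ (1 - t) * Complex.normSq (σ z) := mul_nonneg (by linarith [ht.2]) h4.le
      rcases ht.1.eq_or_lt with h8 | h8
      · rw [← h8] at h5
        simp only [sub_zero, one_mul, zero_mul, add_zero] at h5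
        exact h4.ne' h5
      · have h9 : 0 < t * (σ z * conj ((∏ a ∈ Z, (z - a)) * f z)).re := mul_pos h8 h3
        linarith
    -- the derivative in the chart
    rw [(hSsec t).secE_chart hx h0]
    have hchart : HasFDerivAt (fun w : ℂ => S t (1, w))
        (Complex.exp (-(t * H (1, z))) • ((1 - (t : ℂ)) • fderiv ℝ σ z +
          ((t : ℂ) * ((∏ a ∈ Z.erase z, (z - a)) * f z)) • ContinuousLinearMap.id ℝ ℂ)) z := by
      have e1 : HasFDerivAt σ (fderiv ℝ σ z) z :=
        (hs.chart.contDiffAt.differentiableAt (by simp)).hasFDerivAt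
      have e2 : HasFDerivAt (fun w : ℂ => (∏ a ∈ Z, (w - a)) * f w)
          (((∏ a ∈ Z.erase z, (z - a)) * f z) • ContinuousLinearMap.id ℝ ℂ) z := by
        have e3 : DifferentiableAt ℝ (fun w : ℂ => (∏ a ∈ Z.erase z, (w - a)) * f w) z := by
          have : ContDiff ℝ ∞ (fun w : ℂ => (∏ a ∈ Z.erase z, (w - a)) * f w) :=
            (contDiff_prod (fun a _ => contDiff_id.sub contDiff_const)).mul hfs
          exact this.contDiffAt.differentiableAt (by simp)
        have e4 : HasFDerivAt (fun w : ℂ => w - z) (ContinuousLinearMap.id ℝ ℂ) z :=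
          (hasFDerivAt_id z).sub_const z
        have e5 := e4.mul e3.hasFDerivAt
        have e6 : (fun w : ℂ => (w - z) * ((∏ a ∈ Z.erase z, (w - a)) * f w)) =
            fun w : ℂ => (∏ a ∈ Z, (w - a)) * f w := by
          funext w
          rw [← Finset.mul_prod_erase Z _ hzZ]
          ring
        rw [sub_self, zero_smul, zero_add] at e5
        rw [← e6]
        exact e5
      have e8 : HasFDerivAt (fun w : ℂ => (1 - (t : ℂ)) * σ w + t * ((∏ a ∈ Z, (w - a)) * f w))
          ((1 - (t : ℂ)) • fderiv ℝ σ z +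
          ((t : ℂ) * ((∏ a ∈ Z.erase z, (z - a)) * f z)) • ContinuousLinearMap.id ℝ ℂ) z := by
        have := (e1.const_mul (1 - (t : ℂ))).add (e2.const_mul (t : ℂ))
        rw [smul_smul] at this
        exact this
      have hEd : DifferentiableAt ℝ (fun w : ℂ => Complex.exp (-(t * H (1, w)))) z := by
        have h5 : ContDiff ℝ ∞ (fun w : ℂ => H (1, w)) := by
          rw [← contDiffOn_univ]
          exact hHsm.comp (f := fun w : ℂ => ((1 : ℂ), w)) (by fun_prop) (fun w _ => by simp)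
        have h6 : ContDiff ℝ ∞ (fun w : ℂ => Complex.exp (-(t * H (1, w)))) :=
          (contDiff_const.mul h5).neg.cexp
        exact h6.contDiffAt.differentiableAt (by simp)
      have e9 := e8.mul hEd.hasFDerivAt
      have e10 : (fun w : ℂ => S t (1, w)) = fun w : ℂ =>
          ((1 - (t : ℂ)) * σ w + t * ((∏ a ∈ Z, (w - a)) * f w)) *
            Complex.exp (-(t * H (1, w))) := by
        funext w
        simp only [hS, hG, hPh, one_ne_zero, if_false, one_pow, inv_one, one_mul, div_one, mul_one]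
        rfl
      rw [e10]
      rw [h2, zero_smul, zero_add] at e9
      exact e9
    rw [show fderiv ℝ (fun w : ℂ => S t (1, w)) (y / x) = _ from hchart.fderiv]
    have hfin : 0 < jac ((1 - (t : ℂ)) * fderiv ℝ σ z 1 +
        (t : ℂ) * ((∏ a ∈ Z.erase z, (z - a)) * f z) * 1)
        ((1 - (t : ℂ)) * fderiv ℝ σ z Complex.I +
        (t : ℂ) * ((∏ a ∈ Z.erase z, (z - a)) * f z) * Complex.I) := by
      have h3 := pos_mix ht (hf3 z hzZ)
      set γ := (∏ a ∈ Z.erase z, (z - a)) * f z with hγ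
      set α := linP (fderiv ℝ σ z) with hα
      set β := antiP (fderiv ℝ σ z) with hβ
      rw [lin_anti (fderiv ℝ σ z) 1, lin_anti (fderiv ℝ σ z) Complex.I, ← hα, ← hβ]
      have h4 : jac ((1 - (t : ℂ)) * (α * 1 + β * conj 1) + (t : ℂ) * γ * 1)
          ((1 - (t : ℂ)) * (α * Complex.I + β * conj Complex.I) + (t : ℂ) * γ * Complex.I) =
          Complex.normSq ((1 - t) * α + t * γ) - (1 - t) ^ 2 * Complex.normSq β := by
        simp only [jac_eq, Complex.normSq_apply]
        simp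
        ring
      rw [h4]
      exact h3
    have hx1 : 0 < Complex.normSq (x ^ d) := Complex.normSq_pos.2 (pow_ne_zero _ hx)
    have hx2 : 0 < Complex.normSq x⁻¹ := Complex.normSq_pos.2 (inv_ne_zero hx)
    have hE1 : 0 < Complex.normSq (Complex.exp (-(t * H (1, z)))) :=
      Complex.normSq_pos.2 (Complex.exp_ne_zero _)
    have hy1 : 0 < 1 + Complex.normSq (y / x) := by
      have := Complex.normSq_nonneg (y / x)
      linarith
    have hj : jac ((Complex.exp (-(t * H (1, z))) • ((1 - (t : ℂ)) • fderiv ℝ σ z +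
          ((t : ℂ) * ((∏ a ∈ Z.erase z, (z - a)) * f z)) • ContinuousLinearMap.id ℝ ℂ)) 1)
        ((Complex.exp (-(t * H (1, z))) • ((1 - (t : ℂ)) • fderiv ℝ σ z +
          ((t : ℂ) * ((∏ a ∈ Z.erase z, (z - a)) * f z)) • ContinuousLinearMap.id ℝ ℂ)) Complex.I)
        = Complex.normSq (Complex.exp (-(t * H (1, z)))) *
          jac ((1 - (t : ℂ)) * fderiv ℝ σ z 1 +
        (t : ℂ) * ((∏ a ∈ Z.erase z, (z - a)) * f z) * 1)
        ((1 - (t : ℂ)) * fderiv ℝ σ z Complex.I +
        (t : ℂ) * ((∏ a ∈ Z.erase z, (z - a)) * f z) * Complex.I) := by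
      rw [← jac_mul]
      rfl
    rw [hj]
    positivity
  · intro u hu
    simp only [hS]
    simp
  · intro u hu
    simp only [hS]
    rw [← hHexp u hu]
    simp only [Complex.ofReal_one, sub_self, zero_mul, zero_add, one_mul]
    rw [mul_assoc, ← Complex.exp_add, add_neg_cancel, Complex.exp_zero, mul_one]

end Pool.Agent.Helper905_SI
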