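import Pool.Agent.Helper905_SI.Cyc

/-!
# Making a section holomorphic near its zeros
-/

set_option autoImplicit false

open scoped ContDiff ComplexConjugate Topology Manifold
open Set Filter

namespace Pool.Agent.Helper905_SI

/-- complex linear part of a real linear map -/
noncomputable def linP (M : ℂ →L[ℝ] ℂ) : ℂ := (M 1 - Complex.I * M Complex.I) / 2

/-- antilinear part of a real linear map -/
noncomputable def antiP (M : ℂ →L[ℝ] ℂ) : ℂ := (M 1 + Complex.I * M Complex.I) / 2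

lemma lin_anti (M : ℂ →L[ℝ] ℂ) (h : ℂ) : M h = linP M * h + antiP M * conj h := by
  have h1 : M h = (h.re : ℂ) * M 1 + (h.im : ℂ) * M Complex.I := by
    rw [← Complex.real_smul, ← Complex.real_smul, ← map_smul, ← map_smul, ← map_add]
    congr 1
    simp [Complex.re_add_im]
  have h2 : h = (h.re : ℂ) + h.im * Complex.I := (Complex.re_add_im h).symm
  have h3 : conj h = (h.re : ℂ) - h.im * Complex.I := by
    apply Complex.ext <;> simp
  have hI : Complex.I * Complex.I = -1 := Complex.I_mul_I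
  unfold linP antiP
  rw [h1, h3]
  linear_combination (-(M 1 - Complex.I * M Complex.I) / 2) * h2 +
    ((h.im : ℂ) * M Complex.I) * hI

lemma jac_lin_anti (M : ℂ →L[ℝ] ℂ) :
    jac (M 1) (M Complex.I) = Complex.normSq (linP M) - Complex.normSq (antiP M) := by
  unfold linP antiP
  simp only [jac_eq, Complex.normSq_apply]
  simp
  ring

lemma convex_sel (A B C : ℂ) : Convex ℝ {f : ℂ | ‖A‖ * ‖B * f‖ < (C * conj (B * f)).re} := by
  intro f hf g hg a b ha hb hab
  have hf' : ‖A‖ * ‖B * f‖ < (C * conj (B * f)).re := hf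
  have hg' : ‖A‖ * ‖B * g‖ < (C * conj (B * g)).re := hg
  change ‖A‖ * ‖B * (a • f + b • g)‖ < (C * conj (B * (a • f + b • g))).re
  have h1 : (C * conj (B * (a • f + b • g))).re =
      a * (C * conj (B * f)).re + b * (C * conj (B * g)).re := by
    have : C * conj (B * (a • f + b • g)) =
        (a : ℂ) * (C * conj (B * f)) + (b : ℂ) * (C * conj (B * g)) := by
      simp only [Complex.real_smul, map_mul, map_add, Complex.conj_ofReal]
      ring
    rw [this, Complex.add_re, Complex.re_ofReal_mul, Complex.re_ofReal_mul]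
  have h2 : ‖B * (a • f + b • g)‖ ≤ a * ‖B * f‖ + b * ‖B * g‖ := by
    have : B * (a • f + b • g) = a • (B * f) + b • (B * g) := by
      simp only [Complex.real_smul]
      ring
    rw [this]
    refine (norm_add_le _ _).trans ?_
    rw [norm_smul, norm_smul, Real.norm_of_nonneg ha, Real.norm_of_nonneg hb]
  rw [h1]
  have h3 : ‖A‖ * ‖B * (a • f + b • g)‖ ≤ ‖A‖ * (a * ‖B * f‖ + b * ‖B * g‖) :=
    mul_le_mul_of_nonneg_left h2 (norm_nonneg _)
  rcases ha.eq_or_lt with h4 | h4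
  · have hb1 : b = 1 := by linarith
    subst h4
    subst hb1
    linarith
  · have h5 : a * (‖A‖ * ‖B * f‖) < a * (C * conj (B * f)).re := mul_lt_mul_of_pos_left hf' h4
    have h6 : b * (‖A‖ * ‖B * g‖) ≤ b * (C * conj (B * g)).re := mul_le_mul_of_nonneg_left hg'.le hb
    linarith

/-- near a positive zero -/
lemma near_zero {σ : ℂ → ℂ} {x : ℂ} (hσ : DifferentiableAt ℝ σ x) (h0 : σ x = 0)
    (hpos : 0 < jac (fderiv ℝ σ x 1) (fderiv ℝ σ x Complex.I)) :
    ∀ᶠ y in 𝓝 x, y ≠ x → 0 < (σ y * conj (linP (fderiv ℝ σ x) * (y - x))).re := by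
  set M := fderiv ℝ σ x with hM
  rw [jac_lin_anti] at hpos
  have hlt : ‖antiP M‖ < ‖linP M‖ := by
    rw [Complex.normSq_eq_norm_sq, Complex.normSq_eq_norm_sq] at hpos
    nlinarith [norm_nonneg (antiP M), norm_nonneg (linP M)]
  have hα : 0 < ‖linP M‖ := (norm_nonneg _).trans_lt hlt
  have hε : 0 < (‖linP M‖ - ‖antiP M‖) / 2 := by linarith
  have h1 := (hσ.hasFDerivAt.isLittleO.def hε)
  filter_upwards [h1] with y hy hne
  have hn : 0 < ‖y - x‖ := norm_pos_iff.2 (sub_ne_zero.2 hne)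
  rw [← hM, h0, sub_zero] at hy
  set e : ℂ := σ y - M (y - x) with he
  have h2 : σ y = linP M * (y - x) + antiP M * conj (y - x) + e := by
    rw [he, lin_anti M (y - x)]
    ring
  have h3 : σ y * conj (linP M * (y - x)) = ((Complex.normSq (linP M * (y - x)) : ℝ) : ℂ) +
      (antiP M * conj (y - x) * conj (linP M * (y - x)) + e * conj (linP M * (y - x))) := by
    rw [h2, ← Complex.mul_conj]
    ring
  rw [h3, Complex.add_re, Complex.ofReal_re, Complex.normSq_eq_norm_sq, norm_mul]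
  have h4 : |(antiP M * conj (y - x) * conj (linP M * (y - x)) +
      e * conj (linP M * (y - x))).re| ≤ ‖antiP M‖ * ‖y - x‖ * (‖linP M‖ * ‖y - x‖) +
      (‖linP M‖ - ‖antiP M‖) / 2 * ‖y - x‖ * (‖linP M‖ * ‖y - x‖) := by
    refine (Complex.abs_re_le_norm _).trans ((norm_add_le _ _).trans ?_)
    rw [norm_mul, norm_mul, norm_mul, Complex.norm_conj, Complex.norm_conj, norm_mul]
    have : ‖e‖ * (‖linP M‖ * ‖y - x‖) ≤
        (‖linP M‖ - ‖antiP M‖) / 2 * ‖y - x‖ * (‖linP M‖ * ‖y - x‖) :=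
      mul_le_mul_of_nonneg_right hy (by positivity)
    linarith
  have h5 := neg_le_of_abs_le h4
  have h6 : 0 < (‖linP M‖ - ‖antiP M‖) / 2 * ‖y - x‖ * (‖linP M‖ * ‖y - x‖) := by positivity
  nlinarith [h5, h6]

theorem exists_select {σ : ℂ → ℂ} (hσ : ContDiff ℝ ∞ σ) (Z : Finset ℂ)
    (hZ : ∀ z, σ z = 0 ↔ z ∈ Z)
    (hpos : ∀ z ∈ Z, 0 < jac (fderiv ℝ σ z 1) (fderiv ℝ σ z Complex.I))
    (R : ℝ) (hR : ∀ z ∈ Z, ‖z‖ < R) :
    ∃ f : ℂ → ℂ, ContDiff ℝ ∞ f ∧ (∀ z, R ≤ ‖z‖ → f z = σ z / ∏ a ∈ Z, (z - a)) ∧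
      (∀ z, z ∉ Z → 0 < (σ z * conj ((∏ a ∈ Z, (z - a)) * f z)).re) ∧
      (∀ z ∈ Z, ‖antiP (fderiv ℝ σ z)‖ * ‖(∏ a ∈ Z.erase z, (z - a)) * f z‖ <
        (linP (fderiv ℝ σ z) * conj ((∏ a ∈ Z.erase z, (z - a)) * f z)).re) := by
  classical
  set t : ℂ → Set ℂ := fun z =>
    if z ∈ Z then {f : ℂ | ‖antiP (fderiv ℝ σ z)‖ * ‖(∏ a ∈ Z.erase z, (z - a)) * f‖ <
        (linP (fderiv ℝ σ z) * conj ((∏ a ∈ Z.erase z, (z - a)) * f)).re}
    else if R ≤ ‖z‖ then {σ z / ∏ a ∈ Z, (z - a)}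
    else {f : ℂ | ‖(0 : ℂ)‖ * ‖(∏ a ∈ Z, (z - a)) * f‖ <
        (σ z * conj ((∏ a ∈ Z, (z - a)) * f)).re} with ht
  have hprod : ∀ z, z ∉ Z → ∏ a ∈ Z, (z - a) ≠ 0 := by
    intro z hz
    rw [Finset.prod_ne_zero_iff]
    intro a ha h
    apply hz
    rw [sub_eq_zero.1 h]
    exact ha
  have hprod' : ∀ z, ∏ a ∈ Z.erase z, (z - a) ≠ 0 := by
    intro z
    rw [Finset.prod_ne_zero_iff]
    intro a ha h
    exact (Finset.mem_erase.1 ha).1 (sub_eq_zero.1 h).symm
  have hconv : ∀ z, Convex ℝ (t z) := by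
    intro z
    simp only [ht]
    split_ifs
    · exact convex_sel _ _ _
    · exact convex_singleton _
    · exact convex_sel _ _ _
  have hopen : IsOpen ((Z : Set ℂ)ᶜ) := Z.finite_toSet.isClosed.isOpen_compl
  have hmem_off : ∀ z, z ∉ Z → σ z / ∏ a ∈ Z, (z - a) ∈ t z := by
    intro z hz
    simp only [ht, if_neg hz]
    split_ifs with h1
    · exact mem_singleton _
    · rw [mem_ofPred_eq, norm_zero, zero_mul, mul_div_cancel₀ _ (hprod z hz), Complex.mul_conj, Complex.ofReal_re]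
      exact Complex.normSq_pos.2 (fun h => hz ((hZ z).1 h))
  obtain ⟨f, hf⟩ := exists_contMDiffMap_forall_mem_convex_of_local (n := ⊤) 𝓘(ℝ, ℂ) hconv (by
    intro x
    by_cases hx : x ∈ Z
    · have h1 := near_zero (hσ.contDiffAt.differentiableAt (by simp)) ((hZ x).2 hx) (hpos x hx)
      have h2 : ∀ᶠ y in 𝓝 x, ∏ a ∈ Z.erase x, (y - a) ≠ 0 := by
        have : Continuous fun y : ℂ => ∏ a ∈ Z.erase x, (y - a) := by fun_prop
        exact this.continuousAt.eventually_ne (hprod' x)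
      have h3 : ∀ᶠ y in 𝓝 x, ‖y‖ < R :=
        continuous_norm.continuousAt.eventually_lt continuousAt_const (hR x hx)
      have h4 : ∀ᶠ y in 𝓝 x, y ∉ Z.erase x := by
        have : IsOpen (((Z.erase x : Finset ℂ) : Set ℂ)ᶜ) :=
          (Z.erase x).finite_toSet.isClosed.isOpen_compl
        exact this.mem_nhds (by simp)
      refine ⟨{y | (y ≠ x → 0 < (σ y * conj (linP (fderiv ℝ σ x) * (y - x))).re) ∧
        ∏ a ∈ Z.erase x, (y - a) ≠ 0 ∧ ‖y‖ < R ∧ y ∉ Z.erase x}, ?_,
        fun y => linP (fderiv ℝ σ x) / ∏ a ∈ Z.erase x, (y - a), ?_, ?_⟩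
      · filter_upwards [h1, h2, h3, h4] with y a1 a2 a3 a4 using ⟨a1, a2, a3, a4⟩
      · rw [contMDiffOn_iff_contDiffOn]
        simp only [div_eq_mul_inv]
        apply ContDiffOn.mul contDiffOn_const
        apply ContDiffOn.inv
        · apply ContDiff.contDiffOn
          exact contDiff_prod (fun a _ => contDiff_id.sub contDiff_const)
        · rintro y ⟨-, h, -⟩
          exact h
      · rintro y ⟨hy1, hy2, hy3, hy4⟩
        by_cases hyx : y = x
        · subst hyx
          simp only [ht, if_pos hx]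
          rw [mem_ofPred_eq, mul_div_cancel₀ _ hy2, Complex.mul_conj, Complex.ofReal_re,
            Complex.normSq_eq_norm_sq]
          have h5 := hpos y hx
          rw [jac_lin_anti, Complex.normSq_eq_norm_sq, Complex.normSq_eq_norm_sq] at h5
          nlinarith [norm_nonneg (antiP (fderiv ℝ σ y)), norm_nonneg (linP (fderiv ℝ σ y))]
        · have hyZ : y ∉ Z := fun h => hy4 (Finset.mem_erase.2 ⟨hyx, h⟩)
          simp only [ht, if_neg hyZ, if_neg (not_le.2 hy3)]
          rw [mem_ofPred_eq]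
          have h5 : (∏ a ∈ Z, (y - a)) * (linP (fderiv ℝ σ x) / ∏ a ∈ Z.erase x, (y - a)) =
              linP (fderiv ℝ σ x) * (y - x) := by
            rw [← Finset.mul_prod_erase Z _ hx]
            field_simp
          rw [norm_zero, zero_mul, h5]
          exact hy1 hyx
    · refine ⟨(Z : Set ℂ)ᶜ, hopen.mem_nhds hx, fun z => σ z / ∏ a ∈ Z, (z - a), ?_, ?_⟩
      · rw [contMDiffOn_iff_contDiffOn]
        simp only [div_eq_mul_inv]
        apply ContDiffOn.mul hσ.contDiffOn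
        apply ContDiffOn.inv
        · exact (contDiff_prod (fun a _ => contDiff_id.sub contDiff_const)).contDiffOn
        · intro z hz
          exact hprod z hz
      · intro z hz
        exact hmem_off z hz)
  refine ⟨f, contMDiff_iff_contDiff.1 f.contMDiff, ?_, ?_, ?_⟩
  · intro z hz
    have h1 := hf z
    have hzZ : z ∉ Z := fun h => absurd (hR z h) (not_lt.2 hz)
    simp only [ht, if_neg hzZ, if_pos hz] at h1
    exact h1
  · intro z hz
    have h1 := hf z
    simp only [ht, if_neg hz] at h1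
    split_ifs at h1 with h2
    · have h3 : f z = σ z / ∏ a ∈ Z, (z - a) := h1
      rw [h3, mul_div_cancel₀ _ (hprod z hz), Complex.mul_conj, Complex.ofReal_re]
      exact Complex.normSq_pos.2 (fun h => hz ((hZ z).1 h))
    · have h3 : ‖(0 : ℂ)‖ * ‖(∏ a ∈ Z, (z - a)) * f z‖ <
        (σ z * conj ((∏ a ∈ Z, (z - a)) * f z)).re := h1
      rw [norm_zero, zero_mul] at h3
      exact h3
  · intro z hz
    have h1 := hf z
    simp only [ht, if_pos hz] at h1
    exact h1

end Pool.Agent.Helper905_SI
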