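import Pool.Agent.Helper905_SI.Positive

/-!
# Squeezing curves towards the line `w = 0`
-/

set_option autoImplicit false

open scoped ContDiff ComplexConjugate Topology
open Set Filter

namespace Pool.Agent.Helper905_SI

/-- the linear map `(u, w) ↦ (u, w / μ)` -/
noncomputable def sq (μ : ℝ) : X →L[ℝ] X :=
  (ContinuousLinearMap.fst ℝ (ℂ × ℂ) ℂ).prod (μ⁻¹ • ContinuousLinearMap.snd ℝ (ℂ × ℂ) ℂ)

@[simp] lemma sq_apply (μ : ℝ) (p : X) : sq μ p = (p.1, μ⁻¹ • p.2) := rfl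

/-- the squeezed equation -/
noncomputable def squeeze (μ : ℝ) (F : X → ℂ) : X → ℂ := fun p => F (sq μ p)

lemma squeeze_one (F : X → ℂ) : squeeze 1 F = F := by
  funext p
  simp [squeeze]

lemma IsHomog.squeeze {d : ℕ} {F : X → ℂ} (hF : IsHomog d F) (μ : ℝ) :
    IsHomog d (squeeze μ F) := by
  intro c hc p hp
  have h1 : sq μ (c • p) = c • sq μ p := by
    ext
    · simp
    · simp
    · simp
      ring
  simp only [Helper905_SI.squeeze]
  rw [h1]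
  exact hF c hc _ hp

lemma fderiv_squeeze {μ : ℝ} {F : X → ℂ} {p : X} (hd : DifferentiableAt ℝ F (sq μ p)) :
    fderiv ℝ (squeeze μ F) p = (fderiv ℝ F (sq μ p)).comp (sq μ) :=
  (hd.hasFDerivAt.comp p (sq μ).hasFDerivAt).fderiv

lemma baseE_sq (μ : ℝ) (M : X →L[ℝ] ℂ) : baseE (M.comp (sq μ)) = baseE M := by
  unfold baseE
  simp

lemma vertE_sq (μ : ℝ) (M : X →L[ℝ] ℂ) : vertE (M.comp (sq μ)) = (μ⁻¹) ^ 2 * vertE M := by
  unfold vertE
  have h1 : (M.comp (sq μ)) (0, 1) = μ⁻¹ • M (0, 1) := by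
    rw [← map_smul]
    simp only [ContinuousLinearMap.comp_apply, sq_apply]
    congr 1
    ext <;> simp
  have h2 : (M.comp (sq μ)) (0, Complex.I) = μ⁻¹ • M (0, Complex.I) := by
    rw [← map_smul]
    simp only [ContinuousLinearMap.comp_apply, sq_apply]
    congr 1
    ext <;> simp
  rw [h1, h2]
  simp only [jac_eq, Complex.real_smul, Complex.re_ofReal_mul, Complex.im_ofReal_mul]
  ring

lemma sq_surjective {μ : ℝ} (hμ : μ ≠ 0) : Function.Surjective (sq μ) := by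
  rintro ⟨u, w⟩
  refine ⟨(u, μ • w), ?_⟩
  rw [sq_apply, smul_smul, inv_mul_cancel₀ hμ, one_smul]

/-- One-parameter families of equations whose zero sets are, away from the centre of the
pencil, positively transverse to the pencil except at finitely or infinitely many points where
they have complex tangencies of positive type. -/
structure GoodFamily (d : ℕ) (F : ℝ → X → ℂ) : Prop where
  hom : ∀ t, IsHomog d (F t)
  smooth : ContDiffOn ℝ ∞ (fun q : ℝ × X => F q.1 q.2) {q | q.2.1 ≠ 0}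
  surj : ∀ t ∈ Icc (0 : ℝ) 1, ∀ p : X, p.1 ≠ 0 → F t p = 0 →
    Function.Surjective (fderiv ℝ (F t) p)
  vert_nonneg : ∀ t ∈ Icc (0 : ℝ) 1, ∀ p : X, p.1 ≠ 0 → F t p = 0 →
    0 ≤ vertE (fderiv ℝ (F t) p)
  base_pos : ∀ t ∈ Icc (0 : ℝ) 1, ∀ p : X, p.1 ≠ 0 → F t p = 0 →
    vertE (fderiv ℝ (F t) p) = 0 → 0 < baseE (fderiv ℝ (F t) p)
  nonempty : ∀ t ∈ Icc (0 : ℝ) 1, ∃ p : X, p.1 ≠ 0 ∧ F t p = 0
  bound : ∃ R : ℝ, ∀ t ∈ Icc (0 : ℝ) 1, ∀ p : X, p.1 ≠ 0 → F t p = 0 →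
    Complex.normSq p.2 ≤ R * nb p

lemma isOpen_base' : IsOpen {q : ℝ × X | q.2.1 ≠ 0} := isOpen_base.preimage continuous_snd

lemma GoodFamily.smooth_at {d : ℕ} {F : ℝ → X → ℂ} (h : GoodFamily d F) (t : ℝ) :
    ContDiffOn ℝ ∞ (F t) {p | p.1 ≠ 0} :=
  h.smooth.comp (f := fun p : X => (t, p)) (by fun_prop) (fun _ hp => hp)

lemma GoodFamily.fderiv_eq {d : ℕ} {F : ℝ → X → ℂ} (h : GoodFamily d F) (t : ℝ) {p : X}
    (hp : p.1 ≠ 0) : fderiv ℝ (F t) p =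
      (fderiv ℝ (fun q : ℝ × X => F q.1 q.2) (t, p)).comp (ContinuousLinearMap.inr ℝ ℝ X) := by
  have h1 : DifferentiableAt ℝ (fun q : ℝ × X => F q.1 q.2) (t, p) :=
    (h.smooth.contDiffAt (isOpen_base'.mem_nhds hp)).differentiableAt (by simp)
  exact (h1.hasFDerivAt.comp p (hasFDerivAt_prodMk_right t p)).fderiv

lemma GoodFamily.continuousOn_fderiv {d : ℕ} {F : ℝ → X → ℂ} (h : GoodFamily d F) :
    ContinuousOn (fun q : ℝ × X => fderiv ℝ (F q.1) q.2) {q | q.2.1 ≠ 0} := by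
  have h1 : ContinuousOn (fderiv ℝ (fun q : ℝ × X => F q.1 q.2)) {q | q.2.1 ≠ 0} :=
    h.smooth.continuousOn_fderiv_of_isOpen isOpen_base' (by simp)
  have h2 : ContinuousOn (fun q : ℝ × X => (fderiv ℝ (fun q : ℝ × X => F q.1 q.2) q).comp
      (ContinuousLinearMap.inr ℝ ℝ X)) {q | q.2.1 ≠ 0} := h1.clm_comp continuousOn_const
  refine h2.congr ?_
  rintro ⟨t, p⟩ hq
  exact h.fderiv_eq t hq

/-- For strongly squeezed families the energy is positive. -/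
lemma GoodFamily.exists_squeeze {d : ℕ} {F : ℝ → X → ℂ} (h : GoodFamily d F) :
    ∃ μ₀ : ℝ, 0 < μ₀ ∧ ∀ μ : ℝ, 0 < μ → μ ≤ μ₀ → ∀ t ∈ Icc (0 : ℝ) 1, ∀ p : X, p.1 ≠ 0 →
      F t p = 0 → 0 < baseE (fderiv ℝ (F t) p) + (μ⁻¹) ^ 2 * vertE (fderiv ℝ (F t) p) := by
  obtain ⟨R, hR⟩ := h.bound
  set B : ℝ × X → ℝ := fun q => baseE (fderiv ℝ (F q.1) q.2) with hB
  set W : ℝ × X → ℝ := fun q => vertE (fderiv ℝ (F q.1) q.2) with hW
  have hBc : ContinuousOn B {q | q.2.1 ≠ 0} :=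
    continuous_baseE.comp_continuousOn h.continuousOn_fderiv
  have hWc : ContinuousOn W {q | q.2.1 ≠ 0} :=
    continuous_vertE.comp_continuousOn h.continuousOn_fderiv
  set K : Set (ℝ × X) := ({q | q.1 ∈ Icc (0 : ℝ) 1} ∩ {q | nb q.2 = 1}) ∩
    (fun q : ℝ × X => F q.1 q.2) ⁻¹' {0} ∩ B ⁻¹' (Iic 0) with hK
  have hsub : {q : ℝ × X | q.1 ∈ Icc (0 : ℝ) 1} ∩ {q | nb q.2 = 1} ⊆ {q | q.2.1 ≠ 0} := by
    rintro q ⟨-, hq⟩ hq0
    rw [mem_ofPred_eq, nb_eq_zero.2 hq0] at hq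
    exact zero_ne_one hq
  have hcl1 : IsClosed ({q : ℝ × X | q.1 ∈ Icc (0 : ℝ) 1} ∩ {q | nb q.2 = 1}) :=
    (isClosed_Icc.preimage continuous_fst).inter
      (isClosed_eq (continuous_nb.comp continuous_snd) continuous_const)
  have hKcl : IsClosed K := by
    have h1 : IsClosed (({q : ℝ × X | q.1 ∈ Icc (0 : ℝ) 1} ∩ {q | nb q.2 = 1}) ∩
        (fun q : ℝ × X => F q.1 q.2) ⁻¹' {0}) :=
      (h.smooth.continuousOn.mono hsub).preimage_isClosed_of_isClosed hcl1 isClosed_singleton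
    exact (hBc.mono (inter_subset_left.trans hsub)).preimage_isClosed_of_isClosed h1 isClosed_Iic
  have hKb : Bornology.IsBounded K := by
    rw [isBounded_iff_forall_norm_le]
    refine ⟨1 + |R|, ?_⟩
    rintro ⟨t, q⟩ ⟨⟨⟨ht, hq1⟩, hq2⟩, -⟩
    have hq1' : nb q = 1 := hq1
    have hq0 : q.1 ≠ 0 := hsub ⟨ht, hq1⟩
    have hr := hR t ht q hq0 hq2
    rw [hq1', mul_one] at hr
    have ha : ‖q.1.1‖ ^ 2 ≤ 1 := by
      rw [← hq1', nb, ← Complex.normSq_eq_norm_sq]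
      linarith [Complex.normSq_nonneg q.1.2]
    have hb : ‖q.1.2‖ ^ 2 ≤ 1 := by
      rw [← hq1', nb, ← Complex.normSq_eq_norm_sq]
      linarith [Complex.normSq_nonneg q.1.1]
    have hc : ‖q.2‖ ^ 2 ≤ |R| := by
      rw [← Complex.normSq_eq_norm_sq]
      exact hr.trans (le_abs_self R)
    have h1 : ‖q.1.1‖ ≤ 1 := by nlinarith [norm_nonneg q.1.1]
    have h2 : ‖q.1.2‖ ≤ 1 := by nlinarith [norm_nonneg q.1.2]
    have h3 : ‖q.2‖ ≤ 1 + |R| := by nlinarith [norm_nonneg q.2, abs_nonneg R]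
    have h4 : ‖t‖ ≤ 1 := by
      rw [Real.norm_eq_abs, abs_le]
      have := ht.1
      have := ht.2
      constructor <;> linarith
    rw [Prod.norm_def, Prod.norm_def, Prod.norm_def]
    have := abs_nonneg R
    exact max_le (by linarith) (max_le (max_le (by linarith) (by linarith)) h3)
  have hKc : IsCompact K := Metric.isCompact_of_isClosed_isBounded hKcl hKb
  have hKsub : K ⊆ {q | q.2.1 ≠ 0} := fun q hq => hsub hq.1.1
  -- reduction to normalized points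
  have hred : ∀ μ : ℝ, 0 < μ → (∀ q ∈ K, 0 < B q + (μ⁻¹) ^ 2 * W q) →
      ∀ t ∈ Icc (0 : ℝ) 1, ∀ p : X, p.1 ≠ 0 →
      F t p = 0 → 0 < baseE (fderiv ℝ (F t) p) + (μ⁻¹) ^ 2 * vertE (fderiv ℝ (F t) p) := by
    intro μ hμ hKμ t ht p hp hp0
    set c : ℝ := (Real.sqrt (nb p))⁻¹ with hc
    have hc0 : 0 < c := inv_pos.2 (Real.sqrt_pos.2 (nb_pos hp))
    have hf := fderiv_scale (h.hom t) (h.smooth_at t) hp hc0
    have hcp : (c • p).1 ≠ 0 := by
      rw [Prod.smul_fst]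
      exact smul_ne_zero hc0.ne' hp
    have hcz : F t (c • p) = 0 := by
      rw [show c • p = (c : ℂ) • p from rfl, h.hom t _ (by exact_mod_cast hc0.ne') p hp, hp0,
        mul_zero]
    have hcn : nb (c • p) = 1 := by
      rw [nb_smul, hc, inv_pow, Real.sq_sqrt (nb_nonneg p), inv_mul_cancel₀ (nb_pos hp).ne']
    have hk : 0 < (c ^ d / c) ^ 2 := by positivity
    have hgoal : 0 < baseE (fderiv ℝ (F t) (c • p)) +
        (μ⁻¹) ^ 2 * vertE (fderiv ℝ (F t) (c • p)) := by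
      by_cases hb : B (t, c • p) ≤ 0
      · exact hKμ (t, c • p) ⟨⟨⟨ht, hcn⟩, hcz⟩, hb⟩
      · have h1 : 0 < baseE (fderiv ℝ (F t) (c • p)) := not_le.1 hb
        have h2 := h.vert_nonneg t ht (c • p) hcp hcz
        have h3 : 0 ≤ (μ⁻¹) ^ 2 * vertE (fderiv ℝ (F t) (c • p)) := by positivity
        linarith
    rw [hf, baseE_smul, vertE_smul] at hgoal
    by_contra hcon
    have : (c ^ d / c) ^ 2 * (baseE (fderiv ℝ (F t) p) +
        (μ⁻¹) ^ 2 * vertE (fderiv ℝ (F t) p)) ≤ 0 :=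
      mul_nonpos_of_nonneg_of_nonpos hk.le (not_lt.1 hcon)
    linarith
  rcases K.eq_empty_or_nonempty with hKe | hKne
  · refine ⟨1, one_pos, fun μ hμ _ => hred μ hμ ?_⟩
    intro q hq
    rw [hKe] at hq
    exact absurd hq (notMem_empty q)
  · obtain ⟨q₁, hq₁, hmin⟩ := hKc.exists_isMinOn hKne (hWc.mono hKsub)
    obtain ⟨q₂, hq₂, hmin2⟩ := hKc.exists_isMinOn hKne (hBc.mono hKsub)
    have hm : 0 < W q₁ := by
      have h1 := h.vert_nonneg q₁.1 hq₁.1.1.1 q₁.2 (hKsub hq₁) hq₁.1.2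
      rcases h1.lt_or_eq with h2 | h2
      · exact h2
      · have h3 := h.base_pos q₁.1 hq₁.1.1.1 q₁.2 (hKsub hq₁) hq₁.1.2 h2.symm
        have h4 : B q₁ ≤ 0 := hq₁.2
        exact absurd h4 (not_le.2 h3)
    have hBn : B q₂ ≤ 0 := hq₂.2
    set N : ℝ := -B q₂ + 1 with hN
    have hNpos : 0 < N := by rw [hN]; linarith
    refine ⟨min 1 (W q₁ / N), lt_min one_pos (div_pos hm hNpos), fun μ hμ hμ' => hred μ hμ ?_⟩
    intro q hq
    have h1 : W q₁ ≤ W q := hmin hq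
    have h2 : B q₂ ≤ B q := hmin2 hq
    have hμ1 : μ ≤ 1 := hμ'.trans (min_le_left _ _)
    have hμ2 : μ ≤ W q₁ / N := hμ'.trans (min_le_right _ _)
    have h3 : μ ^ 2 * N ≤ W q₁ := by
      have : μ * N ≤ W q₁ := (le_div_iff₀ hNpos).1 hμ2
      nlinarith
    have h4 : N ≤ (μ⁻¹) ^ 2 * W q₁ := by
      rw [inv_pow, ← div_eq_inv_mul, le_div_iff₀ (by positivity)]
      linarith
    have h5 : (μ⁻¹) ^ 2 * W q₁ ≤ (μ⁻¹) ^ 2 * W q := by
      apply mul_le_mul_of_nonneg_left h1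
      positivity
    linarith

/-- Squeezed good families are families of symplectic curves. -/
theorem GoodFamily.joined {d : ℕ} {F : ℝ → X → ℂ} (h : GoodFamily d F) :
    ∃ μ₀ : ℝ, 0 < μ₀ ∧ ∀ μ : ℝ, 0 < μ → μ ≤ μ₀ →
      SmoothlyJoined (curve (squeeze μ (F 0))) (curve (squeeze μ (F 1))) := by
  obtain ⟨μ₀, hμ₀, hE⟩ := h.exists_squeeze
  obtain ⟨R, hR⟩ := h.bound
  refine ⟨μ₀, hμ₀, fun μ hμ hμ' => ?_⟩
  have hd : ∀ t, ∀ p : X, p.1 ≠ 0 → DifferentiableAt ℝ (F t) p := fun t p hp =>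
    ((h.smooth_at t).contDiffAt (isOpen_base.mem_nhds hp)).differentiableAt (by simp)
  have key := joined_of_family (d := d) univ isOpen_univ (subset_univ _)
    (fun t => squeeze μ (F t)) (fun t _ => (h.hom t).squeeze μ) ?_ ?_ ?_ ?_ (μ ^ 2 * R) ?_
  · exact key
  · refine h.smooth.comp (f := fun q : ℝ × X => (q.1, sq μ q.2)) ?_ ?_
    · exact (contDiff_fst.prodMk ((sq μ).contDiff.comp contDiff_snd)).contDiffOn
    · rintro q ⟨-, hq⟩
      exact hq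
  · intro t ht p hp hp0
    rw [fderiv_squeeze (hd t _ hp)]
    exact (h.surj t ht (sq μ p) hp hp0).comp (sq_surjective hμ.ne')
  · intro t ht p hp hp0
    rw [fderiv_squeeze (hd t _ hp), baseE_sq, vertE_sq]
    exact (hE μ hμ hμ' t ht (sq μ p) hp hp0).ne'
  · intro t ht
    obtain ⟨p, hp, hp0⟩ := h.nonempty t ht
    obtain ⟨q, rfl⟩ := sq_surjective hμ.ne' p
    exact ⟨q, hp, hp0⟩
  · intro t ht p hp hp0
    have h1 := hR t ht (sq μ p) hp hp0
    have h2 : Complex.normSq (sq μ p).2 = (μ⁻¹) ^ 2 * Complex.normSq p.2 := by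
      rw [sq_apply, Complex.real_smul, Complex.normSq_mul, Complex.normSq_ofReal]
      ring
    have h3 : nb (sq μ p) = nb p := rfl
    rw [h2, h3, inv_pow, ← div_eq_inv_mul, div_le_iff₀ (by positivity)] at h1
    linarith

/-- Squeezing a curve of positive energy. -/
theorem joined_squeeze {d : ℕ} {F : X → ℂ} (hF : IsHomog d F)
    (hsm : ContDiffOn ℝ ∞ F {p | p.1 ≠ 0})
    (hsurj : ∀ p : X, p.1 ≠ 0 → F p = 0 → Function.Surjective (fderiv ℝ F p))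
    (hE : ∀ p : X, p.1 ≠ 0 → F p = 0 → 0 < baseE (fderiv ℝ F p) + vertE (fderiv ℝ F p))
    (hV : ∀ p : X, p.1 ≠ 0 → F p = 0 → 0 ≤ vertE (fderiv ℝ F p))
    (hne : ∃ p : X, p.1 ≠ 0 ∧ F p = 0)
    (R : ℝ) (hR : ∀ p : X, p.1 ≠ 0 → F p = 0 → Complex.normSq p.2 ≤ R * nb p)
    (μ : ℝ) (hμ : 0 < μ) (hμ1 : μ ≤ 1) :
    SmoothlyJoined (curve F) (curve (squeeze μ F)) := by
  have hd : ∀ p : X, p.1 ≠ 0 → DifferentiableAt ℝ F p := fun p hp =>
    (hsm.contDiffAt (isOpen_base.mem_nhds hp)).differentiableAt (by simp)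
  set m : ℝ → ℝ := fun t => 1 - t * (1 - μ) with hm
  have hm1 : ∀ t ∈ Icc (0 : ℝ) 1, μ ≤ m t ∧ m t ≤ 1 := by
    intro t ht
    have h1 := ht.1
    have h2 := ht.2
    constructor
    · simp only [hm]; nlinarith
    · simp only [hm]; nlinarith
  have hmc : ContDiff ℝ ∞ m := by
    simp only [hm]
    fun_prop
  have key := joined_of_family (d := d) {t | 0 < m t}
    (isOpen_lt continuous_const hmc.continuous) (fun t ht => hμ.trans_le (hm1 t ht).1)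
    (fun t => squeeze (m t) F) (fun t _ => hF.squeeze _) ?_ ?_ ?_ ?_ (|R|) ?_
  · have e0 : m 0 = 1 := by simp [hm]
    have e1 : m 1 = μ := by simp [hm]
    simp only [e0, e1, squeeze_one] at key
    exact key
  · refine hsm.comp (f := fun q : ℝ × X => sq (m q.1) q.2) ?_ ?_
    · have h1 : ContDiffOn ℝ ∞ (fun q : ℝ × X => (m q.1)⁻¹) {q | q.1 ∈ {t | 0 < m t} ∧ q.2.1 ≠ 0} := by
        apply ContDiffOn.inv
        · exact (hmc.comp contDiff_fst).contDiffOn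
        · rintro q ⟨hq, -⟩
          exact (ne_of_gt hq)
      have h2 : ContDiffOn ℝ ∞ (fun q : ℝ × X => q.2.2) {q | q.1 ∈ {t | 0 < m t} ∧ q.2.1 ≠ 0} := by
        fun_prop
      have h3 : ContDiffOn ℝ ∞ (fun q : ℝ × X => q.2.1) {q | q.1 ∈ {t | 0 < m t} ∧ q.2.1 ≠ 0} := by
        fun_prop
      exact h3.prodMk (h1.smul h2)
    · rintro q ⟨-, hq⟩
      exact hq
  · intro t ht p hp hp0
    have hmt : m t ≠ 0 := (hμ.trans_le (hm1 t ht).1).ne'
    rw [fderiv_squeeze (hd _ hp)]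
    exact (hsurj (sq (m t) p) hp hp0).comp (sq_surjective hmt)
  · intro t ht p hp hp0
    have hmt : 0 < m t := (hμ.trans_le (hm1 t ht).1)
    rw [fderiv_squeeze (hd _ hp), baseE_sq, vertE_sq]
    have h1 := hE (sq (m t) p) hp hp0
    have h2 := hV (sq (m t) p) hp hp0
    have h3 : 1 ≤ ((m t)⁻¹) ^ 2 := one_le_pow₀ ((one_le_inv₀ hmt).2 (hm1 t ht).2)
    have h4 : vertE (fderiv ℝ F (sq (m t) p)) ≤
        ((m t)⁻¹) ^ 2 * vertE (fderiv ℝ F (sq (m t) p)) := le_mul_of_one_le_left h2 h3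
    exact ne_of_gt (by linarith)
  · intro t ht
    have hmt : m t ≠ 0 := (hμ.trans_le (hm1 t ht).1).ne'
    obtain ⟨p, hp, hp0⟩ := hne
    obtain ⟨q, rfl⟩ := sq_surjective hmt p
    exact ⟨q, hp, hp0⟩
  · intro t ht p hp hp0
    have hmt : 0 < m t := (hμ.trans_le (hm1 t ht).1)
    have h1 := hR (sq (m t) p) hp hp0
    have h2 : Complex.normSq (sq (m t) p).2 = ((m t)⁻¹) ^ 2 * Complex.normSq p.2 := by
      rw [sq_apply, Complex.real_smul, Complex.normSq_mul, Complex.normSq_ofReal]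
      ring
    have h3 : nb (sq (m t) p) = nb p := rfl
    rw [h2, h3, inv_pow, ← div_eq_inv_mul, div_le_iff₀ (by positivity)] at h1
    have h4 : (m t) ^ 2 ≤ 1 := pow_le_one₀ hmt.le (hm1 t ht).2
    have h5 := nb_pos hp
    have h6 : R * nb p * (m t) ^ 2 ≤ |R| * nb p := by
      have h7 : R * nb p ≤ |R| * nb p := mul_le_mul_of_nonneg_right (le_abs_self R) h5.le
      have h8 : 0 ≤ |R| * nb p := mul_nonneg (abs_nonneg R) h5.le
      nlinarith [sq_nonneg (m t)]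
    linarith

end Pool.Agent.Helper905_SI
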