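import Pool.Agent.Helper905_SI.Alex

/-!
# The translation stage and the linear stage
-/

set_option autoImplicit false

open scoped ContDiff ComplexConjugate Topology
open Set Filter

namespace Pool.Agent.Helper905_SI

lemma smooth_zero_section {Ψ : X → ℂ} (h : ContDiffOn ℝ ∞ Ψ {p | p.1 ≠ 0}) :
    ContDiffOn ℝ ∞ (fun u : ℂ × ℂ => Ψ (u, 0)) {u | u ≠ 0} :=
  h.comp (f := fun u : ℂ × ℂ => ((u, 0) : X)) (by fun_prop) (fun _ hu => hu)

lemma fderiv_translate {Ψ : X → ℂ} (h : ContDiffOn ℝ ∞ Ψ {p | p.1 ≠ 0}) (c : ℂ) {p : X}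
    (hp : p.1 ≠ 0) : vertE (fderiv ℝ (fun p : X => Ψ p - c * Ψ (p.1, 0)) p) =
      vertE (fderiv ℝ Ψ p) := by
  have h1 : HasFDerivAt (fun u : ℂ × ℂ => Ψ (u, 0)) (fderiv ℝ (fun u : ℂ × ℂ => Ψ (u, 0)) p.1)
      p.1 := (((smooth_zero_section h).contDiffAt (isOpen_ne.mem_nhds hp)).differentiableAt
        (by simp)).hasFDerivAt
  have h2 : HasFDerivAt (fun p : X => Ψ (p.1, 0))
      ((fderiv ℝ (fun u : ℂ × ℂ => Ψ (u, 0)) p.1).comp (ContinuousLinearMap.fst ℝ (ℂ × ℂ) ℂ)) p :=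
    h1.comp p hasFDerivAt_fst
  have h3 := ((diffAt_of_smooth h hp).hasFDerivAt.sub (h2.const_mul c)).fderiv
  have h4 : fderiv ℝ (fun p : X => Ψ p - c * Ψ (p.1, 0)) p = fderiv ℝ Ψ p -
      c • (fderiv ℝ (fun u : ℂ × ℂ => Ψ (u, 0)) p.1).comp
        (ContinuousLinearMap.fst ℝ (ℂ × ℂ) ℂ) := h3
  rw [h4]
  unfold vertE
  congr 1 <;> simp

/-- stage 0: moving the zero section -/
theorem translate_family {Ψ Θ : X → ℂ} (h : IsFibreDiffeo Ψ Θ) :
    FibreFamily (fun t p => Ψ p - (t : ℂ) * Ψ (p.1, 0))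
      (fun t p => Θ (p.1, p.2 + (t : ℂ) * Ψ (p.1, 0))) := by
  have hs0 := smooth_zero_section h.smooth
  have hs1 : ContDiffOn ℝ ∞ (fun q : ℝ × X => Ψ (q.2.1, 0)) {q | q.2.1 ≠ 0} :=
    hs0.comp (f := fun q : ℝ × X => q.2.1) (by fun_prop) (fun _ hq => hq)
  have hs2 : ContDiffOn ℝ ∞ (fun q : ℝ × X => (q.1 : ℂ)) {q | q.2.1 ≠ 0} :=
    (Complex.ofRealCLM.contDiff.comp contDiff_fst).contDiffOn
  refine ⟨?_, ?_, ?_, ?_, ?_, ?_⟩
  · intro t c hc p hp
    have h1 := h.hom c hc p hp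
    have h2 := h.hom c hc (p.1, 0) hp
    have h3 : c • ((p.1, 0) : X) = ((c • p).1, 0) := by
      ext <;> simp
    rw [h3] at h2
    simp only
    rw [h1, h2]
    ring
  · exact (h.smooth.comp (f := fun q : ℝ × X => q.2) (by fun_prop) (fun _ hq => hq)).sub
      (hs2.mul hs1)
  · refine ContinuousOn.mono ?_ (s := {q : ℝ × X | q.2.1 ≠ 0}) (fun q hq => hq.2)
    refine h.smooth_inv.continuousOn.comp
      (f := fun q : ℝ × X => ((q.2.1, q.2.2 + (q.1 : ℂ) * Ψ (q.2.1, 0)) : X)) ?_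
      (fun _ hq => hq)
    exact (by fun_prop : ContinuousOn (fun q : ℝ × X => q.2.1) _).prodMk
      ((by fun_prop : ContinuousOn (fun q : ℝ × X => q.2.2) _).add
        (hs2.continuousOn.mul hs1.continuousOn))
  · intro t _ p hp
    simp only
    rw [sub_add_cancel]
    exact h.left p hp
  · intro t _ p hp
    have := h.right (p.1, p.2 + (t : ℂ) * Ψ (p.1, 0)) hp
    simp only at this ⊢
    rw [this]
    ring
  · intro t _ p hp
    rw [fderiv_translate h.smooth _ hp]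
    exact h.pos p hp

/-- the translated fibrewise diffeomorphism -/
theorem translate_diffeo {Ψ Θ : X → ℂ} (h : IsFibreDiffeo Ψ Θ) :
    IsFibreDiffeo (fun p => Ψ p - Ψ (p.1, 0)) (fun p => Θ (p.1, p.2 + Ψ (p.1, 0))) := by
  have hs0 := smooth_zero_section h.smooth
  have hs1 : ContDiffOn ℝ ∞ (fun q : X => Ψ (q.1, 0)) {q | q.1 ≠ 0} :=
    hs0.comp (f := fun q : X => q.1) (by fun_prop) (fun _ hq => hq)
  refine ⟨?_, h.smooth.sub hs1, ?_, ?_, ?_, ?_⟩
  · intro c hc p hp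
    have h1 := h.hom c hc p hp
    have h2 := h.hom c hc (p.1, 0) hp
    have h3 : c • ((p.1, 0) : X) = ((c • p).1, 0) := by
      ext <;> simp
    rw [h3] at h2
    simp only
    rw [h1, h2]
    ring
  · refine h.smooth_inv.comp
      (f := fun q : X => ((q.1, q.2 + Ψ (q.1, 0)) : X)) ?_ (fun _ hq => hq)
    exact (by fun_prop : ContDiffOn ℝ ∞ (fun q : X => q.1) _).prodMk
      ((by fun_prop : ContDiffOn ℝ ∞ (fun q : X => q.2) _).add hs1)
  · intro p hp
    simp only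
    rw [sub_add_cancel]
    exact h.left p hp
  · intro p hp
    have := h.right (p.1, p.2 + Ψ (p.1, 0)) hp
    simp only at this ⊢
    rw [this]
    ring
  · intro p hp
    have h1 := fderiv_translate h.smooth 1 hp
    simp only [one_mul] at h1
    rw [h1]
    exact h.pos p hp

/-- the complex linear part of the fibre derivative along the zero section -/
noncomputable def alphaF (Ψ : X → ℂ) (u : ℂ × ℂ) : ℂ :=
  (fderiv ℝ Ψ (u, 0) (0, 1) - Complex.I * fderiv ℝ Ψ (u, 0) (0, Complex.I)) / 2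

/-- the antilinear part of the fibre derivative along the zero section -/
noncomputable def betaF (Ψ : X → ℂ) (u : ℂ × ℂ) : ℂ :=
  (fderiv ℝ Ψ (u, 0) (0, 1) + Complex.I * fderiv ℝ Ψ (u, 0) (0, Complex.I)) / 2

lemma fibre_expand (M : X →L[ℝ] ℂ) (w : ℂ) :
    M (0, w) = (M (0, 1) - Complex.I * M (0, Complex.I)) / 2 * w +
      (M (0, 1) + Complex.I * M (0, Complex.I)) / 2 * conj w := by
  have h1 : M (0, w) = (w.re : ℂ) * M (0, 1) + (w.im : ℂ) * M (0, Complex.I) := by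
    rw [← Complex.real_smul, ← Complex.real_smul, ← map_smul, ← map_smul, ← map_add]
    congr 1
    ext
    · simp
    · simp
    · simp [Complex.re_add_im]
  rw [h1]
  have h2 : w = (w.re : ℂ) + w.im * Complex.I := (Complex.re_add_im w).symm
  have h3 : conj w = (w.re : ℂ) - w.im * Complex.I := by
    apply Complex.ext <;> simp
  rw [h3]
  conv_rhs => rw [show w = (w.re : ℂ) + w.im * Complex.I from h2]
  have hI : Complex.I * Complex.I = -1 := Complex.I_mul_I
  simp only [Complex.add_re, Complex.ofReal_re, Complex.mul_re, Complex.I_re, Complex.ofReal_im,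
    Complex.I_im, Complex.add_im, Complex.mul_im]
  simp only [mul_zero, mul_one, sub_zero, add_zero, zero_add]
  linear_combination ((w.im : ℂ) * M (0, Complex.I)) * hI

lemma alex_one_eq {Ψ : X → ℂ} (p : X) :
    alex Ψ 1 p = alphaF Ψ p.1 * p.2 + betaF Ψ p.1 * conj p.2 := by
  rw [alex_one, fibre_expand]
  rfl

lemma alphaF_smooth {Ψ : X → ℂ} (h : ContDiffOn ℝ ∞ Ψ {p | p.1 ≠ 0}) :
    ContDiffOn ℝ ∞ (alphaF Ψ) {u | u ≠ 0} := by
  have h1 : ContDiffOn ℝ ∞ (fderiv ℝ Ψ) {p | p.1 ≠ 0} := h.fderiv_of_isOpen isOpen_base (by simp)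
  have h2 : ContDiffOn ℝ ∞ (fun u : ℂ × ℂ => fderiv ℝ Ψ (u, 0)) {u | u ≠ 0} :=
    h1.comp (f := fun u : ℂ × ℂ => ((u, 0) : X)) (by fun_prop) (fun _ hu => hu)
  unfold alphaF
  exact ((h2.clm_apply contDiffOn_const).sub
    (contDiffOn_const.mul (h2.clm_apply contDiffOn_const))).div_const 2

lemma betaF_smooth {Ψ : X → ℂ} (h : ContDiffOn ℝ ∞ Ψ {p | p.1 ≠ 0}) :
    ContDiffOn ℝ ∞ (betaF Ψ) {u | u ≠ 0} := by
  have h1 : ContDiffOn ℝ ∞ (fderiv ℝ Ψ) {p | p.1 ≠ 0} := h.fderiv_of_isOpen isOpen_base (by simp)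
  have h2 : ContDiffOn ℝ ∞ (fun u : ℂ × ℂ => fderiv ℝ Ψ (u, 0)) {u | u ≠ 0} :=
    h1.comp (f := fun u : ℂ × ℂ => ((u, 0) : X)) (by fun_prop) (fun _ hu => hu)
  unfold betaF
  exact ((h2.clm_apply contDiffOn_const).add
    (contDiffOn_const.mul (h2.clm_apply contDiffOn_const))).div_const 2

lemma alpha_beta_pos {Ψ Θ : X → ℂ} (h : IsFibreDiffeo Ψ Θ) {u : ℂ × ℂ} (hu : u ≠ 0) :
    Complex.normSq (betaF Ψ u) < Complex.normSq (alphaF Ψ u) := by
  have h1 := h.pos (u, 0) hu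
  have h2 : vertE (fderiv ℝ Ψ (u, 0)) =
      Complex.normSq (alphaF Ψ u) - Complex.normSq (betaF Ψ u) := by
    unfold vertE alphaF betaF
    simp only [jac_eq, Complex.normSq_apply]
    simp
    ring
  linarith

lemma alphaF_hom {Ψ Θ : X → ℂ} (h : IsFibreDiffeo Ψ Θ)
    (h0 : ∀ u : ℂ × ℂ, u ≠ 0 → Ψ (u, 0) = 0) (c : ℂ) (hc : c ≠ 0) (u : ℂ × ℂ) (hu : u ≠ 0) :
    alphaF Ψ (c • u) = alphaF Ψ u ∧ betaF Ψ (c • u) * conj c = c * betaF Ψ u := by
  have hh := (alex_family h h0).hom 1 c hc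
  have e1 := hh (u, 1) hu
  have e2 := hh (u, Complex.I) hu
  rw [alex_one_eq, alex_one_eq, pow_one] at e1 e2
  simp only [Prod.smul_mk, smul_eq_mul, map_mul, mul_one, map_one, Complex.conj_I] at e1 e2
  have hI : Complex.I ≠ 0 := Complex.I_ne_zero
  have e3 : alphaF Ψ (c • u) * c - betaF Ψ (c • u) * conj c =
      c * (alphaF Ψ u - betaF Ψ u) := by
    apply mul_right_cancel₀ hI
    linear_combination e2
  constructor
  · apply mul_right_cancel₀ hc
    linear_combination (e1 + e3) / 2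
  · linear_combination (e1 - e3) / 2

/-- stage 2: removing the antilinear part -/
theorem linear_family {Ψ Θ : X → ℂ} (h : IsFibreDiffeo Ψ Θ)
    (h0 : ∀ u : ℂ × ℂ, u ≠ 0 → Ψ (u, 0) = 0) :
    FibreFamily (fun t p => alphaF Ψ p.1 * p.2 + (1 - (t : ℂ)) * (betaF Ψ p.1 * conj p.2))
      (fun t p => (conj (alphaF Ψ p.1) * p.2 - (1 - (t : ℂ)) * betaF Ψ p.1 * conj p.2) /
        ((Complex.normSq (alphaF Ψ p.1) - (1 - t) ^ 2 * Complex.normSq (betaF Ψ p.1) : ℝ) : ℂ)) := by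
  have hα := alphaF_smooth h.smooth
  have hβ := betaF_smooth h.smooth
  have hα1 : ContDiffOn ℝ ∞ (fun q : ℝ × X => alphaF Ψ q.2.1) {q | q.2.1 ≠ 0} :=
    hα.comp (f := fun q : ℝ × X => q.2.1) (by fun_prop) (fun _ hq => hq)
  have hβ1 : ContDiffOn ℝ ∞ (fun q : ℝ × X => betaF Ψ q.2.1) {q | q.2.1 ≠ 0} :=
    hβ.comp (f := fun q : ℝ × X => q.2.1) (by fun_prop) (fun _ hq => hq)
  have ht1 : ContDiff ℝ ∞ (fun q : ℝ × X => (1 - (q.1 : ℂ))) :=
    contDiff_const.sub (Complex.ofRealCLM.contDiff.comp contDiff_fst)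
  have hconj : ContDiff ℝ ∞ (fun q : ℝ × X => conj q.2.2) :=
    Complex.conjCLE.contDiff.comp (contDiff_snd.comp contDiff_snd)
  have hsmooth : ContDiffOn ℝ ∞ (fun q : ℝ × X => alphaF Ψ q.2.1 * q.2.2 +
      (1 - (q.1 : ℂ)) * (betaF Ψ q.2.1 * conj q.2.2)) {q | q.2.1 ≠ 0} :=
    (hα1.mul (by fun_prop)).add (ht1.contDiffOn.mul (hβ1.mul hconj.contDiffOn))
  have hpos : ∀ t ∈ Icc (0 : ℝ) 1, ∀ u : ℂ × ℂ, u ≠ 0 →
      0 < Complex.normSq (alphaF Ψ u) - (1 - t) ^ 2 * Complex.normSq (betaF Ψ u) := by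
    intro t ht u hu
    have h1 := alpha_beta_pos h hu
    have h2 := Complex.normSq_nonneg (betaF Ψ u)
    have h3 : (1 - t) ^ 2 ≤ 1 := by nlinarith [ht.1, ht.2]
    nlinarith
  refine ⟨?_, hsmooth, ?_, ?_, ?_, ?_⟩
  · intro t c hc p hp
    obtain ⟨h1, h2⟩ := alphaF_hom h h0 c hc p.1 hp
    simp only [Prod.smul_fst, Prod.smul_snd, smul_eq_mul, map_mul]
    rw [h1]
    linear_combination (1 - (t : ℂ)) * conj p.2 * h2
  · apply ContinuousOn.div
    · apply ContinuousOn.sub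
      · apply ContinuousOn.mul
        · exact Complex.continuous_conj.comp_continuousOn (hα1.continuousOn.mono (fun q hq => hq.2))
        · fun_prop
      · apply ContinuousOn.mul
        · exact ht1.continuous.continuousOn.mul (hβ1.continuousOn.mono (fun q hq => hq.2))
        · exact hconj.continuous.continuousOn
    · apply Complex.continuous_ofReal.comp_continuousOn
      apply ContinuousOn.sub
      · exact Complex.continuous_normSq.comp_continuousOn
          (hα1.continuousOn.mono (fun q hq => hq.2))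
      · apply ContinuousOn.mul
        · fun_prop
        · exact Complex.continuous_normSq.comp_continuousOn
            (hβ1.continuousOn.mono (fun q hq => hq.2))
    · rintro ⟨t, p⟩ ⟨ht, hp⟩
      have := hpos t ht p.1 hp
      exact_mod_cast this.ne'
  · intro t ht p hp
    have h1 := hpos t ht p.1 hp
    have h2 : ((Complex.normSq (alphaF Ψ p.1) - (1 - t) ^ 2 * Complex.normSq (betaF Ψ p.1) : ℝ) : ℂ)
        ≠ 0 := by exact_mod_cast h1.ne'
    simp only
    rw [div_eq_iff h2]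
    push_cast
    simp only [map_add, map_mul, map_sub, map_one, Complex.conj_ofReal, Complex.conj_conj]
    rw [← Complex.mul_conj (alphaF Ψ p.1), ← Complex.mul_conj (betaF Ψ p.1)]
    ring
  · intro t ht p hp
    have h1 := hpos t ht p.1 hp
    have h2 : ((Complex.normSq (alphaF Ψ p.1) - (1 - t) ^ 2 * Complex.normSq (betaF Ψ p.1) : ℝ) : ℂ)
        ≠ 0 := by exact_mod_cast h1.ne'
    simp only
    rw [map_div₀, Complex.conj_ofReal, mul_div_assoc', mul_div_assoc', mul_div_assoc', ← add_div,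
      div_eq_iff h2]
    push_cast
    simp only [map_mul, map_sub, map_one, Complex.conj_ofReal, Complex.conj_conj]
    rw [← Complex.mul_conj (alphaF Ψ p.1), ← Complex.mul_conj (betaF Ψ p.1)]
    ring
  · intro t ht p hp
    have h1 := hpos t ht p.1 hp
    have hd : DifferentiableAt ℝ (fun p : X => alphaF Ψ p.1 * p.2 +
        (1 - (t : ℂ)) * (betaF Ψ p.1 * conj p.2)) p := by
      have := hsmooth.comp (f := fun p : X => (t, p)) (t := {q : ℝ × X | q.2.1 ≠ 0})
        (s := {p : X | p.1 ≠ 0}) (by fun_prop) (fun _ hp => hp)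
      exact diffAt_of_smooth this hp
    have hv : ∀ v : ℂ, fderiv ℝ (fun p : X => alphaF Ψ p.1 * p.2 +
        (1 - (t : ℂ)) * (betaF Ψ p.1 * conj p.2)) p (0, v) =
        alphaF Ψ p.1 * v + (1 - (t : ℂ)) * (betaF Ψ p.1 * conj v) := by
      intro v
      have hline : HasDerivAt (fun τ : ℝ => p + τ • ((0 : ℂ × ℂ), v)) (0, v) 0 := by
        have := ((hasDerivAt_id (0 : ℝ)).smul_const ((0 : ℂ × ℂ), v)).const_add p
        simpa using this
      have hA : HasDerivAt (fun τ : ℝ => (fun p : X => alphaF Ψ p.1 * p.2 +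
          (1 - (t : ℂ)) * (betaF Ψ p.1 * conj p.2)) (p + τ • ((0 : ℂ × ℂ), v)))
          (fderiv ℝ (fun p : X => alphaF Ψ p.1 * p.2 +
            (1 - (t : ℂ)) * (betaF Ψ p.1 * conj p.2)) p (0, v)) 0 := by
        have h3 : HasFDerivAt (fun p : X => alphaF Ψ p.1 * p.2 +
            (1 - (t : ℂ)) * (betaF Ψ p.1 * conj p.2)) (fderiv ℝ (fun p : X => alphaF Ψ p.1 * p.2 +
            (1 - (t : ℂ)) * (betaF Ψ p.1 * conj p.2)) p) (p + (0 : ℝ) • ((0 : ℂ × ℂ), v)) := by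
          simpa using hd.hasFDerivAt
        exact h3.comp_hasDerivAt 0 hline
      have h4 : (fun τ : ℝ => (fun p : X => alphaF Ψ p.1 * p.2 +
          (1 - (t : ℂ)) * (betaF Ψ p.1 * conj p.2)) (p + τ • ((0 : ℂ × ℂ), v))) =
          fun τ : ℝ => (alphaF Ψ p.1 * p.2 + (1 - (t : ℂ)) * (betaF Ψ p.1 * conj p.2)) +
            τ • (alphaF Ψ p.1 * v + (1 - (t : ℂ)) * (betaF Ψ p.1 * conj v)) := by
        funext τ
        simp only [Prod.smul_mk, smul_zero, Prod.fst_add, Prod.snd_add, add_zero,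
          Complex.real_smul, map_add, map_mul, Complex.conj_ofReal]
        ring
      rw [h4] at hA
      have h5 : HasDerivAt (fun τ : ℝ => (alphaF Ψ p.1 * p.2 +
          (1 - (t : ℂ)) * (betaF Ψ p.1 * conj p.2)) +
            τ • (alphaF Ψ p.1 * v + (1 - (t : ℂ)) * (betaF Ψ p.1 * conj v)))
          (alphaF Ψ p.1 * v + (1 - (t : ℂ)) * (betaF Ψ p.1 * conj v)) 0 := by
        have := ((hasDerivAt_id (0 : ℝ)).smul_const (alphaF Ψ p.1 * v +
          (1 - (t : ℂ)) * (betaF Ψ p.1 * conj v))).const_add (alphaF Ψ p.1 * p.2 +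
          (1 - (t : ℂ)) * (betaF Ψ p.1 * conj p.2))
        simpa using this
      exact hA.unique h5
    have h6 : vertE (fderiv ℝ (fun p : X => alphaF Ψ p.1 * p.2 +
        (1 - (t : ℂ)) * (betaF Ψ p.1 * conj p.2)) p) =
        Complex.normSq (alphaF Ψ p.1) - (1 - t) ^ 2 * Complex.normSq (betaF Ψ p.1) := by
      unfold vertE
      rw [hv, hv]
      simp only [jac_eq, Complex.normSq_apply]
      simp
      ring
    rw [h6]
    exact h1

end Pool.Agent.Helper905_SI
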